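import Mathlib

/-! # [MP LIN] Integer vectors in a box satisfying independent linear equations

`τ` linear equations `∑_i A t i a_i = c t`, linearly independent over `ℚ` (`hA`), in the unknowns
`a_i`, `|a_i| ≤ H`: at most `(2H+1)^(#ι - #τ)` solutions. Proof: the coordinate functionals span
the dual of `W = {a ∈ ℚ^ι : A a = 0}`, `dim W = #ι - #τ`; choose a set `K` of coordinates whose
restrictions to `W` form a basis of the dual (`exists_linearIndependent` or a maximal independent
subfamily). Two solutions agreeing on `K` differ by a vector of `W` with zero `K`-coordinates,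
which is `0`; so restriction to `K` is injective with values in a box with `(2H+1)^#K` elements.
(Alternative: the `τ × ι` matrix has rank `#τ`, so some `#τ` columns `J` are independent, and the
coordinates outside `J` determine a solution; or induction on `#τ`.) -/

namespace Pool.Agent.H8.MP

open Finset

theorem card_le_of_indep {ι τ : Type*} [Fintype ι] [DecidableEq ι] [Fintype τ] [DecidableEq τ]
    (A : τ → ι → ℤ) (hA : ∀ l : τ → ℚ, (∀ i, ∑ t, l t * (A t i : ℚ) = 0) → ∀ t, l t = 0)
    (H : ℕ) (c : τ → ℤ) (S : Finset (ι → ℤ))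
    (hS : ∀ a ∈ S, (∀ i, |a i| ≤ (H : ℤ)) ∧ ∀ t, ∑ i, A t i * a i = c t) :
    Fintype.card τ ≤ Fintype.card ι ∧
      S.card ≤ (2 * H + 1) ^ (Fintype.card ι - Fintype.card τ) := by
  classical
  set Q : Matrix τ ι ℚ := Matrix.of fun t i => (A t i : ℚ) with hQ
  have hind : LinearIndependent ℚ Q.row := by
    rw [Fintype.linearIndependent_iff]
    intro l hl t
    refine hA l (fun i => ?_) t
    have := congrFun hl i
    simpa [Finset.sum_apply, hQ, Matrix.row] using this
  have hrank : Q.rank = Fintype.card τ := hind.rank_matrix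
  have hle : Fintype.card τ ≤ Fintype.card ι := by
    rw [← hrank]; exact Q.rank_le_card_width
  refine ⟨hle, ?_⟩
  set W := LinearMap.ker Q.mulVecLin with hW
  have hfin : Module.finrank ℚ W = Fintype.card ι - Fintype.card τ := by
    have h1 := LinearMap.finrank_range_add_finrank_ker Q.mulVecLin
    rw [Module.finrank_fintype_fun_eq_card] at h1
    have h2 : Module.finrank ℚ (LinearMap.range Q.mulVecLin) = Fintype.card τ := hrank
    rw [h2] at h1
    rw [hW]
    omega
  set φ : ι → Module.Dual ℚ W := fun i => (LinearMap.proj i).comp W.subtype with hφ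
  obtain ⟨κ, a, ha, hspan, hli⟩ := exists_linearIndependent' ℚ φ
  have hfk : Finite κ := Finite.of_injective a ha
  let _ : Fintype κ := Fintype.ofFinite κ
  have hcard : Fintype.card κ ≤ Fintype.card ι - Fintype.card τ := by
    rw [← hfin, ← Subspace.dual_finrank_eq]
    exact hli.fintype_card_le_finrank
  have hzero : ∀ w : W, (∀ k, (w : ι → ℚ) (a k) = 0) → ∀ i, (w : ι → ℚ) i = 0 := by
    intro w hw i
    have hmem : φ i ∈ Submodule.span ℚ (Set.range (φ ∘ a)) := by
      rw [hspan]; exact Submodule.subset_span ⟨i, rfl⟩
    have hle : Submodule.span ℚ (Set.range (φ ∘ a)) ≤ LinearMap.ker (Module.Dual.eval ℚ W w) := by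
      rw [Submodule.span_le]
      rintro _ ⟨k, rfl⟩
      exact hw k
    exact hle hmem
  set g : (ι → ℤ) → (κ → ℤ) := fun b k => b (a k) with hg
  have hinj : Set.InjOn g S := by
    intro b hb b' hb' h
    have hmem : (fun i => ((b i - b' i : ℤ) : ℚ)) ∈ W := by
      rw [hW, LinearMap.mem_ker, Matrix.mulVecLin_apply]
      funext t
      have h1 := (hS b hb).2 t
      have h2 := (hS b' hb').2 t
      have h3 : ∑ i, A t i * (b i - b' i) = 0 := by
        simp only [mul_sub, sum_sub_distrib, h1, h2, sub_self]
      have h4 : ((∑ i, A t i * (b i - b' i) : ℤ) : ℚ) = 0 := by rw [h3]; simp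
      push_cast at h4
      simp only [Matrix.mulVec, dotProduct, hQ, Matrix.of_apply, Pi.zero_apply]
      push_cast
      exact h4
    have h5 := hzero ⟨_, hmem⟩ (fun k => by
      have := congrFun h k
      simp only [hg] at this
      simp [this])
    funext i
    have := h5 i
    simp only at this
    have h6 : b i - b' i = 0 := by exact_mod_cast this
    linarith
  have hmaps : ∀ b ∈ S, g b ∈ (Fintype.piFinset fun _ : κ => Icc (-(H : ℤ)) H) := by
    intro b hb
    rw [Fintype.mem_piFinset]
    intro k
    rw [mem_Icc]
    exact abs_le.1 ((hS b hb).1 _)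
  refine (card_le_card_of_injOn g hmaps hinj).trans ?_
  rw [Fintype.card_piFinset]
  simp only [Int.card_Icc, prod_const, card_univ]
  have : ((H : ℤ) + 1 - -(H : ℤ)).toNat = 2 * H + 1 := by omega
  rw [this]
  exact Nat.pow_le_pow_right (by omega) hcard

end Pool.Agent.H8.MP
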