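import Pool.Agent.H8.MP.Defs
import Pool.Agent.H8.MP.Lin

/-! # [MP FIBS] Curves of one class through separated points

`mon P i = P.1^i.1 P.2^i.2` (`i : Ix n`), `ev n (arr a) P.1 P.2 = ∑_i a i * mon P i`
(`ev_arr_sum`). Apply `card_le_of_indep` with `ι = {i : Ix n // Low i}`, `τ = {P // P ∈ T}`,
`A P i = mon P i`, to the restrictions of the vectors of `S` to the low coordinates (injective, as
they agree with `c` outside): `∑_{i low} mon P i * a i = -∑_{i not low} mon P i * c i`.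
Independence: if `∑_P l_P mon P i = 0` for all low `i`, multiply by `q i` (`q` from `Sep` at `P`)
and sum: `l_P ev(q)(P) = 0`. -/

namespace Pool.Agent.H8.MP

open Finset Pool.Agent.H72.ES Pool.Agent.H8.NoPt

theorem ev_arr_sum {n : ℕ} (a : Ix n → ℤ) (x y : ℤ) :
    ev n (arr a) x y = ∑ i : Ix n, a i * (x ^ (i.1.1 : ℕ) * y ^ (i.1.2 : ℕ)) := by
  unfold ev
  rw [Finset.sum_sigma']
  symm
  refine Finset.sum_bij (fun (q : Ix n) _ => (⟨(q.1.1 : ℕ), (q.1.2 : ℕ)⟩ : (_ : ℕ) × ℕ))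
    ?_ ?_ ?_ ?_
  · intro q _
    have h := q.2
    simp only [Finset.mem_sigma, Finset.mem_range]
    omega
  · intro q _ r _ h
    have h1 := congrArg Sigma.fst h
    have h2 := congrArg Sigma.snd h
    simp only at h1 h2
    exact Subtype.ext (Prod.ext (Fin.ext h1) (Fin.ext h2))
  · rintro ⟨u, v⟩ h
    simp only [Finset.mem_sigma, Finset.mem_range] at h
    refine ⟨ix n u v (by omega), Finset.mem_univ _, ?_⟩
    simp [ix]
  · intro q _
    have h := q.2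
    have e : arr a (q.1.1 : ℕ) (q.1.2 : ℕ) = a q := by
      unfold arr
      rw [dif_pos h]
      rfl
    rw [e, mul_assoc]

private theorem fib_split {n : ℕ} (a : Ix n → ℤ) (x y : ℤ) :
    ev n (arr a) x y =
      ∑ i : {i : Ix n // Low i}, a i.1 * (x ^ (i.1.1.1 : ℕ) * y ^ (i.1.1.2 : ℕ)) +
      ∑ i : {i : Ix n // ¬ Low i}, a i.1 * (x ^ (i.1.1.1 : ℕ) * y ^ (i.1.1.2 : ℕ)) := by
  rw [ev_arr_sum]
  exact (Fintype.sum_subtype_add_sum_subtype (fun i : Ix n => Low i)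
    (fun i : Ix n => a i * (x ^ (i.1.1 : ℕ) * y ^ (i.1.2 : ℕ)))).symm

theorem fib_sep {n H : ℕ} {T : Finset (ℤ × ℤ)} (hT : Sep n T) (c : Ix n → ℤ)
    (S : Finset (Ix n → ℤ))
    (hS : ∀ a ∈ S, (∀ i, |a i| ≤ (H : ℤ)) ∧ (∀ i, ¬ Low i → a i = c i) ∧
      ∀ P ∈ T, ev n (arr a) P.1 P.2 = 0) :
    T.card ≤ Fintype.card {i : Ix n // Low i} ∧
      S.card ≤ (2 * H + 1) ^ (Fintype.card {i : Ix n // Low i} - T.card) := by
  classical
  set A : {P // P ∈ T} → {i : Ix n // Low i} → ℤ := fun P i =>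
    P.1.1 ^ (i.1.1.1 : ℕ) * P.1.2 ^ (i.1.1.2 : ℕ) with hAdef
  have hA : ∀ l : {P // P ∈ T} → ℚ, (∀ i, ∑ t, l t * (A t i : ℚ) = 0) → ∀ t, l t = 0 := by
    intro l hl P
    obtain ⟨q, hq1, hq2, hq3⟩ := hT P.1 P.2
    have hval : ∀ Q : {P // P ∈ T}, ev n (arr q) Q.1.1 Q.1.2 = ∑ i, q i.1 * A Q i := by
      intro Q
      rw [fib_split]
      have h0 : ∑ i : {i : Ix n // ¬ Low i}, q i.1 *
          (Q.1.1 ^ (i.1.1.1 : ℕ) * Q.1.2 ^ (i.1.1.2 : ℕ)) = 0 :=
        Finset.sum_eq_zero fun i _ => by rw [hq1 i.1 i.2, zero_mul]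
      rw [h0, add_zero]
    have h1 : ∑ i, (q i.1 : ℚ) * ∑ t, l t * (A t i : ℚ) = 0 :=
      Finset.sum_eq_zero fun i _ => by rw [hl i, mul_zero]
    have h2 : ∑ t, l t * ((ev n (arr q) t.1.1 t.1.2 : ℤ) : ℚ) = 0 := by
      rw [← h1]
      simp_rw [Finset.mul_sum]
      rw [Finset.sum_comm]
      refine Finset.sum_congr rfl fun t _ => ?_
      rw [hval t]
      push_cast
      rw [Finset.mul_sum]
      refine Finset.sum_congr rfl fun i _ => ?_
      ring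
    rw [Finset.sum_eq_single P] at h2
    · have h3 : ((ev n (arr q) P.1.1 P.1.2 : ℤ) : ℚ) ≠ 0 := by exact_mod_cast hq3
      exact (mul_eq_zero.1 h2).resolve_right h3
    · intro Q _ hQ
      have h4 : Q.1 ≠ P.1 := fun h => hQ (Subtype.ext h)
      rw [hq2 Q.1 Q.2 h4]
      simp
    · intro h
      exact absurd (Finset.mem_univ P) h
  set rs : (Ix n → ℤ) → ({i : Ix n // Low i} → ℤ) := fun a i => a i.1 with hrs
  have hinj : Set.InjOn rs (S : Set (Ix n → ℤ)) := by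
    intro a ha b hb hab
    funext i
    by_cases hi : Low i
    · exact congrFun hab ⟨i, hi⟩
    · rw [(hS a ha).2.1 i hi, (hS b hb).2.1 i hi]
  have key := card_le_of_indep A hA H (fun P => -∑ i : {i : Ix n // ¬ Low i}, c i.1 *
      (P.1.1 ^ (i.1.1.1 : ℕ) * P.1.2 ^ (i.1.1.2 : ℕ))) (S.image rs) (by
    intro b hb
    obtain ⟨a, ha, rfl⟩ := Finset.mem_image.1 hb
    obtain ⟨h1, h2, h3⟩ := hS a ha
    refine ⟨fun i => h1 i.1, fun P => ?_⟩
    have h4 := h3 P.1 P.2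
    rw [fib_split] at h4
    have h5 : ∑ i : {i : Ix n // ¬ Low i}, a i.1 *
        (P.1.1 ^ (i.1.1.1 : ℕ) * P.1.2 ^ (i.1.1.2 : ℕ)) =
        ∑ i : {i : Ix n // ¬ Low i}, c i.1 *
        (P.1.1 ^ (i.1.1.1 : ℕ) * P.1.2 ^ (i.1.1.2 : ℕ)) :=
      Finset.sum_congr rfl fun i _ => by rw [h2 i.1 i.2]
    have h6 : ∑ i : {i : Ix n // Low i}, A P i * rs a i =
        ∑ i : {i : Ix n // Low i}, a i.1 *
        (P.1.1 ^ (i.1.1.1 : ℕ) * P.1.2 ^ (i.1.1.2 : ℕ)) :=
      Finset.sum_congr rfl fun i _ => by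
        simp only [hAdef, hrs]
        ring
    rw [h6, ← h5]
    linarith)
  rw [Finset.card_image_of_injOn hinj, Fintype.card_coe] at key
  exact key

/-- `S` is separated, and so is `S` with one more point -/
theorem Star.sep {n : ℕ} {S : Finset (ℤ × ℤ)} (h : Star n S) : Sep n S :=
  fun P _ => h P

/-- for `Q ∈ S` take `q_P(P) q_Q - q_Q(P) q_P` -/
theorem Star.insert {n : ℕ} {S : Finset (ℤ × ℤ)} (h : Star n S) {P : ℤ × ℤ} (hP : P ∉ S) :
    Sep n (insert P S) := by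
  obtain ⟨p, hp1, hp2, hp3⟩ := h P
  have hp2' : ∀ Q ∈ S, ev n (arr p) Q.1 Q.2 = 0 := fun Q hQ =>
    hp2 Q hQ (fun e => hP (e ▸ hQ))
  intro Q hQ
  rcases Finset.mem_insert.1 hQ with rfl | hQS
  · refine ⟨p, hp1, fun R hR hRQ => ?_, hp3⟩
    rcases Finset.mem_insert.1 hR with rfl | hRS
    · exact absurd rfl hRQ
    · exact hp2' R hRS
  · obtain ⟨q, hq1, hq2, hq3⟩ := h Q
    set α : ℤ := ev n (arr p) P.1 P.2 with hα
    set β : ℤ := ev n (arr q) P.1 P.2 with hβ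
    have hev : ∀ x y : ℤ, ev n (arr (fun i => α * q i - β * p i)) x y =
        α * ev n (arr q) x y - β * ev n (arr p) x y := by
      intro x y
      rw [ev_arr_sum, ev_arr_sum, ev_arr_sum, Finset.mul_sum, Finset.mul_sum,
        ← Finset.sum_sub_distrib]
      refine Finset.sum_congr rfl fun i _ => ?_
      ring
    refine ⟨fun i => α * q i - β * p i, fun i hi => ?_, fun R hR hRQ => ?_, ?_⟩
    · simp only [hq1 i hi, hp1 i hi, mul_zero, sub_zero]
    · rw [hev]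
      rcases Finset.mem_insert.1 hR with rfl | hRS
      · rw [← hα, ← hβ]
        ring
      · rw [hq2 R hRS hRQ, hp2' R hRS]
        ring
    · rw [hev, hp2' Q hQS, mul_zero, sub_zero]
      exact mul_ne_zero hp3 hq3

end Pool.Agent.H8.MP
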