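import Pool.Agent.H8.MP.Defs
import Pool.Agent.H8.NoPt.Asym

/-! # [MP NEAR] The root of the leading form near a point of the curve

This is the first half of the proof of `Pool.Agent.H8.NoPt.asym` (copy it: steps up to
`hδX : δ * X ≤ n * b * M`, `b = 8^n`), with `ev n F x y = 0`. `‖z0 - θ‖ ≤ n b M / X ≤ b² M / X`;
`‖θ‖ ≤ ‖z0‖ + 1 ≤ 2`; the derivative: `tc n F θ 0 1` is the derivative of `hp n F` at `θ`
(`tc_eq_eval`, `hasseDeriv_one`, `part_zero`), `‖f'(z0) - f'(θ)‖ ≤ 8^n H ‖z0 - θ‖` (`AsymAux.hpd_lip`,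
see how it is used in `asym`), `≤ H/(2M)` since `X ≥ 8^(4n) M²`. -/

namespace Pool.Agent.H8.MP

open Finset Polynomial Pool.Agent.H72.ES Pool.Agent.H8.NoPt

theorem tc_zero_one_eq (n : ℕ) (F : ℕ → ℕ → ℤ) (θ : ℂ) :
    tc n F θ 0 1 = (derivative (hp n F)).eval θ := by
  rw [AsymAux.hp_der]
  unfold tc
  simp only [Nat.sub_zero, Nat.choose_one_right, mul_assoc]

theorem near {n H : ℕ} (hn : 2 ≤ n) (hH : 1 ≤ H) {M : ℝ} (hM : 1 ≤ M) {F : ℕ → ℕ → ℤ}
    (hF : Bdd n H F) (hS : Simp n H M F) (x y : ℤ) (hv : ev n F x y = 0)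
    (hyx : |y| ≤ |x|) (hx : (8 : ℝ) ^ (4 * n) * M ^ 2 ≤ |(x : ℝ)|) :
    ∃ θ : ℂ, (hp n F).IsRoot θ ∧ ‖(y : ℂ) / x - θ‖ ≤ 8 ^ (2 * n) * M / |(x : ℝ)| ∧
      (H : ℝ) / (2 * M) ≤ ‖tc n F θ 0 1‖ ∧ ‖θ‖ ≤ 2 := by
  classical
  obtain ⟨hb1, hb2, hb3⟩ := AsymAux.sq_le_eight n hn
  set b : ℝ := 8 ^ n with hb
  have hb8 : (8 : ℝ) ≤ b := by
    rw [hb]
    calc (8 : ℝ) = 8 ^ 1 := by norm_num
      _ ≤ 8 ^ n := pow_le_pow_right₀ (by norm_num) (by omega)
  have hbb4 : (8 : ℝ) ^ (4 * n) = b ^ 4 := by rw [hb, ← pow_mul, mul_comm]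
  have hbb2 : (8 : ℝ) ^ (2 * n) = b ^ 2 := by rw [hb, ← pow_mul, mul_comm]
  rw [hbb4] at hx
  rw [hbb2]
  have hHr : (1 : ℝ) ≤ (H : ℝ) := by exact_mod_cast hH
  have hn' : (2 : ℝ) ≤ n := by exact_mod_cast hn
  set X : ℝ := |(x : ℝ)| with hX
  have hbp : 0 < b := by linarith
  have hMp : 0 < M := by linarith
  have hb43 : b ^ 3 ≤ b ^ 4 := pow_le_pow_right₀ (by linarith) (by norm_num)
  replace hx : b ^ 3 * M ^ 2 ≤ |(x : ℝ)| :=
    (mul_le_mul_of_nonneg_right hb43 (by positivity)).trans hx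
  have hb31 : (1 : ℝ) ≤ b ^ 3 := one_le_pow₀ (by linarith)
  have hM21 : (1 : ℝ) ≤ M ^ 2 := one_le_pow₀ hM
  have hX1 : 1 ≤ X := by
    calc (1 : ℝ) = 1 * 1 := by norm_num
      _ ≤ b ^ 3 * M ^ 2 := mul_le_mul hb31 hM21 (by norm_num) (by positivity)
      _ ≤ X := hx
  have hXp : 0 < X := by linarith
  have hx0 : x ≠ 0 := by
    rintro rfl
    simp at hX
    linarith
  have hxc : (x : ℂ) ≠ 0 := by exact_mod_cast hx0
  have hnx : ‖(x : ℂ)‖ = X := by rw [Complex.norm_intCast]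
  have hnx1 : 1 ≤ ‖(x : ℂ)‖ := by rw [hnx]; exact hX1
  -- the point z0
  have hyxr : |(y : ℝ)| ≤ |(x : ℝ)| := by exact_mod_cast hyx
  have hz0r : |(y : ℝ) / x| ≤ 1 := by
    rw [abs_div]
    exact div_le_one_of_le₀ hyxr (abs_nonneg _)
  set z0 : ℂ := (y : ℂ) / x with hz0
  have hz0e : (((y : ℝ) / x : ℝ) : ℂ) = z0 := by
    rw [hz0]
    push_cast
    rfl
  have hz0n : ‖z0‖ ≤ 1 := by
    rw [← hz0e, Complex.norm_real, Real.norm_eq_abs]
    exact hz0r
  set f := hp n F with hf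
  have hev := AsymAux.ev_hp n F x y hx0
  rw [← hz0] at hev
  have hevn : ‖((ev n F x y : ℤ) : ℂ)‖ ≤ H := by
    rw [hv]
    simp
  -- step 1
  have hstep1 : ‖f.eval z0‖ ≤ b * H / X := by
    rw [Finset.sum_range_succ] at hev
    obtain ⟨m, rfl⟩ : ∃ m, n = m + 1 := ⟨n - 1, by omega⟩
    have hlow := AsymAux.low_part (m := m) hF le_rfl (x : ℂ) z0 hz0n hnx1
    have h1 : (x : ℂ) ^ (m + 1) * f.eval z0 = ((ev (m + 1) F x y : ℤ) : ℂ) -
        ∑ d ∈ range (m + 1), (x : ℂ) ^ d * (hp d F).eval z0 := by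
      rw [hev]
      ring
    have h2 : X ^ (m + 1) * ‖f.eval z0‖ ≤ H + ((m + 1 : ℕ) : ℝ) ^ 2 * H * X ^ m := by
      rw [← hnx, ← norm_pow, ← norm_mul, h1]
      exact (norm_sub_le _ _).trans (add_le_add hevn hlow)
    have hXm : 1 ≤ X ^ m := one_le_pow₀ hX1
    have h3 : X ^ m * (X * ‖f.eval z0‖) ≤ X ^ m * (b * H) := by
      calc X ^ m * (X * ‖f.eval z0‖) = X ^ (m + 1) * ‖f.eval z0‖ := by ring
        _ ≤ H + ((m + 1 : ℕ) : ℝ) ^ 2 * H * X ^ m := h2
        _ ≤ H * X ^ m + ((m + 1 : ℕ) : ℝ) ^ 2 * H * X ^ m := by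
            have : (H : ℝ) * 1 ≤ H * X ^ m := by gcongr
            linarith
        _ = X ^ m * ((((m + 1 : ℕ) : ℝ) ^ 2 + 1) * H) := by ring
        _ ≤ X ^ m * (b * H) := by gcongr
    have h4 := le_of_mul_le_mul_left h3 (by positivity)
    rw [le_div_iff₀ hXp]
    linarith
  have hsimp : (H : ℝ) / M ≤ ‖(derivative f).eval z0‖ := by
    rcases hS ((y : ℝ) / x) hz0r with h | h
    · exfalso
      rw [hz0e, ← hf] at h
      have h1 := h.trans hstep1
      rw [div_le_div_iff₀ (by positivity) hXp] at h1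
      have h2 : (H : ℝ) * (b ^ 3 * M ^ 2) ≤ b * H * M ^ 2 := by
        refine le_trans ?_ h1
        gcongr
      have h3 : b < b ^ 3 := by nlinarith
      have h4 : b * H * M ^ 2 < (H : ℝ) * (b ^ 3 * M ^ 2) := by
        have : 0 < (H : ℝ) * M ^ 2 := by positivity
        nlinarith
      linarith
    · rw [hz0e, ← hf] at h
      exact h
  have hHMp : 0 < (H : ℝ) / M := by positivity
  have hder0 : (derivative f).eval z0 ≠ 0 := by
    intro h
    rw [h, norm_zero] at hsimp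
    linarith
  obtain ⟨θ, hθr, hθ⟩ := near_root f z0 hder0
  have hdeg : (f.natDegree : ℝ) ≤ n := by
    have : f.natDegree ≤ n := by
      rw [Polynomial.natDegree_le_iff_coeff_eq_zero]
      intro k hk
      rw [hf, hp, lead, Polynomial.coeff_map, finsetSum_coeff]
      simp only [coeff_C_mul_X_pow]
      rw [Finset.sum_eq_zero]
      · simp
      · intro j hj
        have := Finset.mem_range.1 hj
        rw [if_neg (by omega)]
    exact_mod_cast this
  set δ : ℝ := ‖z0 - θ‖ with hδ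
  have hδ0 : 0 ≤ δ := norm_nonneg _
  -- step 2
  have hδX : δ * X ≤ n * b * M := by
    have h1 : δ * (H / M) ≤ n * (b * H / X) :=
      calc δ * (H / M) ≤ δ * ‖(derivative f).eval z0‖ := by gcongr
        _ ≤ f.natDegree * ‖f.eval z0‖ := hθ
        _ ≤ n * (b * H / X) := by gcongr
    have h2 : δ * (H / M) * (X * M) ≤ n * (b * H / X) * (X * M) := by gcongr
    have h3 : δ * (H / M) * (X * M) = H * (δ * X) := by field_simp
    have h4 : n * (b * H / X) * (X * M) = H * (n * b * M) := by field_simp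
    rw [h3, h4] at h2
    exact le_of_mul_le_mul_left h2 (by linarith)
  have hδb : δ * (2 * b * M) ≤ 1 := by
    have h1 : δ * (b ^ 3 * M ^ 2) ≤ n * b * M := (mul_le_mul_of_nonneg_left hx hδ0).trans hδX
    have h2 : (b * M) * (δ * (b * b * M)) ≤ (b * M) * n := by nlinarith
    have h3 := le_of_mul_le_mul_left h2 (by positivity)
    have h4 : b * (δ * (2 * b * M)) ≤ b * 1 := by nlinarith
    exact le_of_mul_le_mul_left h4 hbp
  have hδ1 : δ ≤ 1 := by
    have h1 : 1 ≤ 2 * b * M := by nlinarith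
    nlinarith
  have hθ2 : ‖θ‖ ≤ 2 := by
    have h1 : θ = z0 - (z0 - θ) := by ring
    rw [h1]
    refine (norm_sub_le _ _).trans ?_
    rw [← hδ]
    linarith
  have hz02 : ‖z0‖ ≤ 2 := by linarith
  have hfθ : f.eval θ = 0 := hθr
  have hdθ : (H : ℝ) / (2 * M) ≤ ‖(derivative f).eval θ‖ := by
    have h1 := AsymAux.hpd_lip hF le_rfl z0 θ hz02 hθ2
    rw [← hf, ← hb, ← hδ] at h1
    have h2 : ‖(derivative f).eval z0‖ ≤ ‖(derivative f).eval z0 - (derivative f).eval θ‖ +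
        ‖(derivative f).eval θ‖ := by
      have := norm_add_le ((derivative f).eval z0 - (derivative f).eval θ) ((derivative f).eval θ)
      rwa [sub_add_cancel] at this
    have h3 : b * H * δ ≤ H / (2 * M) := by
      rw [le_div_iff₀ (by positivity)]
      calc b * H * δ * (2 * M) = H * (δ * (2 * b * M)) := by ring
        _ ≤ H * 1 := by gcongr
        _ = H := mul_one _
    have h4 : (H : ℝ) / M = H / (2 * M) + H / (2 * M) := by
      field_simp
      ring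
    linarith
  refine ⟨θ, hθr, ?_, ?_, hθ2⟩
  · rw [le_div_iff₀ hXp, ← hδ]
    refine hδX.trans ?_
    have h1 : (n : ℝ) ≤ b := by linarith
    calc (n : ℝ) * b * M ≤ b * b * M := by gcongr
      _ = b ^ 2 * M := by ring
  · rw [tc_zero_one_eq]
    exact hdθ

end Pool.Agent.H8.MP
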