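import Pool.Agent.H8.MP.Defs

/-! # [MP TCB] The Taylor coefficients are bounded

`tc n F θ i j = ∑_{l ≤ n-i} F (n-i-l) l C(l,j) θ^(l-j)` (for `j > l` the binomial coefficient
vanishes). `∑_j C(l,j) 2^(l-j) ≤ 3^l`, so `∑_j ‖tc i j‖ ≤ H ∑_{l ≤ n} 3^l ≤ H 3^(n+1)/2`, and
`(n+1) 3^(n+1)/2 ≤ 8^n` for `n ≥ 4`. -/

namespace Pool.Agent.H8.MP

open Finset Polynomial Pool.Agent.H72.ES Pool.Agent.H8.NoPt

private theorem tcb_binom {n l : ℕ} (hl : l ≤ n) :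
    ∑ j ∈ range (n + 1), ((l.choose j : ℝ) * 2 ^ (l - j)) = 3 ^ l := by
  have h1 : ∑ j ∈ range (l + 1), ((l.choose j : ℝ) * 2 ^ (l - j)) = 3 ^ l := by
    have h := add_pow (1 : ℝ) 2 l
    rw [show (1 : ℝ) + 2 = 3 by norm_num] at h
    rw [h]
    refine sum_congr rfl fun j _ => ?_
    rw [one_pow, one_mul, mul_comm]
  rw [← h1]
  symm
  apply sum_subset
  · intro j hj
    rw [mem_range] at hj ⊢
    omega
  · intro j _ hj
    rw [mem_range] at hj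
    rw [Nat.choose_eq_zero_of_lt (by omega)]
    simp

private theorem tcb_geom (n : ℕ) : ∑ l ∈ range (n + 1), (3 : ℝ) ^ l ≤ 3 ^ (n + 1) / 2 := by
  induction n with
  | zero => norm_num
  | succ n ih =>
    rw [sum_range_succ]
    have : (3 : ℝ) ^ (n + 1 + 1) = 3 * 3 ^ (n + 1) := by ring
    rw [this]
    linarith

private theorem tcb_num {n : ℕ} (hn : 4 ≤ n) : ((n : ℝ) + 1) * (3 ^ (n + 1) / 2) ≤ 8 ^ n := by
  induction n, hn using Nat.le_induction with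
  | base => norm_num
  | succ n hn ih =>
    have hn' : (4 : ℝ) ≤ n := by exact_mod_cast hn
    have h1 : (3 : ℝ) ^ (n + 1 + 1) = 3 * 3 ^ (n + 1) := by ring
    have h2 : (8 : ℝ) ^ (n + 1) = 8 * 8 ^ n := by ring
    rw [h1, h2]
    push_cast
    have h3 : (0 : ℝ) < 3 ^ (n + 1) := by positivity
    have h4 : ((n : ℝ) + 1 + 1) * 3 ≤ 8 * ((n : ℝ) + 1) := by linarith
    calc ((n : ℝ) + 1 + 1) * (3 * 3 ^ (n + 1) / 2) =
        (((n : ℝ) + 1 + 1) * 3) * (3 ^ (n + 1) / 2) := by ring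
      _ ≤ (8 * ((n : ℝ) + 1)) * (3 ^ (n + 1) / 2) := by gcongr
      _ = 8 * (((n : ℝ) + 1) * (3 ^ (n + 1) / 2)) := by ring
      _ ≤ 8 * 8 ^ n := by linarith

private theorem tcb_one {n H : ℕ} {F : ℕ → ℕ → ℤ} (hF : Bdd n H F) (θ : ℂ) (hθ : ‖θ‖ ≤ 2)
    (i j : ℕ) : ‖tc n F θ i j‖ ≤
      ∑ l ∈ range (n + 1 - i), (H : ℝ) * ((l.choose j : ℝ) * 2 ^ (l - j)) := by
  unfold tc
  refine (norm_sum_le _ _).trans (sum_le_sum fun l hl => ?_)
  rw [mem_range] at hl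
  rw [norm_mul, norm_mul, norm_pow, Complex.norm_natCast, Complex.norm_intCast, mul_assoc]
  have h1 : |((F (n - i - l) l : ℤ) : ℝ)| ≤ H := by
    exact_mod_cast hF (n - i - l) l (by omega)
  have h2 : ‖θ‖ ^ (l - j) ≤ 2 ^ (l - j) := pow_le_pow_left₀ (norm_nonneg _) hθ _
  gcongr

theorem tc_sum {n H : ℕ} (hn : 4 ≤ n) {F : ℕ → ℕ → ℤ} (hF : Bdd n H F) (θ : ℂ) (hθ : ‖θ‖ ≤ 2) :
    ∑ i ∈ range (n + 1), ∑ j ∈ range (n + 1), ‖tc n F θ i j‖ ≤ 8 ^ n * H := by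
  have hrow : ∀ i ∈ range (n + 1), ∑ j ∈ range (n + 1), ‖tc n F θ i j‖ ≤
      (H : ℝ) * (3 ^ (n + 1) / 2) := by
    intro i hi
    calc ∑ j ∈ range (n + 1), ‖tc n F θ i j‖
        ≤ ∑ j ∈ range (n + 1), ∑ l ∈ range (n + 1 - i),
            (H : ℝ) * ((l.choose j : ℝ) * 2 ^ (l - j)) :=
          sum_le_sum fun j _ => tcb_one hF θ hθ i j
      _ = ∑ l ∈ range (n + 1 - i), ∑ j ∈ range (n + 1),
            (H : ℝ) * ((l.choose j : ℝ) * 2 ^ (l - j)) := sum_comm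
      _ = ∑ l ∈ range (n + 1 - i), (H : ℝ) * 3 ^ l := by
          refine sum_congr rfl fun l hl => ?_
          rw [mem_range] at hl
          rw [← mul_sum, tcb_binom (by omega)]
      _ ≤ ∑ l ∈ range (n + 1), (H : ℝ) * 3 ^ l := by
          refine sum_le_sum_of_subset_of_nonneg ?_ fun _ _ _ => by positivity
          intro l hl
          rw [mem_range] at hl ⊢
          omega
      _ = (H : ℝ) * ∑ l ∈ range (n + 1), (3 : ℝ) ^ l := by rw [mul_sum]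
      _ ≤ (H : ℝ) * (3 ^ (n + 1) / 2) := by
          have := tcb_geom n
          gcongr
  calc ∑ i ∈ range (n + 1), ∑ j ∈ range (n + 1), ‖tc n F θ i j‖
      ≤ ∑ i ∈ range (n + 1), (H : ℝ) * (3 ^ (n + 1) / 2) := sum_le_sum hrow
    _ = (((n : ℝ) + 1) * (3 ^ (n + 1) / 2)) * H := by
        rw [sum_const, card_range, nsmul_eq_mul]
        push_cast
        ring
    _ ≤ 8 ^ n * H := by
        have := tcb_num hn
        gcongr

theorem tc_le {n H : ℕ} (hn : 4 ≤ n) {F : ℕ → ℕ → ℤ} (hF : Bdd n H F) (θ : ℂ) (hθ : ‖θ‖ ≤ 2)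
    {i j : ℕ} (hi : i ≤ n) (hj : j ≤ n) : ‖tc n F θ i j‖ ≤ 8 ^ n * H := by
  refine le_trans ?_ (tc_sum hn hF θ hθ)
  have h1 : ‖tc n F θ i j‖ ≤ ∑ j ∈ range (n + 1), ‖tc n F θ i j‖ :=
    single_le_sum (f := fun j => ‖tc n F θ i j‖) (fun _ _ => norm_nonneg _)
      (mem_range.2 (by omega))
  refine h1.trans ?_
  exact single_le_sum (f := fun i => ∑ j ∈ range (n + 1), ‖tc n F θ i j‖)
    (fun _ _ => sum_nonneg fun _ _ => norm_nonneg _) (mem_range.2 (by omega))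

end Pool.Agent.H8.MP
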