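import Pool.Agent.H8.MP.Alg3
import Pool.Agent.H8.MP.Near
import Pool.Agent.H8.MP.TcB

/-! # [MP ASYM] Third order asymptotics at infinity

`L = 8^(2n) M`, `A = 8^n H`. `near` gives the root `θ`, `v = y/x - θ`, `u = 1/x`, `‖v‖ ≤ L ‖u‖`,
`f1 = tc n F θ 0 1`, `‖f1‖ ≥ H/(2M)`, so `A/‖f1‖ ≤ 2 * 8^n M ≤ L`. `ev n F x y = 0` gives
`evt n (cst ℂ F) u (θ + v) = 0` (`ev = x^n evt`, see the doc of `ES.Defs`; `NoPt.AsymAux` or ES has it: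
`exp_evt_const`-like lemma, otherwise direct from the definitions) and `evt_taylor` expands it:
`∑_{i,j ≤ n} tc i j u^i v^j = 0`, `tc 0 0 = 0` (`tc_zero_zero`: `θ` is a root). Divide by `f1`:
this is `heq` of `alg3` with `a2 = tc 0 2/f1` etc. and `r = -∑_{i+j ≥ 4} tc i j u^i v^j / f1`,
`‖r‖ ≤ A/‖f1‖ (‖u‖+‖v‖)^4` because `‖u‖^i ‖v‖^j ≤ (‖u‖+‖v‖)^(i+j) ≤ (‖u‖+‖v‖)^4` as
`‖u‖+‖v‖ ≤ 1`. `2 L ‖u‖ ≤ 1`. Multiply the conclusion of `alg3` by `x`. -/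

namespace Pool.Agent.H8.MP

open Finset Polynomial Pool.Agent.H72.ES Pool.Agent.H8.NoPt

private theorem asym3_low (n : ℕ) (hn : 4 ≤ n) (G : ℕ → ℕ → ℂ) :
    ∑ i ∈ range (n + 1), ∑ j ∈ range (n + 1), G i j =
      (G 0 0 + G 0 1 + G 0 2 + G 0 3 + G 1 0 + G 1 1 + G 1 2 + G 2 0 + G 2 1 + G 3 0) +
      ∑ p ∈ (range (n + 1) ×ˢ range (n + 1)).filter (fun p => 4 ≤ p.1 + p.2), G p.1 p.2 := by
  rw [← sum_product' (range (n + 1)) (range (n + 1)) G,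
    ← sum_filter_add_sum_filter_not (range (n + 1) ×ˢ range (n + 1)) (fun p => p.1 + p.2 ≤ 3)]
  congr 1
  · have h1 : (range (n + 1) ×ˢ range (n + 1)).filter (fun p => p.1 + p.2 ≤ 3) =
        (range 4 ×ˢ range 4).filter (fun p => p.1 + p.2 ≤ 3) := by
      ext ⟨i, j⟩
      simp only [mem_filter, mem_product, mem_range]
      omega
    rw [h1, sum_filter, sum_product]
    simp [sum_range_succ]
    ring
  · refine sum_congr ?_ fun _ _ => rfl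
    ext ⟨i, j⟩
    simp only [mem_filter, mem_product, mem_range]
    omega

private theorem asym3_rest {n H : ℕ} (hn : 4 ≤ n) {F : ℕ → ℕ → ℤ} (hF : Bdd n H F) (θ u v : ℂ)
    (hθ : ‖θ‖ ≤ 2) (huv : ‖u‖ + ‖v‖ ≤ 1) :
    ‖∑ p ∈ (range (n + 1) ×ˢ range (n + 1)).filter (fun p => 4 ≤ p.1 + p.2),
      tc n F θ p.1 p.2 * u ^ p.1 * v ^ p.2‖ ≤ 8 ^ n * H * (‖u‖ + ‖v‖) ^ 4 := by
  have hu0 := norm_nonneg u
  have hv0 := norm_nonneg v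
  calc ‖∑ p ∈ (range (n + 1) ×ˢ range (n + 1)).filter (fun p => 4 ≤ p.1 + p.2),
      tc n F θ p.1 p.2 * u ^ p.1 * v ^ p.2‖
      ≤ ∑ p ∈ (range (n + 1) ×ˢ range (n + 1)).filter (fun p => 4 ≤ p.1 + p.2),
        ‖tc n F θ p.1 p.2‖ * (‖u‖ + ‖v‖) ^ 4 := by
        refine (norm_sum_le _ _).trans (sum_le_sum fun p hp => ?_)
        rw [mem_filter] at hp
        rw [norm_mul, norm_mul, norm_pow, norm_pow, mul_assoc]
        refine mul_le_mul_of_nonneg_left ?_ (norm_nonneg _)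
        have h1 : ‖u‖ ^ p.1 ≤ (‖u‖ + ‖v‖) ^ p.1 := pow_le_pow_left₀ hu0 (by linarith) _
        have h2 : ‖v‖ ^ p.2 ≤ (‖u‖ + ‖v‖) ^ p.2 := pow_le_pow_left₀ hv0 (by linarith) _
        calc ‖u‖ ^ p.1 * ‖v‖ ^ p.2 ≤ (‖u‖ + ‖v‖) ^ p.1 * (‖u‖ + ‖v‖) ^ p.2 :=
              mul_le_mul h1 h2 (by positivity) (by positivity)
          _ = (‖u‖ + ‖v‖) ^ (p.1 + p.2) := by rw [pow_add]
          _ ≤ (‖u‖ + ‖v‖) ^ 4 := pow_le_pow_of_le_one (by positivity) huv hp.2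
    _ ≤ ∑ p ∈ range (n + 1) ×ˢ range (n + 1), ‖tc n F θ p.1 p.2‖ * (‖u‖ + ‖v‖) ^ 4 :=
        sum_le_sum_of_subset_of_nonneg (filter_subset _ _) fun _ _ _ => by positivity
    _ = (∑ i ∈ range (n + 1), ∑ j ∈ range (n + 1), ‖tc n F θ i j‖) * (‖u‖ + ‖v‖) ^ 4 := by
        rw [← sum_mul, sum_product]
    _ ≤ 8 ^ n * H * (‖u‖ + ‖v‖) ^ 4 :=
        mul_le_mul_of_nonneg_right (tc_sum hn hF θ hθ) (by positivity)

private theorem asym3_evt (n : ℕ) (F : ℕ → ℕ → ℤ) (x y : ℤ) (hx : (x : ℂ) ≠ 0)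
    (h : ev n F x y = 0) (θ : ℂ) :
    ∑ i ∈ range (n + 1), ∑ j ∈ range (n + 1),
      tc n F θ i j * (1 / (x : ℂ)) ^ i * ((y : ℂ) / x - θ) ^ j = 0 := by
  rw [← evt_taylor, add_sub_cancel]
  have h2 : (y : ℂ) / x = (1 / (x : ℂ)) * y := by ring
  have h3 : ((ev n F x y : ℤ) : ℂ) = ev n (cst ℂ F) (x : ℂ) (y : ℂ) := by
    have := ev_map (Int.castRingHom ℂ) n F x y
    rw [eq_intCast, eq_intCast, eq_intCast] at this
    exact this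
  rw [h2, evt_eq_ev n (cst ℂ F) (x : ℂ) (y : ℂ) (1 / (x : ℂ)) (by field_simp), ← h3, h]
  simp

theorem asym3 {n H : ℕ} (hn : 4 ≤ n) (hH : 1 ≤ H) {M : ℝ} (hM : 1 ≤ M) {F : ℕ → ℕ → ℤ}
    (hF : Bdd n H F) (hS : Simp n H M F) (x y : ℤ) (hv : ev n F x y = 0)
    (hyx : |y| ≤ |x|) (hx : (8 : ℝ) ^ (4 * n) * M ^ 2 ≤ |(x : ℝ)|) :
    ∃ θ : ℂ, (hp n F).IsRoot θ ∧ (H : ℝ) / (2 * M) ≤ ‖tc n F θ 0 1‖ ∧ ‖θ‖ ≤ 2 ∧
      ‖de n F θ‖ ≤ 13 * (8 ^ (2 * n) * M) ^ 5 ∧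
      ‖(y : ℂ) - θ * x - be n F θ‖ ≤ 11 * (8 ^ (2 * n) * M) ^ 3 / |(x : ℝ)| ∧
      ‖(y : ℂ) - θ * x - be n F θ - ga n F θ / x - de n F θ / x ^ 2‖ ≤
        250 * (8 ^ (2 * n) * M) ^ 7 / |(x : ℝ)| ^ 3 := by
  obtain ⟨θ, hθr, hnear, hf1, hθ2⟩ := near (by omega : 2 ≤ n) hH hM hF hS x y hv hyx hx
  refine ⟨θ, hθr, hf1, hθ2, ?_⟩
  obtain ⟨b, hb⟩ : ∃ b : ℝ, b = 8 ^ n := ⟨_, rfl⟩
  have hb8 : 8 ≤ b := by
    rw [hb]
    calc (8 : ℝ) = 8 ^ 1 := by norm_num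
      _ ≤ 8 ^ n := pow_le_pow_right₀ (by norm_num) (by omega)
  have hb2n : (8 : ℝ) ^ (2 * n) = b ^ 2 := by rw [hb, ← pow_mul, mul_comm]
  have hb4n : (8 : ℝ) ^ (4 * n) = b ^ 4 := by rw [hb, ← pow_mul, mul_comm]
  rw [hb2n] at hnear ⊢
  rw [hb4n] at hx
  obtain ⟨L, hL⟩ : ∃ L : ℝ, L = b ^ 2 * M := ⟨_, rfl⟩
  have hHr : (1 : ℝ) ≤ (H : ℝ) := by exact_mod_cast hH
  have hb2 : 64 ≤ b ^ 2 := by nlinarith
  have hL64 : 64 ≤ L := by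
    rw [hL]
    nlinarith
  have hL1 : 1 ≤ L := by linarith
  obtain ⟨X, hX⟩ : ∃ X : ℝ, X = |(x : ℝ)| := ⟨_, rfl⟩
  rw [← hX] at hx hnear ⊢
  rw [← hL] at hnear ⊢
  have hLX : L ^ 2 ≤ X := by
    refine le_trans (le_of_eq ?_) hx
    rw [hL]
    ring
  have hLX2 : 2 * L ≤ X := by nlinarith
  have hXp : 0 < X := by linarith
  have hx0 : x ≠ 0 := by
    rintro rfl
    simp at hX
    linarith
  have hxc : (x : ℂ) ≠ 0 := by exact_mod_cast hx0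
  have hnx : ‖(x : ℂ)‖ = X := by rw [Complex.norm_intCast, hX]
  obtain ⟨u, hu⟩ : ∃ u : ℂ, u = 1 / (x : ℂ) := ⟨_, rfl⟩
  obtain ⟨v, hvv⟩ : ∃ v : ℂ, v = (y : ℂ) / x - θ := ⟨_, rfl⟩
  have hun : ‖u‖ = 1 / X := by rw [hu, norm_div, norm_one, hnx]
  have hvn : ‖v‖ ≤ L * ‖u‖ := by
    rw [hun, hvv]
    refine hnear.trans (le_of_eq ?_)
    ring
  have hus : 2 * L * ‖u‖ ≤ 1 := by
    rw [hun, mul_one_div, div_le_one hXp]
    exact hLX2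
  have hu0 := norm_nonneg u
  have huL : ‖u‖ ≤ L * ‖u‖ := by nlinarith
  have huv : ‖u‖ + ‖v‖ ≤ 1 := by nlinarith
  have hsum := asym3_evt n F x y hxc hv θ
  rw [← hu, ← hvv, asym3_low n hn (fun i j => tc n F θ i j * u ^ i * v ^ j)] at hsum
  have hrest := asym3_rest hn hF θ u v hθ2 huv
  obtain ⟨S, hS'⟩ : ∃ S, S = ∑ p ∈ (range (n + 1) ×ˢ range (n + 1)).filter
    (fun p => 4 ≤ p.1 + p.2), tc n F θ p.1 p.2 * u ^ p.1 * v ^ p.2 := ⟨_, rfl⟩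
  rw [← hS', ← hb] at hrest
  rw [← hS'] at hsum
  have h00 : tc n F θ 0 0 = 0 := by
    rw [tc_zero_zero]
    have h1 : (hp n F).eval θ = 0 := hθr
    rw [hp, eval_map] at h1
    rw [aeval_def, algebraMap_int_eq]
    exact h1
  obtain ⟨f1, hf1e⟩ : ∃ f1, f1 = tc n F θ 0 1 := ⟨_, rfl⟩
  have hf1' := hf1
  rw [← hf1e] at hf1'
  have hHM : (0 : ℝ) < H / (2 * M) := by positivity
  have hf1p : 0 < ‖f1‖ := lt_of_lt_of_le hHM hf1'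
  have hf10 : f1 ≠ 0 := norm_pos_iff.1 hf1p
  have hAf : b * H / ‖f1‖ ≤ L := by
    rw [div_le_iff₀ hf1p, hL]
    have h1 : b ^ 2 * M * (H / (2 * M)) ≤ b ^ 2 * M * ‖f1‖ := by
      refine mul_le_mul_of_nonneg_left hf1' (by positivity)
    refine le_trans ?_ h1
    have h2 : b ^ 2 * M * (H / (2 * M)) = b * (b / 2) * H := by
      field_simp
    rw [h2]
    have h3 : b * 1 ≤ b * (b / 2) := mul_le_mul_of_nonneg_left (by linarith) (by linarith)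
    have h4 := mul_le_mul_of_nonneg_right h3 (by linarith : (0 : ℝ) ≤ H)
    linarith
  have hc : ∀ i j : ℕ, i ≤ n → j ≤ n → ‖tc n F θ i j / f1‖ ≤ L := by
    intro i j hi hj
    rw [norm_div]
    refine le_trans ?_ hAf
    have h1 := tc_le hn hF θ hθ2 hi hj
    rw [← hb] at h1
    gcongr
  have hr : ‖-S / f1‖ ≤ L * (‖u‖ + ‖v‖) ^ 4 := by
    rw [norm_div, norm_neg]
    calc ‖S‖ / ‖f1‖ ≤ (b * H * (‖u‖ + ‖v‖) ^ 4) / ‖f1‖ := by gcongr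
      _ = b * H / ‖f1‖ * (‖u‖ + ‖v‖) ^ 4 := by ring
      _ ≤ L * (‖u‖ + ‖v‖) ^ 4 := by gcongr
  have hmain := alg3 L hL1 (tc n F θ 0 2 / f1) (tc n F θ 0 3 / f1) (tc n F θ 1 0 / f1)
    (tc n F θ 1 1 / f1) (tc n F θ 1 2 / f1) (tc n F θ 2 0 / f1) (tc n F θ 2 1 / f1)
    (tc n F θ 3 0 / f1) (-S / f1) u v (be n F θ) (ga n F θ) (de n F θ)
    (hc _ _ (by omega) (by omega)) (hc _ _ (by omega) (by omega)) (hc _ _ (by omega) (by omega))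
    (hc _ _ (by omega) (by omega)) (hc _ _ (by omega) (by omega)) (hc _ _ (by omega) (by omega))
    (hc _ _ (by omega) (by omega)) (hc _ _ (by omega) (by omega)) hr hvn hus
    (by
      simp only [pow_zero, pow_one, mul_one] at hsum
      rw [h00, ← hf1e] at hsum
      field_simp
      linear_combination hsum)
    (by
      unfold be
      rw [← hf1e]
      ring)
    (by
      unfold ga
      rw [← hf1e]
      ring)
    (by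
      unfold de
      rw [← hf1e]
      ring)
  obtain ⟨_, _, m3, m4, m5⟩ := hmain
  refine ⟨m3, ?_, ?_⟩
  · have e : (y : ℂ) - θ * x - be n F θ = x * (v - be n F θ * u) := by
      rw [hvv, hu]
      field_simp
    rw [e, norm_mul, hnx]
    refine (mul_le_mul_of_nonneg_left m4 hXp.le).trans (le_of_eq ?_)
    rw [hun]
    field_simp
  · have e : (y : ℂ) - θ * x - be n F θ - ga n F θ / x - de n F θ / x ^ 2 =
        x * (v - be n F θ * u - ga n F θ * u ^ 2 - de n F θ * u ^ 3) := by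
      rw [hvv, hu]
      field_simp
    rw [e, norm_mul, hnx]
    refine (mul_le_mul_of_nonneg_left m5 hXp.le).trans (le_of_eq ?_)
    rw [hun]
    field_simp

end Pool.Agent.H8.MP
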