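import Pool.Agent.H8.MP.Three

/-! # [MP COL] Few collinear integer points near a curved branch in one window

`U` finite set of integer points with `x ∈ [X, 2X]` or all `x ∈ [-2X, -X]` (`|x| ∈ [X, 2X]`), all
collinear, near the branch, distinct points have distinct `x` (`hinj`). If `U` is empty trivial;
otherwise let `x1` be the least and `x3` the largest first coordinate. If `x1 = x3` then
`#U ≤ 1`. Otherwise by `three_col` every `x2` satisfies `(x2-x1)(x3-x2) ≤ B := 32 K/‖γ‖`, so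
`x2 - x1 ≤ √B` or `x3 - x2 ≤ √B`: at most `2 (√B + 1)` values. -/

namespace Pool.Agent.H8.MP

private theorem col_side (s : ℝ) (hs : 0 ≤ s) (U : Finset (ℤ × ℤ)) (m : ℤ)
    (h1 : ∀ P ∈ U, m ≤ P.1) (h2 : ∀ P ∈ U, (P.1 : ℝ) - m ≤ s)
    (hinj : ∀ P ∈ U, ∀ Q ∈ U, P.1 = Q.1 → P = Q) : (U.card : ℝ) ≤ s + 1 := by
  have hf : 0 ≤ ⌊s⌋ := Int.floor_nonneg.2 hs
  have hc : U.card ≤ (Finset.Icc m (m + ⌊s⌋)).card := by
    apply Finset.card_le_card_of_injOn (fun P => P.1)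
    · intro P hP
      rw [Finset.mem_coe] at hP
      rw [Finset.mem_coe, Finset.mem_Icc]
      refine ⟨h1 P hP, ?_⟩
      change P.1 ≤ m + ⌊s⌋
      have : P.1 - m ≤ ⌊s⌋ := by
        rw [Int.le_floor]
        push_cast
        exact h2 P hP
      omega
    · intro P hP Q hQ h
      exact hinj P hP Q hQ h
  rw [Int.card_Icc] at hc
  have h3 : ((m + ⌊s⌋ + 1 - m).toNat : ℝ) = (⌊s⌋ : ℝ) + 1 := by
    have h4 : (((m + ⌊s⌋ + 1 - m).toNat : ℕ) : ℤ) = ⌊s⌋ + 1 := by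
      rw [Int.toNat_of_nonneg (by omega)]
      ring
    have h5 := congrArg (fun z : ℤ => (z : ℝ)) h4
    push_cast at h5
    exact h5
  calc (U.card : ℝ) ≤ ((m + ⌊s⌋ + 1 - m).toNat : ℝ) := by exact_mod_cast hc
    _ = (⌊s⌋ : ℝ) + 1 := h3
    _ ≤ s + 1 := by
        have := Int.floor_le s
        linarith

private theorem col_side' (s : ℝ) (hs : 0 ≤ s) (U : Finset (ℤ × ℤ)) (m : ℤ)
    (h1 : ∀ P ∈ U, P.1 ≤ m) (h2 : ∀ P ∈ U, (m : ℝ) - P.1 ≤ s)
    (hinj : ∀ P ∈ U, ∀ Q ∈ U, P.1 = Q.1 → P = Q) : (U.card : ℝ) ≤ s + 1 := by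
  have hf : 0 ≤ ⌊s⌋ := Int.floor_nonneg.2 hs
  have hc : U.card ≤ (Finset.Icc (m - ⌊s⌋) m).card := by
    apply Finset.card_le_card_of_injOn (fun P => P.1)
    · intro P hP
      rw [Finset.mem_coe] at hP
      rw [Finset.mem_coe, Finset.mem_Icc]
      refine ⟨?_, h1 P hP⟩
      change m - ⌊s⌋ ≤ P.1
      have : m - P.1 ≤ ⌊s⌋ := by
        rw [Int.le_floor]
        push_cast
        exact h2 P hP
      omega
    · intro P hP Q hQ h
      exact hinj P hP Q hQ h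
  rw [Int.card_Icc] at hc
  have h3 : ((m + 1 - (m - ⌊s⌋)).toNat : ℝ) = (⌊s⌋ : ℝ) + 1 := by
    have h4 : (((m + 1 - (m - ⌊s⌋)).toNat : ℕ) : ℤ) = ⌊s⌋ + 1 := by
      rw [Int.toNat_of_nonneg (by omega)]
      ring
    have h5 := congrArg (fun z : ℤ => (z : ℝ)) h4
    push_cast at h5
    exact h5
  calc (U.card : ℝ) ≤ ((m + 1 - (m - ⌊s⌋)).toNat : ℝ) := by exact_mod_cast hc
    _ = (⌊s⌋ : ℝ) + 1 := h3
    _ ≤ s + 1 := by
        have := Int.floor_le s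
        linarith

theorem col_count (θ β γ δ : ℂ) (K X : ℝ) (hX : 0 < X) (hK : 0 ≤ K) (hγ : 0 < ‖γ‖)
    (U : Finset (ℤ × ℤ)) (hU : ∀ P ∈ U, X ≤ |(P.1 : ℝ)| ∧ |(P.1 : ℝ)| ≤ 2 * X)
    (hE : ∀ P ∈ U, ‖(P.2 : ℂ) - θ * P.1 - β - γ / P.1 - δ / P.1 ^ 2‖ ≤ K / X ^ 3)
    (hδ : 6 * ‖δ‖ ≤ ‖γ‖ * X)
    (hcol : ∀ P ∈ U, ∀ Q ∈ U, ∀ R ∈ U, (Q.1 - P.1) * (R.2 - P.2) = (R.1 - P.1) * (Q.2 - P.2))
    (hinj : ∀ P ∈ U, ∀ Q ∈ U, P.1 = Q.1 → P = Q) :
    (U.card : ℝ) ≤ 2 * (Real.sqrt (32 * K / ‖γ‖) + 1) := by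
  classical
  obtain ⟨s, hs⟩ : ∃ s : ℝ, s = Real.sqrt (32 * K / ‖γ‖) := ⟨_, rfl⟩
  rw [← hs]
  have hs0 : 0 ≤ s := by rw [hs]; exact Real.sqrt_nonneg _
  have hss : s ^ 2 = 32 * K / ‖γ‖ := by
    rw [hs]; exact Real.sq_sqrt (by positivity)
  rcases U.eq_empty_or_nonempty with hemp | hne
  · rw [hemp, Finset.card_empty]
    push_cast
    positivity
  · obtain ⟨P1, hP1, hmin⟩ := U.exists_min_image (fun P => P.1) hne
    obtain ⟨P3, hP3, hmax⟩ := U.exists_max_image (fun P => P.1) hne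
    rcases eq_or_lt_of_le (hmin P3 hP3) with heq | hlt
    · have hc : U.card ≤ 1 := by
        rw [Finset.card_le_one]
        intro P hP Q hQ
        apply hinj P hP Q hQ
        have a1 := hmin P hP
        have a2 := hmax P hP
        have a3 := hmin Q hQ
        have a4 := hmax Q hQ
        omega
      have hc' : (U.card : ℝ) ≤ 1 := by exact_mod_cast hc
      linarith
    · have key : ∀ P ∈ U, (P.1 : ℝ) - P1.1 ≤ s ∨ (P3.1 : ℝ) - P.1 ≤ s := by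
        intro P hP
        have h := three_col θ β γ δ K X hX hK P1.1 P.1 P3.1 P1.2 P.2 P3.2 (hU P1 hP1) (hU P hP)
          (hU P3 hP3) (hE P1 hP1) (hE P hP) (hE P3 hP3) hδ (hcol P1 hP1 P hP P3 hP3) hlt
          (hmin P hP) (hmax P hP)
        by_contra hcon
        push Not at hcon
        have h1 : s * s < ((P.1 : ℝ) - P1.1) * ((P3.1 : ℝ) - P.1) :=
          mul_lt_mul'' hcon.1 hcon.2 hs0 hs0
        have h2 : ‖γ‖ * (s * s) < ‖γ‖ * (((P.1 : ℝ) - P1.1) * ((P3.1 : ℝ) - P.1)) :=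
          mul_lt_mul_of_pos_left h1 hγ
        have h3 : ‖γ‖ * (s * s) = 32 * K := by
          rw [← sq, hss]
          field_simp
        linarith
      have hA := col_side s hs0 (U.filter (fun P => (P.1 : ℝ) - P1.1 ≤ s)) P1.1
        (fun P hP => hmin P (Finset.mem_filter.1 hP).1) (fun P hP => (Finset.mem_filter.1 hP).2)
        (fun P hP Q hQ => hinj P (Finset.mem_filter.1 hP).1 Q (Finset.mem_filter.1 hQ).1)
      have hB := col_side' s hs0 (U.filter (fun P => (P3.1 : ℝ) - P.1 ≤ s)) P3.1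
        (fun P hP => hmax P (Finset.mem_filter.1 hP).1) (fun P hP => (Finset.mem_filter.1 hP).2)
        (fun P hP Q hQ => hinj P (Finset.mem_filter.1 hP).1 Q (Finset.mem_filter.1 hQ).1)
      have hsub : U ⊆ U.filter (fun P => (P.1 : ℝ) - P1.1 ≤ s) ∪
          U.filter (fun P => (P3.1 : ℝ) - P.1 ≤ s) := by
        intro P hP
        rw [Finset.mem_union, Finset.mem_filter, Finset.mem_filter]
        rcases key P hP with h | h
        · exact Or.inl ⟨hP, h⟩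
        · exact Or.inr ⟨hP, h⟩
      have hcard : (U.card : ℝ) ≤ ((U.filter (fun P => (P.1 : ℝ) - P1.1 ≤ s)).card : ℝ) +
          ((U.filter (fun P => (P3.1 : ℝ) - P.1 ≤ s)).card : ℝ) := by
        exact_mod_cast (Finset.card_le_card hsub).trans (Finset.card_union_le _ _)
      linarith

end Pool.Agent.H8.MP
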