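import Pool.Agent.H8.MP.Asym3
import Pool.Agent.H8.MP.Col
import Pool.Agent.H8.NoPt.Mid

/-! # [MP MID] Few candidates in the middle range

Same structure as `Pool.Agent.H8.NoPt.mid_count` (copy its proof; the classes are
(root `θ`, sign of `x`, window number)). `L = 8^(2n) M`, `c = 8^(7n)`, `η = 1/(4 c M³)`.
* For `P ∈ S` with its curve `F` (`Bdd`, `Top4 n F G`): `hp n F = hp n G`, `tc n F θ i j =
  tc n G θ i j` for `i ≤ 3` (so `be, ga, de` agree) and `Simp n H M F`; `asym3` applied to `F`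
  gives the root `θ` of `hp n G` (`‖θ‖ ≤ 2`, `‖tc n G θ 0 1‖ ≥ H/(2M) > 0`) and the two estimates
  with `be, ga, de` of `G`.
* `ga = -flexv/(tc 0 1)³` (`flexv = tc20 tc01² - tc11 tc01 tc10 + tc02 tc10²`), so
  `‖ga‖ ≥ 1/M²` by `Gam` (`ga_lower` with `M²`).
* In one class all `x` have one sign and lie in `[X, (1+η) X]`, `X ≥ 8^(12n) M⁷`. Three points are
  collinear by `col_of_close` (`E = 11 L³/X ≤ c M³/X`, length `η X`). Equal `x` gives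
  `|y - y'| ≤ 2E < 1`, so `hinj`. `6‖de‖ ≤ 78 L⁵ ≤ X/M² ≤ ‖ga‖ X`. `col_count` with `K = 250 L⁷`:
  at most `2 (√(8000 L⁷ M²) + 1) ≤ 8^(9n) M⁵` points (`8000 L⁷ M² ≤ (8^(8n) M^5)²`, `n ≥ 4`).
* number of classes `≤ n * 2 * (8 c M³ log Y + 1) ≤ 16 n c M³ (1 + log Y)`, `16 n ≤ 8^n`.
  Total `≤ 8^(17n) M⁸ (1 + log Y)`. -/

namespace Pool.Agent.H8.MP

open Finset Polynomial Pool.Agent.H72.ES Pool.Agent.H8.NoPt

theorem hp_top4 {n : ℕ} (_hn : 4 ≤ n) {F G : ℕ → ℕ → ℤ} (h : Top4 n F G) : hp n F = hp n G := by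
  unfold hp
  rw [lead_congr (fun i j hij => h i j (by omega) (by omega))]

theorem tc_top4 {n : ℕ} (_hn : 4 ≤ n) {F G : ℕ → ℕ → ℤ} (h : Top4 n F G) (θ : ℂ) {i j : ℕ}
    (hi : i ≤ 3) : tc n F θ i j = tc n G θ i j := by
  unfold tc
  refine sum_congr rfl fun l hl => ?_
  rw [mem_range] at hl
  rw [h (n - i - l) l (by omega) (by omega)]

theorem bgd_top4 {n : ℕ} (hn : 4 ≤ n) {F G : ℕ → ℕ → ℤ} (h : Top4 n F G) (θ : ℂ) :
    be n F θ = be n G θ ∧ ga n F θ = ga n G θ ∧ de n F θ = de n G θ := by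
  unfold de ga be
  simp only [tc_top4 hn h θ (show 0 ≤ 3 by norm_num), tc_top4 hn h θ (show 1 ≤ 3 by norm_num),
    tc_top4 hn h θ (show 2 ≤ 3 by norm_num), tc_top4 hn h θ (show 3 ≤ 3 by norm_num), and_self]

theorem ga_lower {n : ℕ} {M : ℝ} (hM : 1 ≤ M) {G : ℕ → ℕ → ℤ} (hG : Gam n M G) (θ : ℂ)
    (hθ : (hp n G).IsRoot θ) (h1 : tc n G θ 0 1 ≠ 0) (h2 : ‖θ‖ ≤ 2) : 1 / M ≤ ‖ga n G θ‖ := by
  have hf := (hG θ hθ h1).2 h2
  have hg : ga n G θ * tc n G θ 0 1 ^ 3 = - flexv n G θ := by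
    unfold ga be flexv
    field_simp
    ring
  have hn : ‖ga n G θ‖ * ‖tc n G θ 0 1‖ ^ 3 = ‖flexv n G θ‖ := by
    rw [← norm_pow, ← norm_mul, hg, norm_neg]
  have hpos : 0 < ‖tc n G θ 0 1‖ ^ 3 := pow_pos (norm_pos_iff.2 h1) 3
  rw [← hn] at hf
  have hM0 : 0 < M := by linarith
  refine le_of_mul_le_mul_right ?_ hpos
  calc 1 / M * ‖tc n G θ 0 1‖ ^ 3 = ‖tc n G θ 0 1‖ ^ 3 / M := by ring
    _ ≤ _ := hf

/-- the data attached to a candidate -/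
theorem mid3_asym {n H : ℕ} (hn : 4 ≤ n) (hH : 1 ≤ H) {M : ℝ} (hM : 1 ≤ M) {G : ℕ → ℕ → ℤ}
    (hS : Simp n H M G) (P : ℤ × ℤ) (hC : Cand n H G P) (hyx : |P.2| ≤ |P.1|)
    (hx : (8 : ℝ) ^ (12 * n) * M ^ 7 ≤ |(P.1 : ℝ)|) :
    ∃ θ : ℂ, (hp n G).IsRoot θ ∧ (H : ℝ) / (2 * M) ≤ ‖tc n G θ 0 1‖ ∧ ‖θ‖ ≤ 2 ∧
      ‖de n G θ‖ ≤ 13 * (8 ^ (2 * n) * M) ^ 5 ∧
      ‖(P.2 : ℂ) - θ * P.1 - be n G θ‖ ≤ 11 * (8 ^ (2 * n) * M) ^ 3 / |(P.1 : ℝ)| ∧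
      ‖(P.2 : ℂ) - θ * P.1 - be n G θ - ga n G θ / P.1 - de n G θ / P.1 ^ 2‖ ≤
        250 * (8 ^ (2 * n) * M) ^ 7 / |(P.1 : ℝ)| ^ 3 := by
  obtain ⟨F, hF, hT, hv⟩ := hC
  have hx' : (8 : ℝ) ^ (4 * n) * M ^ 2 ≤ |(P.1 : ℝ)| := by
    refine le_trans ?_ hx
    have h1 : (8 : ℝ) ^ (4 * n) ≤ 8 ^ (12 * n) := pow_le_pow_right₀ (by norm_num) (by omega)
    have h2 : M ^ 2 ≤ M ^ 7 := pow_le_pow_right₀ hM (by norm_num)
    exact mul_le_mul h1 h2 (by positivity) (by positivity)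
  have hS' : Simp n H M F := hS.congr (fun i j hij => (hT i j (by omega) (by omega)).symm)
  obtain ⟨θ, h1, h2, h3, h4, h5, h6⟩ := asym3 hn hH hM hF hS' P.1 P.2 hv hyx hx'
  obtain ⟨e1, e2, e3⟩ := bgd_top4 hn hT θ
  refine ⟨θ, ?_, ?_, h3, ?_, ?_, ?_⟩
  · rw [← hp_top4 hn hT]
    exact h1
  · rw [← tc_top4 hn hT θ (show 0 ≤ 3 by norm_num)]
    exact h2
  · rw [← e3]
    exact h4
  · rw [← e1]
    exact h5
  · rw [← e1, ← e2, ← e3]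
    exact h6

theorem mid3_pow {n : ℕ} (hn : 4 ≤ n) : (4096 : ℝ) ≤ 8 ^ n := by
  calc (4096 : ℝ) = 8 ^ 4 := by norm_num
    _ ≤ 8 ^ n := pow_le_pow_right₀ (by norm_num) hn

/-- the points of one class -/
theorem mid3_class {n H : ℕ} (hn : 4 ≤ n) (hH : 1 ≤ H) {M : ℝ} (hM : 1 ≤ M) {G : ℕ → ℕ → ℤ}
    (hG : Gam n (M ^ 2) G) (θ : ℂ) (X η : ℝ) (hX : 0 < X)
    (hη : η = 1 / (4 * (8 ^ (7 * n) * M ^ 3))) (hη1 : η ≤ 1) (U : Finset (ℤ × ℤ))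
    (hU : ∀ P ∈ U, (8 : ℝ) ^ (12 * n) * M ^ 7 ≤ |(P.1 : ℝ)| ∧ X ≤ |(P.1 : ℝ)| ∧
      |(P.1 : ℝ)| ≤ X * (1 + η))
    (hdiff : ∀ A ∈ U, ∀ B ∈ U, |(A.1 : ℝ) - B.1| ≤ η * X)
    (hdat : ∀ P ∈ U, (hp n G).IsRoot θ ∧ (H : ℝ) / (2 * M) ≤ ‖tc n G θ 0 1‖ ∧ ‖θ‖ ≤ 2 ∧
      ‖de n G θ‖ ≤ 13 * (8 ^ (2 * n) * M) ^ 5 ∧
      ‖(P.2 : ℂ) - θ * P.1 - be n G θ‖ ≤ 11 * (8 ^ (2 * n) * M) ^ 3 / |(P.1 : ℝ)| ∧
      ‖(P.2 : ℂ) - θ * P.1 - be n G θ - ga n G θ / P.1 - de n G θ / P.1 ^ 2‖ ≤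
        250 * (8 ^ (2 * n) * M) ^ 7 / |(P.1 : ℝ)| ^ 3) :
    (U.card : ℝ) ≤ 8 ^ (9 * n) * M ^ 5 := by
  rcases U.eq_empty_or_nonempty with h0 | ⟨P₀, hP₀⟩
  · rw [h0, card_empty, Nat.cast_zero]
    positivity
  have hM0 : 0 < M := by linarith
  have h8 := mid3_pow hn
  have h80 : (0 : ℝ) < 8 ^ n := by positivity
  have hη0 : 0 < η := by rw [hη]; positivity
  obtain ⟨hroot, htc, hθ2, hde, -, -⟩ := hdat P₀ hP₀
  obtain ⟨hlow, hX1, hX2⟩ := hU P₀ hP₀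
  have hXlow : (8 : ℝ) ^ (12 * n) * M ^ 7 ≤ 2 * X := by
    refine (hlow.trans hX2).trans ?_
    nlinarith
  have hH1 : (1 : ℝ) ≤ H := by exact_mod_cast hH
  have htc0 : tc n G θ 0 1 ≠ 0 := by
    intro h
    rw [h, norm_zero] at htc
    have : 0 < (H : ℝ) / (2 * M) := by positivity
    linarith
  have hga : 1 / M ^ 2 ≤ ‖ga n G θ‖ := ga_lower (one_le_pow₀ hM) hG θ hroot htc0 hθ2
  have hga0 : 0 < ‖ga n G θ‖ := lt_of_lt_of_le (by positivity) hga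
  -- the error `E`
  have h11 : (11 : ℝ) * (8 ^ (2 * n) * M) ^ 3 ≤ 8 ^ (7 * n) * M ^ 3 := by
    have e1 : (8 : ℝ) ^ (7 * n) = 8 ^ n * (8 ^ (2 * n)) ^ 3 := by
      rw [← pow_mul, ← pow_add]; congr 1; ring
    rw [e1, mul_pow]
    have : 0 ≤ ((8 : ℝ) ^ (2 * n)) ^ 3 * M ^ 3 := by positivity
    nlinarith
  have hclose : ∀ A ∈ U, ‖(A.2 : ℂ) - θ * A.1 - be n G θ‖ ≤ 8 ^ (7 * n) * M ^ 3 / X := by
    intro A hA
    obtain ⟨-, -, -, -, h5, -⟩ := hdat A hA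
    refine h5.trans ?_
    exact div_le_div₀ (by positivity) h11 hX (hU A hA).2.1
  have hcol : ∀ P ∈ U, ∀ Q ∈ U, ∀ R ∈ U,
      (Q.1 - P.1) * (R.2 - P.2) = (R.1 - P.1) * (Q.2 - P.2) := by
    intro P hP Q hQ R hR
    refine col_of_close θ (be n G θ) (8 ^ (7 * n) * M ^ 3 / X) (η * X) (by positivity) ?_ P Q R
      (hclose P hP) (hclose Q hQ) (hclose R hR) (hdiff P hP Q hQ) (hdiff P hP R hR)
      (hdiff Q hQ R hR)
    have : (8 : ℝ) ^ (7 * n) * M ^ 3 / X * (η * X) = 1 / 4 := by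
      rw [hη]
      field_simp
    rw [this]
    norm_num
  -- equal first coordinates
  have h22 : 2 * (8 ^ (7 * n) * M ^ 3 / X) < 1 := by
    rw [mul_div_assoc', div_lt_one hX]
    have e1 : (8 : ℝ) ^ (12 * n) = (8 ^ n) ^ 5 * 8 ^ (7 * n) := by
      rw [← pow_mul, ← pow_add]; congr 1; ring
    have e2 : (8 : ℝ) ≤ (8 ^ n) ^ 5 := by
      calc (8 : ℝ) ≤ 8 ^ n := by linarith
        _ = (8 ^ n) ^ 1 := (pow_one _).symm
        _ ≤ (8 ^ n) ^ 5 := pow_le_pow_right₀ (by linarith) (by norm_num)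
    have e3 : M ^ 3 ≤ M ^ 7 := pow_le_pow_right₀ hM (by norm_num)
    have e4 : (8 : ℝ) * (8 ^ (7 * n) * M ^ 3) ≤ 8 ^ (12 * n) * M ^ 7 := by
      rw [e1]
      calc (8 : ℝ) * (8 ^ (7 * n) * M ^ 3) ≤ (8 ^ n) ^ 5 * (8 ^ (7 * n) * M ^ 7) := by
            gcongr
        _ = _ := by ring
    have e5 : (0 : ℝ) < 8 ^ (7 * n) * M ^ 3 := by positivity
    linarith
  have hinj : ∀ P ∈ U, ∀ Q ∈ U, P.1 = Q.1 → P = Q := by
    intro P hP Q hQ hPQ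
    have a1 := hclose P hP
    have a2 := hclose Q hQ
    have a3 : ‖((P.2 - Q.2 : ℤ) : ℂ)‖ < 1 := by
      have e : ((P.2 - Q.2 : ℤ) : ℂ) = ((P.2 : ℂ) - θ * P.1 - be n G θ) -
          ((Q.2 : ℂ) - θ * Q.1 - be n G θ) := by
        rw [hPQ]
        push_cast
        ring
      rw [e]
      refine (norm_sub_le _ _).trans_lt ?_
      linarith
    have a4 : |((P.2 - Q.2 : ℤ) : ℝ)| < 1 := by
      rw [← Complex.ofReal_intCast, Complex.norm_real, Real.norm_eq_abs] at a3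
      exact a3
    have a5 : |P.2 - Q.2| < 1 := by exact_mod_cast a4
    have a6 : P.2 - Q.2 = 0 := Int.abs_lt_one_iff.mp a5
    exact Prod.ext hPQ (by omega)
  have hdelta : 6 * ‖de n G θ‖ ≤ ‖ga n G θ‖ * X := by
    have e1 : (8 : ℝ) ^ (12 * n) = 8 ^ (2 * n) * (8 ^ (2 * n)) ^ 5 := by
      rw [← pow_mul, ← pow_add]; congr 1; ring
    have e2 : (156 : ℝ) ≤ 8 ^ (2 * n) := by
      calc (156 : ℝ) ≤ 8 ^ n := by linarith
        _ ≤ 8 ^ (2 * n) := pow_le_pow_right₀ (by norm_num) (by omega)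
    have e3 : 78 * (8 ^ (2 * n) * M) ^ 5 ≤ X / M ^ 2 := by
      rw [le_div_iff₀ (by positivity)]
      have e4 : 156 * ((8 ^ (2 * n)) ^ 5 * M ^ 7) ≤ 8 ^ (12 * n) * M ^ 7 := by
        rw [e1]
        calc (156 : ℝ) * ((8 ^ (2 * n)) ^ 5 * M ^ 7) ≤
            8 ^ (2 * n) * ((8 ^ (2 * n)) ^ 5 * M ^ 7) := by gcongr
          _ = _ := by ring
      have e5 : 78 * (8 ^ (2 * n) * M) ^ 5 * M ^ 2 * 2 = 156 * ((8 ^ (2 * n)) ^ 5 * M ^ 7) := by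
        ring
      linarith
    calc 6 * ‖de n G θ‖ ≤ 6 * (13 * (8 ^ (2 * n) * M) ^ 5) := by gcongr
      _ = 78 * (8 ^ (2 * n) * M) ^ 5 := by ring
      _ ≤ X / M ^ 2 := e3
      _ = 1 / M ^ 2 * X := by ring
      _ ≤ ‖ga n G θ‖ * X := by gcongr
  have hmain := col_count θ (be n G θ) (ga n G θ) (de n G θ) (250 * (8 ^ (2 * n) * M) ^ 7) X hX
    (by positivity) hga0 U (fun P hP => ⟨(hU P hP).2.1, (hU P hP).2.2.trans (by nlinarith)⟩)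
    (fun P hP => by
      refine (hdat P hP).2.2.2.2.2.trans ?_
      have := (hU P hP).2.1
      gcongr) hdelta hcol hinj
  refine hmain.trans ?_
  have hsq : Real.sqrt (32 * (250 * (8 ^ (2 * n) * M) ^ 7) / ‖ga n G θ‖) ≤ 8 ^ (8 * n) * M ^ 5 := by
    apply Real.sqrt_le_iff.2
    refine ⟨by positivity, ?_⟩
    rw [div_le_iff₀ hga0]
    have e1 : ((8 : ℝ) ^ (8 * n) * M ^ 5) ^ 2 = 8 ^ (2 * n) * ((8 ^ (2 * n)) ^ 7 * M ^ 10) := by
      rw [mul_pow, ← pow_mul, ← pow_mul, ← pow_mul, ← mul_assoc, ← pow_add]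
      congr 2
      ring
    have e2 : (8000 : ℝ) ≤ 8 ^ (2 * n) := by
      calc (8000 : ℝ) ≤ 8 ^ 8 := by norm_num
        _ ≤ 8 ^ (2 * n) := pow_le_pow_right₀ (by norm_num) (by omega)
    have e3 : M ^ 9 ≤ M ^ 10 := pow_le_pow_right₀ hM (by norm_num)
    calc 32 * (250 * (8 ^ (2 * n) * M) ^ 7) =
          (8000 * ((8 ^ (2 * n)) ^ 7 * M ^ 9)) * (1 / M ^ 2) := by
          field_simp
          ring
      _ ≤ (8 ^ (2 * n) * ((8 ^ (2 * n)) ^ 7 * M ^ 10)) * (1 / M ^ 2) := by gcongr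
      _ ≤ ((8 : ℝ) ^ (8 * n) * M ^ 5) ^ 2 * ‖ga n G θ‖ := by
          rw [e1]
          gcongr
  have h9 : (8 : ℝ) ^ (9 * n) = 8 ^ n * 8 ^ (8 * n) := by
    rw [← pow_add]; congr 1; ring
  have h1 : (1 : ℝ) ≤ 8 ^ (8 * n) * M ^ 5 := by
    have e1 : (1 : ℝ) ≤ 8 ^ (8 * n) := one_le_pow₀ (by norm_num)
    have e2 : (1 : ℝ) ≤ M ^ 5 := one_le_pow₀ hM
    nlinarith
  calc 2 * (Real.sqrt (32 * (250 * (8 ^ (2 * n) * M) ^ 7) / ‖ga n G θ‖) + 1)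
      ≤ 2 * (8 ^ (8 * n) * M ^ 5 + 8 ^ (8 * n) * M ^ 5) := by gcongr
    _ = 4 * (8 ^ (8 * n) * M ^ 5) := by ring
    _ ≤ 8 ^ n * (8 ^ (8 * n) * M ^ 5) := by
        gcongr
        linarith
    _ = 8 ^ (9 * n) * M ^ 5 := by rw [h9]; ring

theorem mid3 {n H : ℕ} (hn : 4 ≤ n) (hH : 1 ≤ H) {M : ℝ} (hM : 1 ≤ M) {G : ℕ → ℕ → ℤ}
    (hS : Simp n H M G) (hG : Gam n (M ^ 2) G) (hNZ : NZ n G) (Y : ℝ) (hY : 1 ≤ Y)
    (S : Finset (ℤ × ℤ))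
    (hP : ∀ P ∈ S, Cand n H G P ∧ |P.2| ≤ |P.1| ∧
      (8 : ℝ) ^ (12 * n) * M ^ 7 ≤ |(P.1 : ℝ)| ∧ |(P.1 : ℝ)| ≤ Y) :
    (S.card : ℝ) ≤ 8 ^ (17 * n) * M ^ 8 * (1 + Real.log Y) := by
  classical
  set c : ℝ := (8 : ℝ) ^ (7 * n) with hc
  have hc1 : 1 ≤ c := one_le_pow₀ (by norm_num)
  have hM3 : 1 ≤ M ^ 3 := one_le_pow₀ hM
  have hcM : 1 ≤ c * M ^ 3 := by nlinarith
  set η : ℝ := 1 / (4 * (c * M ^ 3)) with hη
  have hη0 : 0 < η := by positivity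
  have hη1 : η ≤ 1 := by
    rw [hη, div_le_one (by positivity)]; linarith
  set ℓ : ℝ := Real.log (1 + η) with hℓ
  have hℓ0 : η / 2 ≤ ℓ := by
    have h1 := Real.one_sub_inv_le_log_of_pos (show 0 < 1 + η by positivity)
    have h2 : η / 2 ≤ 1 - (1 + η)⁻¹ := by
      have : 1 - (1 + η)⁻¹ = η / (1 + η) := by field_simp; ring
      rw [this]
      exact div_le_div_of_nonneg_left hη0.le (by positivity) (by linarith)
    linarith
  have hℓpos : 0 < ℓ := by linarith [half_pos hη0]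
  -- the root attached to a point
  have hasym : ∀ P ∈ S, ∃ θ : ℂ, (hp n G).IsRoot θ ∧ (H : ℝ) / (2 * M) ≤ ‖tc n G θ 0 1‖ ∧
      ‖θ‖ ≤ 2 ∧ ‖de n G θ‖ ≤ 13 * (8 ^ (2 * n) * M) ^ 5 ∧
      ‖(P.2 : ℂ) - θ * P.1 - be n G θ‖ ≤ 11 * (8 ^ (2 * n) * M) ^ 3 / |(P.1 : ℝ)| ∧
      ‖(P.2 : ℂ) - θ * P.1 - be n G θ - ga n G θ / P.1 - de n G θ / P.1 ^ 2‖ ≤
        250 * (8 ^ (2 * n) * M) ^ 7 / |(P.1 : ℝ)| ^ 3 := fun P hPS =>
    mid3_asym hn hH hM hS P (hP P hPS).1 (hP P hPS).2.1 (hP P hPS).2.2.1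
  choose! θ hθ using hasym
  have hxpos : ∀ P ∈ S, 1 ≤ |(P.1 : ℝ)| := by
    intro P hPS
    have h1 := (hP P hPS).2.2.1
    have h2 : (1 : ℝ) ≤ (8 : ℝ) ^ (12 * n) := one_le_pow₀ (by norm_num)
    have h3 : 1 ≤ M ^ 7 := one_le_pow₀ hM
    nlinarith
  set K : ℕ := ⌊Real.log Y / ℓ⌋₊ with hK
  set key : ℤ × ℤ → ℂ × Bool × ℕ := fun P =>
    (θ P, decide (0 ≤ P.1), ⌊Real.log |(P.1 : ℝ)| / ℓ⌋₊) with hkey
  set T : Finset (ℂ × Bool × ℕ) :=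
    (hp n G).roots.toFinset ×ˢ ((univ : Finset Bool) ×ˢ range (K + 1)) with hT
  have hmaps : ∀ P ∈ S, key P ∈ T := by
    intro P hPS
    rw [hT, mem_product, mem_product]
    refine ⟨?_, mem_univ _, ?_⟩
    · rw [Multiset.mem_toFinset, mem_roots (hp_ne_zero hNZ)]
      exact (hθ P hPS).1
    · rw [mem_range, Nat.lt_succ_iff]
      apply Nat.floor_le_floor
      apply div_le_div_of_nonneg_right _ hℓpos.le
      exact Real.log_le_log (by linarith [hxpos P hPS]) (hP P hPS).2.2.2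
  have hfib : ∀ k ∈ T, (((S.filter fun P => key P = k).card : ℕ) : ℝ) ≤ 8 ^ (9 * n) * M ^ 5 := by
    intro k _
    set U := S.filter fun P => key P = k with hU
    have hfac : ∀ R ∈ U, R ∈ S ∧ θ R = k.1 ∧ (decide (0 ≤ R.1)) = k.2.1 ∧
        (1 + η) ^ k.2.2 ≤ |(R.1 : ℝ)| ∧ |(R.1 : ℝ)| ≤ (1 + η) ^ k.2.2 * (1 + η) := by
      intro R hR
      rw [hU, mem_filter] at hR
      obtain ⟨hRS, hRk⟩ := hR
      have e1 : θ R = k.1 := by rw [← hRk]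
      have e2 : (decide (0 ≤ R.1)) = k.2.1 := by rw [← hRk]
      have e3 : ⌊Real.log |(R.1 : ℝ)| / ℓ⌋₊ = k.2.2 := by rw [← hRk]
      have hx1 := hxpos R hRS
      have hx0 : 0 < |(R.1 : ℝ)| := by linarith
      have hlog0 : 0 ≤ Real.log |(R.1 : ℝ)| := Real.log_nonneg hx1
      refine ⟨hRS, e1, e2, ?_, ?_⟩
      · have h1 : (k.2.2 : ℝ) ≤ Real.log |(R.1 : ℝ)| / ℓ := by
          rw [← e3]; exact Nat.floor_le (div_nonneg hlog0 hℓpos.le)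
        rw [le_div_iff₀ hℓpos] at h1
        rw [← Real.log_le_log_iff (by positivity) hx0, Real.log_pow]
        exact h1
      · have h1 : Real.log |(R.1 : ℝ)| / ℓ < (k.2.2 : ℝ) + 1 := by
          rw [← e3]; exact Nat.lt_floor_add_one _
        rw [div_lt_iff₀ hℓpos] at h1
        rw [← Real.log_le_log_iff hx0 (by positivity), ← pow_succ, Real.log_pow]
        push_cast
        exact h1.le
    set X : ℝ := (1 + η) ^ k.2.2 with hX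
    have hX0 : 0 < X := by positivity
    have hdiff : ∀ A ∈ U, ∀ B ∈ U, |(A.1 : ℝ) - B.1| ≤ η * X := by
      intro A hA B hB
      obtain ⟨_, _, sA, lA, uA⟩ := hfac A hA
      obtain ⟨_, _, sB, lB, uB⟩ := hfac B hB
      by_cases h0 : 0 ≤ A.1
      · have h0' : 0 ≤ B.1 := by
          have : decide (0 ≤ B.1) = true := by rw [sB, ← sA]; exact decide_eq_true h0
          exact of_decide_eq_true this
        have hA0 : (0 : ℝ) ≤ A.1 := by exact_mod_cast h0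
        have hB0 : (0 : ℝ) ≤ B.1 := by exact_mod_cast h0'
        rw [abs_of_nonneg hA0] at lA uA
        rw [abs_of_nonneg hB0] at lB uB
        rw [abs_le]
        constructor <;> nlinarith
      · have h0' : ¬ 0 ≤ B.1 := by
          intro hB0
          have : decide (0 ≤ A.1) = true := by rw [sA, ← sB]; exact decide_eq_true hB0
          exact h0 (of_decide_eq_true this)
        push Not at h0 h0'
        have hA0 : (A.1 : ℝ) < 0 := by exact_mod_cast h0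
        have hB0 : (B.1 : ℝ) < 0 := by exact_mod_cast h0'
        rw [abs_of_neg hA0] at lA uA
        rw [abs_of_neg hB0] at lB uB
        rw [abs_le]
        constructor <;> nlinarith
    refine mid3_class hn hH hM hG k.1 X η hX0 hη hη1 U ?_ hdiff ?_
    · intro A hA
      obtain ⟨hAS, _, _, lA, uA⟩ := hfac A hA
      exact ⟨(hP A hAS).2.2.1, lA, uA⟩
    · intro A hA
      obtain ⟨hAS, tA, _, _, _⟩ := hfac A hA
      have h1 := hθ A hAS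
      rw [tA] at h1
      exact h1
  have hsum : (S.card : ℝ) ≤ (T.card : ℝ) * (8 ^ (9 * n) * M ^ 5) := by
    rw [card_eq_sum_card_fiberwise hmaps, Nat.cast_sum]
    refine (sum_le_sum hfib).trans ?_
    rw [sum_const, nsmul_eq_mul]
  have hlY : 0 ≤ Real.log Y := Real.log_nonneg hY
  have hTcard : (T.card : ℝ) ≤ n * (2 * (8 * (c * M ^ 3) * Real.log Y + 1)) := by
    rw [hT, card_product, card_product, card_range, card_univ, Fintype.card_bool]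
    push_cast
    have h1 : ((hp n G).roots.toFinset.card : ℝ) ≤ n := by
      have : (hp n G).roots.toFinset.card ≤ n :=
        (Multiset.toFinset_card_le _).trans ((card_roots' _).trans (hp_natDegree_le n G))
      exact_mod_cast this
    have h2 : (K : ℝ) ≤ 8 * (c * M ^ 3) * Real.log Y := by
      have h3 : (K : ℝ) ≤ Real.log Y / ℓ := Nat.floor_le (div_nonneg hlY hℓpos.le)
      refine h3.trans ?_
      rw [div_le_iff₀ hℓpos]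
      have h4 : 1 ≤ 8 * (c * M ^ 3) * ℓ := by
        have : 8 * (c * M ^ 3) * (η / 2) = 1 := by
          rw [hη]
          have : c * M ^ 3 ≠ 0 := by positivity
          field_simp; norm_num
        rw [← this]
        gcongr
      nlinarith
    have h5 : (0 : ℝ) ≤ (K : ℝ) := Nat.cast_nonneg _
    gcongr
  have h16 : 16 * (n : ℝ) ≤ 8 ^ n := by
    have : ∀ m : ℕ, 4 ≤ m → 16 * m ≤ 8 ^ m := by
      intro m hm
      induction m, hm using Nat.le_induction with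
      | base => norm_num
      | succ k hk ih =>
        have : 8 ^ (k + 1) = 8 * 8 ^ k := by ring
        rw [this]; nlinarith
    exact_mod_cast this n hn
  calc (S.card : ℝ) ≤ (T.card : ℝ) * (8 ^ (9 * n) * M ^ 5) := hsum
    _ ≤ (n * (2 * (8 * (c * M ^ 3) * Real.log Y + 1))) * (8 ^ (9 * n) * M ^ 5) := by gcongr
    _ ≤ (n * (2 * (8 * (c * M ^ 3) * (1 + Real.log Y)))) * (8 ^ (9 * n) * M ^ 5) := by
        gcongr
        nlinarith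
    _ = (16 * (n : ℝ)) * (c * 8 ^ (9 * n)) * M ^ 8 * (1 + Real.log Y) := by ring
    _ ≤ 8 ^ n * (c * 8 ^ (9 * n)) * M ^ 8 * (1 + Real.log Y) := by gcongr
    _ = 8 ^ (17 * n) * M ^ 8 * (1 + Real.log Y) := by
        rw [hc, ← pow_add, ← pow_add]; congr 3; ring

end Pool.Agent.H8.MP
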