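import Pool.Agent.H8.MP.TcB
import Pool.Agent.H8.NoPt.Fiber

/-! # [MP GAMC] Few vectors violate `Gam`

Fix all coordinates except the one with index `(n-2, 0)`, value `b` (`fiber_count` with
`p i := i = ix n (n-2) 0 _`). `b` enters only `tc n F θ 2 0 = b + rest`. The roots `θ` of `hp n F`
(at most `n`, if `hp n F ≠ 0`; if some `tc n F θ 0 1 ≠ 0` then `hp n F ≠ 0`) do not depend on `b`.
`flexv = tc01² (b + ρ(θ))`, `ρ` independent of `b`. If `Gam` fails there is a root `θ` with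
`tc01 ≠ 0` and either `b + ρ = 0` or (`‖θ‖ ≤ 2` and `‖b + ρ‖ < ‖tc01‖/M ≤ 8^n H/M`, by `tc_le`):
in both cases `|b + Re ρ| ≤ 8^n H/M`: at most `n (2 * 8^n H/M + 1) ≤ n (2 * 8^n + 1) H/M` values of
`b` (`card_int_ball`). `n (2 * 8^n + 1) ≤ 8^(3n)`. For the transposed version reduce to the first
one by the permutation `σ (i,j) = (j,i)` of the indices as in `simp_count_tr` (`SimpC.lean`). -/

namespace Pool.Agent.H8.MP

open Finset Polynomial Pool.Agent.H72.ES Pool.Agent.H8.NoPt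

/-- the coefficient with index `(n-2, 0)` enters only the Taylor coefficient `(2, 0)` -/
theorem gamc_tc (n : ℕ) (hn : 4 ≤ n) (F G : ℕ → ℕ → ℤ)
    (h : ∀ i j, ¬ (i = n - 2 ∧ j = 0) → F i j = G i j) (θ : ℂ) (i j : ℕ) :
    tc n F θ i j = tc n G θ i j +
      (if i = 2 ∧ j = 0 then ((F (n - 2) 0 : ℂ) - (G (n - 2) 0 : ℂ)) else 0) := by
  by_cases hi : i = 2
  · subst hi
    by_cases hj : j = 0
    · subst hj
      rw [if_pos ⟨rfl, rfl⟩]
      unfold tc
      have h1 : n + 1 - 2 = (n - 2) + 1 := by omega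
      rw [h1, sum_range_succ', sum_range_succ']
      have h2 : ∀ l ∈ range (n - 2), (F (n - 2 - (l + 1)) (l + 1) : ℂ) * ((l + 1).choose 0 : ℂ) *
          θ ^ (l + 1 - 0) = (G (n - 2 - (l + 1)) (l + 1) : ℂ) * ((l + 1).choose 0 : ℂ) *
          θ ^ (l + 1 - 0) := by
        intro l _
        rw [h _ _ (by omega)]
      rw [sum_congr rfl h2]
      simp only [Nat.sub_zero, Nat.choose_self, Nat.cast_one, mul_one, pow_zero]
      ring
    · rw [if_neg (by tauto), add_zero]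
      unfold tc
      refine sum_congr rfl fun l _ => ?_
      rcases Nat.eq_zero_or_pos l with rfl | hl
      · rw [Nat.choose_eq_zero_of_lt (Nat.pos_of_ne_zero hj)]
        simp
      · rw [h _ _ (by omega)]
  · rw [if_neg (by tauto), add_zero]
    unfold tc
    refine sum_congr rfl fun l hl => ?_
    rw [mem_range] at hl
    rw [h _ _ (by omega)]

theorem gamc_hp (n : ℕ) (hn : 4 ≤ n) (F G : ℕ → ℕ → ℤ)
    (h : ∀ i j, ¬ (i = n - 2 ∧ j = 0) → F i j = G i j) : hp n F = hp n G := by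
  unfold hp lead
  congr 1
  refine sum_congr rfl fun l _ => ?_
  rw [h _ _ (by omega)]

theorem gamc_flexv (n : ℕ) (hn : 4 ≤ n) (F G : ℕ → ℕ → ℤ)
    (h : ∀ i j, ¬ (i = n - 2 ∧ j = 0) → F i j = G i j) (θ : ℂ) :
    flexv n F θ = flexv n G θ +
      ((F (n - 2) 0 : ℂ) - (G (n - 2) 0 : ℂ)) * tc n G θ 0 1 ^ 2 := by
  unfold flexv
  rw [gamc_tc n hn F G h θ 2 0, gamc_tc n hn F G h θ 0 1, gamc_tc n hn F G h θ 1 1,
    gamc_tc n hn F G h θ 1 0, gamc_tc n hn F G h θ 0 2]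
  simp only [and_self, if_true, OfNat.zero_ne_ofNat, OfNat.one_ne_ofNat, false_and, if_false,
    add_zero]
  ring

theorem gamc_deriv (n : ℕ) (F : ℕ → ℕ → ℤ) (θ : ℂ) :
    tc n F θ 0 1 = (derivative (hp n F)).eval θ := by
  rw [tc_zero_one, hp, derivative_map, eval_map, aeval_def]
  rfl

/-- number of roots -/
theorem gamc_roots (n : ℕ) (F : ℕ → ℕ → ℤ) : ((hp n F).roots.toFinset.card : ℝ) ≤ n := by
  have h1 : (hp n F).natDegree ≤ n := by
    unfold hp
    refine (natDegree_map_le).trans ?_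
    unfold lead
    refine natDegree_sum_le_of_forall_le _ _ fun j hj => ?_
    refine (natDegree_C_mul_X_pow_le _ _).trans ?_
    rw [mem_range] at hj
    omega
  have h2 := (Multiset.toFinset_card_le (hp n F).roots).trans ((hp n F).card_roots'.trans h1)
  exact_mod_cast h2

/-- one fibre -/
theorem gamc_fiber (n : ℕ) (hn : 4 ≤ n) (H : ℕ) (M : ℝ) (hM : 1 ≤ M)
    (S : Finset (Ix n → ℤ)) (hS : ∀ a ∈ S, (∀ i, |a i| ≤ (H : ℤ)) ∧ ¬ Gam n M (arr a))
    (c : Ix n → ℤ) (hc : ∀ i, |c i| ≤ (H : ℤ)) (T : Finset (Ix n → ℤ))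
    (hT : ∀ a ∈ T, a ∈ S ∧ ∀ i, ¬ i = ix n (n - 2) 0 (by omega) → a i = c i) :
    (T.card : ℝ) ≤ n * (2 * (8 ^ n * H / M) + 1) := by
  classical
  have hM0 : 0 < M := by linarith
  obtain ⟨i₀, hi₀⟩ : ∃ i₀ : Ix n, i₀ = ix n (n - 2) 0 (by omega) :=
    ⟨ix n (n - 2) 0 (by omega), rfl⟩
  replace hT : ∀ a ∈ T, a ∈ S ∧ ∀ i, ¬ i = i₀ → a i = c i := by
    intro a ha
    refine ⟨(hT a ha).1, fun i hi => (hT a ha).2 i fun h => hi ?_⟩
    rw [hi₀]
    exact h
  have hr : 0 ≤ 8 ^ n * (H : ℝ) / M := by positivity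
  have hagree : ∀ a ∈ T, ∀ i j, ¬ (i = n - 2 ∧ j = 0) → arr a i j = arr c i j := by
    intro a ha i j hij
    unfold arr
    by_cases h : i + j ≤ n
    · rw [dif_pos h, dif_pos h]
      apply (hT a ha).2
      rw [hi₀]
      intro h1
      have h2 := congrArg (fun q : Ix n => (q.1.1 : ℕ)) h1
      have h3 := congrArg (fun q : Ix n => (q.1.2 : ℕ)) h1
      exact hij ⟨h2, h3⟩
    · rw [dif_neg h, dif_neg h]
  have harr : ∀ a : Ix n → ℤ, arr a (n - 2) 0 = a i₀ := by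
    intro a
    unfold arr
    rw [dif_pos (by omega), hi₀]
  have hbdd : Bdd n H (arr c) := by
    intro i j hij
    unfold arr
    rw [dif_pos hij]
    exact hc _
  have hinj : T.card = (T.image (fun a => a i₀)).card := by
    symm
    apply Finset.card_image_of_injOn
    intro a ha a' ha' hv
    funext i
    by_cases hi : i = i₀
    · rw [hi]
      exact hv
    · rw [(hT a ha).2 i hi, (hT a' ha').2 i hi]
  obtain ⟨ρ, hρ⟩ : ∃ ρ : ℂ → ℝ, ∀ θ, ρ θ =
      (flexv n (arr c) θ / tc n (arr c) θ 0 1 ^ 2 - (c i₀ : ℂ)).re := ⟨_, fun _ => rfl⟩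
  have hcov : T.image (fun a => a i₀) ⊆ (hp n (arr c)).roots.toFinset.biUnion
      (fun θ => (T.image (fun a => a i₀)).filter
        (fun v : ℤ => |(v : ℝ) - (- ρ θ)| ≤ 8 ^ n * (H : ℝ) / M)) := by
    intro v hv
    obtain ⟨a, ha, hav⟩ := Finset.mem_image.1 hv
    have hng := (hS a (hT a ha).1).2
    unfold Gam at hng
    push Not at hng
    obtain ⟨θ, hθr, hθ1, hθ2⟩ := hng
    have hag := hagree a ha
    have h01 : tc n (arr a) θ 0 1 = tc n (arr c) θ 0 1 := by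
      rw [gamc_tc n hn _ _ hag θ 0 1, if_neg (by omega), add_zero]
    rw [h01] at hθ1 hθ2
    rw [gamc_hp n hn _ _ hag] at hθr
    have hne : hp n (arr c) ≠ 0 := by
      intro h0
      apply hθ1
      rw [gamc_deriv, h0]
      simp
    have hfl := gamc_flexv n hn _ _ hag θ
    rw [harr, harr] at hfl
    have hav' : a i₀ = v := hav
    rw [hav'] at hfl
    have hfac : flexv n (arr a) θ = tc n (arr c) θ 0 1 ^ 2 *
        ((v : ℂ) + (flexv n (arr c) θ / tc n (arr c) θ 0 1 ^ 2 - (c i₀ : ℂ))) := by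
      rw [hfl]
      field_simp
      ring
    have hre : |(v : ℝ) - (- ρ θ)| ≤
        ‖(v : ℂ) + (flexv n (arr c) θ / tc n (arr c) θ 0 1 ^ 2 - (c i₀ : ℂ))‖ := by
      have h2 := Complex.abs_re_le_norm
        ((v : ℂ) + (flexv n (arr c) θ / tc n (arr c) θ 0 1 ^ 2 - (c i₀ : ℂ)))
      rw [Complex.add_re, ← hρ θ] at h2
      have h3 : ((v : ℂ)).re = (v : ℝ) := by simp
      rw [h3] at h2
      rw [sub_neg_eq_add]
      exact h2
    rw [mem_biUnion]
    refine ⟨θ, ?_, ?_⟩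
    · rw [Multiset.mem_toFinset, mem_roots hne]
      exact hθr
    · rw [mem_filter]
      refine ⟨hv, hre.trans ?_⟩
      by_cases hz : flexv n (arr a) θ = 0
      · rw [hfac] at hz
        rw [(mul_eq_zero.1 hz).resolve_left (pow_ne_zero 2 hθ1), norm_zero]
        exact hr
      · obtain ⟨h4, h5⟩ := hθ2 hz
        rw [hfac, norm_mul, norm_pow] at h5
        have h6 : 0 < ‖tc n (arr c) θ 0 1‖ := norm_pos_iff.2 hθ1
        have h7 := tc_le hn hbdd θ h4 (i := 0) (j := 1) (by omega) (by omega)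
        have h8 : ‖tc n (arr c) θ 0 1‖ ^ 3 / M =
            ‖tc n (arr c) θ 0 1‖ ^ 2 * (‖tc n (arr c) θ 0 1‖ / M) := by ring
        rw [h8] at h5
        have h9 := (lt_of_mul_lt_mul_left h5 (by positivity)).le
        refine h9.trans ?_
        gcongr
  rw [hinj]
  calc ((T.image (fun a => a i₀)).card : ℝ)
      ≤ (((hp n (arr c)).roots.toFinset.biUnion
      (fun θ => (T.image (fun a => a i₀)).filter
        (fun v : ℤ => |(v : ℝ) - (- ρ θ)| ≤ 8 ^ n * (H : ℝ) / M))).card : ℝ) := by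
        exact_mod_cast Finset.card_le_card hcov
    _ ≤ ∑ θ ∈ (hp n (arr c)).roots.toFinset, (((T.image (fun a => a i₀)).filter
        (fun v : ℤ => |(v : ℝ) - (- ρ θ)| ≤ 8 ^ n * (H : ℝ) / M)).card : ℝ) := by
        exact_mod_cast Finset.card_biUnion_le
    _ ≤ ∑ θ ∈ (hp n (arr c)).roots.toFinset, (2 * (8 ^ n * H / M) + 1) := by
        refine sum_le_sum fun θ _ => ?_
        refine card_int_ball _ (- ρ θ) _ hr fun v hv => ?_
        exact (mem_filter.1 hv).2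
    _ = ((hp n (arr c)).roots.toFinset.card : ℝ) * (2 * (8 ^ n * H / M) + 1) := by
        rw [sum_const, nsmul_eq_mul]
    _ ≤ _ := by
        have := gamc_roots n (arr c)
        gcongr

theorem gam_count (n : ℕ) (hn : 4 ≤ n) (H : ℕ) (M : ℝ) (hM : 1 ≤ M) (hMH : M ≤ H)
    (S : Finset (Ix n → ℤ)) (hS : ∀ a ∈ S, (∀ i, |a i| ≤ (H : ℤ)) ∧ ¬ Gam n M (arr a)) :
    (S.card : ℝ) ≤ 8 ^ (3 * n) * (2 * H + 1 : ℝ) ^ (Fintype.card (Ix n)) / M := by
  classical
  have hM0 : 0 < M := by linarith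
  have hr : 0 ≤ 8 ^ n * (H : ℝ) / M := by positivity
  have key := fiber_count (fun i : Ix n => i = ix n (n - 2) 0 (by omega)) H S
    (fun a ha => (hS a ha).1) (n * (2 * (8 ^ n * H / M) + 1)) (by positivity)
    (fun c hc T hT => gamc_fiber n hn H M hM S hS c hc T hT)
  have hcard : Fintype.card {i : Ix n // ¬ (i = ix n (n - 2) 0 (by omega))} + 1 =
      Fintype.card (Ix n) := by
    have h1 := Fintype.card_subtype_compl (fun i : Ix n => i = ix n (n - 2) 0 (by omega))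
    have h2 : Fintype.card {i : Ix n // i = ix n (n - 2) 0 (by omega)} = 1 := by
      rw [Fintype.card_eq_one_iff]
      exact ⟨⟨ix n (n - 2) 0 (by omega), rfl⟩, fun y => Subtype.ext y.2⟩
    have h3 : Fintype.card {i : Ix n // i = ix n (n - 2) 0 (by omega)} ≤ Fintype.card (Ix n) :=
      Fintype.card_subtype_le _
    rw [h1]
    omega
  refine key.trans ?_
  obtain ⟨E, hE⟩ : ∃ E : ℕ, E = Fintype.card {i : Ix n // ¬ (i = ix n (n - 2) 0 (by omega))} :=
    ⟨_, rfl⟩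
  rw [← hE] at hcard ⊢
  rw [← hcard, pow_succ]
  have hX : (0 : ℝ) ≤ (2 * H + 1) ^ E := by positivity
  have hb8 : (8 : ℝ) ≤ 8 ^ n := by
    calc (8 : ℝ) = 8 ^ 1 := by norm_num
      _ ≤ 8 ^ n := pow_le_pow_right₀ (by norm_num) (by omega)
  have hnb : (n : ℝ) ≤ 8 ^ n := by
    have h1 : n < 8 ^ n := Nat.lt_pow_self (by norm_num)
    exact_mod_cast h1.le
  have hq : 1 ≤ (H : ℝ) / M := by
    rw [le_div_iff₀ hM0]
    linarith
  have e2 : (8 : ℝ) ^ (3 * n) = 8 ^ n * (8 ^ n * 8 ^ n) := by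
    rw [← pow_add, ← pow_add]
    congr 1
    ring
  rw [e2]
  obtain ⟨b, hb⟩ : ∃ b : ℝ, b = 8 ^ n := ⟨_, rfl⟩
  rw [← hb] at hb8 hnb ⊢
  have h5 : (n : ℝ) * (2 * (b * H / M) + 1) ≤ b * (b * b) * (H / M) := by
    have h6 : 2 * (b * H / M) + 1 ≤ (2 * b + 1) * (H / M) := by
      have : b * H / M = b * (H / M) := by ring
      rw [this]
      nlinarith
    calc (n : ℝ) * (2 * (b * H / M) + 1) ≤ b * ((2 * b + 1) * (H / M)) := by
          have : 0 ≤ 2 * (b * H / M) + 1 := by positivity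
          gcongr
      _ ≤ b * ((b * b) * (H / M)) := by
          have : 2 * b + 1 ≤ b * b := by nlinarith
          gcongr
      _ = _ := by ring
  calc (n : ℝ) * (2 * (b * H / M) + 1) * (2 * H + 1) ^ E
      ≤ b * (b * b) * (H / M) * (2 * H + 1) ^ E := by gcongr
    _ ≤ b * (b * b) * ((2 * H + 1) / M) * (2 * H + 1) ^ E := by
        gcongr
        have : (0 : ℝ) ≤ H := Nat.cast_nonneg H
        linarith
    _ = _ := by ring

theorem gam_count_tr (n : ℕ) (hn : 4 ≤ n) (H : ℕ) (M : ℝ) (hM : 1 ≤ M) (hMH : M ≤ H)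
    (S : Finset (Ix n → ℤ)) (hS : ∀ a ∈ S, (∀ i, |a i| ≤ (H : ℤ)) ∧ ¬ Gam n M (tr (arr a))) :
    (S.card : ℝ) ≤ 8 ^ (3 * n) * (2 * H + 1 : ℝ) ^ (Fintype.card (Ix n)) / M := by
  classical
  let σ : Ix n → Ix n := fun q => ⟨(q.1.2, q.1.1), by
    have := q.2
    show (q.1.2 : ℕ) + (q.1.1 : ℕ) ≤ n
    omega⟩
  have hσ : ∀ q, σ (σ q) = q := fun q => rfl
  have harr : ∀ a : Ix n → ℤ, arr (fun q => a (σ q)) = tr (arr a) := by
    intro a
    funext i j
    unfold tr arr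
    by_cases h : i + j ≤ n
    · rw [dif_pos h, dif_pos (by omega)]; rfl
    · rw [dif_neg h, dif_neg (by omega)]
  have hinj : Function.Injective (fun (a : Ix n → ℤ) (q : Ix n) => a (σ q)) := by
    intro a a' h
    funext q
    have := congrFun h (σ q)
    simpa [hσ] using this
  have h1 := gam_count n hn H M hM hMH (S.image (fun (a : Ix n → ℤ) (q : Ix n) => a (σ q))) ?_
  · rwa [Finset.card_image_of_injective _ hinj] at h1
  · intro a' ha'
    obtain ⟨a, ha, rfl⟩ := Finset.mem_image.1 ha'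
    refine ⟨fun i => (hS a ha).1 _, ?_⟩
    rw [harr]
    exact (hS a ha).2

end Pool.Agent.H8.MP
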