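import Pool.Agent.H8.MP.CandC
import Pool.Agent.H8.MP.GamC
import Pool.Agent.H8.MP.FibS
import Pool.Agent.H8.NoPt.SimpC
import Pool.Agent.H8.NoPt.IrrC

/-! # [MP VEC] Assembly for vectors

`N = card (Ix n)`, `D = card {i // Low i}`, `s = #S`, `K = 2H+1`, `M = H^(1/16)`; `H ≥ 2` (for
`H = 1` take `C` large, trivial bound `K^N ≤ 3^N`, or bound `Z` by `fib_sep`).
`top a` = restriction of `a` to the indices that are not low.
(1) `atyp_tops`: the set of `top`s of box vectors with `¬ Typ` has at most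
`C M⁻² K^(N-D)` elements: the property `Typ n H M (arr a)` depends only on `top a` (`typ_congr`),
so #(atypical tops) K^D = #(atypical box vectors) ≤ (2 simp + irr + 2 gam counts)
`≤ C K^N / M²` (`simp_count`, `simp_count_tr`, `irr_count`, `gam_count`, `gam_count_tr`).
(2) vectors of `Z` with an atypical top: at most `C M⁻² K^(N-D) K^(D-s)` (`fib_sep`, `T = S`).
(3) vectors of `Z` with a given typical top: the points `P ∉ S` on them are `Cand` of any of them,
so there are at most `C (M^14 + M^8 log H)` different ones (choose one for each vector; the set of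
chosen points is a finite set of candidates), and for each `P` at most `K^(D-s-1)` vectors
(`fib_sep`, `T = insert P S`). In total `K^(N-D) C (M^14+M^8 log H) K^(D-s-1)`.
(4) `M^14 + M^8 log H ≤ C H^(7/8)`, so everything is `≤ C H^(-1/8) K^(N-s)`. -/

namespace Pool.Agent.H8.MP

open Finset Polynomial Pool.Agent.H72.ES Pool.Agent.H8.NoPt

theorem top4_arr {n : ℕ} {a b : Ix n → ℤ} (h : ∀ i, ¬ Low i → a i = b i) :
    Top4 n (arr a) (arr b) := by
  intro i j h1 h2
  unfold arr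
  rw [dif_pos h1, dif_pos h1]
  apply h
  unfold Low ix
  simp only
  omega

theorem top4_tr {n : ℕ} {F G : ℕ → ℕ → ℤ} (h : Top4 n F G) : Top4 n (tr F) (tr G) :=
  fun i j h1 h2 => h j i (by omega) (by omega)

theorem Gam.congr {n : ℕ} (hn : 4 ≤ n) {M : ℝ} {F G : ℕ → ℕ → ℤ} (h : Top4 n F G)
    (hF : Gam n M F) : Gam n M G := by
  intro θ hθ h1
  have e1 := tc_top4 hn h θ (show 0 ≤ 3 by norm_num) (j := 1)
  have e2 : flexv n F θ = flexv n G θ := by
    unfold flexv
    simp only [tc_top4 hn h θ (show 0 ≤ 3 by norm_num), tc_top4 hn h θ (show 1 ≤ 3 by norm_num),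
      tc_top4 hn h θ (show 2 ≤ 3 by norm_num)]
  have h2 := hF θ (by rw [hp_top4 hn h]; exact hθ) (by rw [e1]; exact h1)
  rw [e1, e2] at h2
  exact h2

theorem Typ.congr {n H : ℕ} (hn : 4 ≤ n) {M : ℝ} {F G : ℕ → ℕ → ℤ} (h : Top4 n F G)
    (hF : Typ n H M F) : Typ n H M G where
  s1 := hF.s1.congr fun i j hij => h i j hij.le (by omega)
  s2 := hF.s2.congr fun i j hij => h j i (by omega) (by omega)
  irr := hF.irr.congr fun i j hij => h i j hij.le (by omega)
  g1 := hF.g1.congr hn h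
  g2 := hF.g2.congr hn (top4_tr h)

theorem typ_congr {n H : ℕ} (hn : 4 ≤ n) {M : ℝ} {a b : Ix n → ℤ}
    (h : ∀ i, ¬ Low i → a i = b i) (ha : Typ n H M (arr a)) : Typ n H M (arr b) :=
  ha.congr hn (top4_arr h)

/-- number of tops -/
theorem tops_card {n H : ℕ} (S : Finset (Ix n → ℤ))
    (hS : ∀ a ∈ S, (∀ i, |a i| ≤ (H : ℤ)) ∧ (∀ i, Low i → a i = 0)) :
    (S.card : ℝ) ≤ (2 * H + 1 : ℝ) ^
      (Fintype.card (Ix n) - Fintype.card {i : Ix n // Low i}) := by
  classical
  have h1 := fiber_count (fun i : Ix n => Low i) H S (fun a ha => (hS a ha).1) 1 zero_le_one ?_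
  · rw [one_mul, Fintype.card_subtype_compl] at h1
    exact h1
  · intro c _ T hT
    have : T.card ≤ 1 := by
      rw [card_le_one]
      intro a ha b hb
      funext i
      by_cases hi : Low i
      · rw [(hS a (hT a ha).1).2 i hi, (hS b (hT b hb).1).2 i hi]
      · rw [(hT a ha).2 i hi, (hT b hb).2 i hi]
    exact_mod_cast this

open Classical in
/-- all atypical vectors in the box -/
theorem atyp_all (n : ℕ) (hn : 4 ≤ n) : ∃ C : ℝ, 0 < C ∧ ∀ H : ℕ, 1 ≤ H → ∀ M : ℝ, 1 ≤ M →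
    M ^ 4 ≤ H → ∀ S : Finset (Ix n → ℤ),
    (∀ a ∈ S, (∀ i, |a i| ≤ (H : ℤ)) ∧ ¬ Typ n H M (arr a)) →
    (S.card : ℝ) ≤ C * (2 * H + 1 : ℝ) ^ (Fintype.card (Ix n)) / M ^ 2 := by
  obtain ⟨C2, hC2, hirr⟩ := irr_count n (by omega)
  refine ⟨2 * 8 ^ (3 * n + 2) + C2 + 2 * 8 ^ (3 * n), by positivity, ?_⟩
  intro H hH M hM hMH S hS
  set B : ℝ := (2 * H + 1 : ℝ) ^ (Fintype.card (Ix n)) with hB
  have hB0 : 0 < B := by positivity
  have hM0 : 0 < M := by linarith
  have hM2 : 1 ≤ M ^ 2 := one_le_pow₀ hM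
  have hM2H : M ^ 2 ≤ H := by
    refine le_trans ?_ hMH
    exact pow_le_pow_right₀ hM (by norm_num)
  have hH1 : (1 : ℝ) ≤ H := by exact_mod_cast hH
  set S1 := S.filter fun a => ¬ Simp n H M (arr a) with hS1
  set S2 := S.filter fun a => ¬ Simp n H M (tr (arr a)) with hS2
  set S3 := S.filter fun a => ¬ LeadIrr n (arr a) with hS3
  set S4 := S.filter fun a => ¬ Gam n (M ^ 2) (arr a) with hS4
  set S5 := S.filter fun a => ¬ Gam n (M ^ 2) (tr (arr a)) with hS5
  have hcover : S ⊆ S1 ∪ (S2 ∪ (S3 ∪ (S4 ∪ S5))) := by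
    intro a ha
    simp only [mem_union, hS1, hS2, hS3, hS4, hS5, mem_filter, ha, true_and]
    by_contra hc
    push Not at hc
    exact (hS a ha).2 ⟨hc.1, hc.2.1, hc.2.2.1, hc.2.2.2.1, hc.2.2.2.2⟩
  have b1 : (S1.card : ℝ) ≤ 8 ^ (3 * n + 2) * B / M ^ 2 :=
    simp_count n (by omega) H M hM hM2H S1 (fun a ha => by
      rw [hS1, mem_filter] at ha; exact ⟨(hS a ha.1).1, ha.2⟩)
  have b2 : (S2.card : ℝ) ≤ 8 ^ (3 * n + 2) * B / M ^ 2 :=
    simp_count_tr n (by omega) H M hM hM2H S2 (fun a ha => by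
      rw [hS2, mem_filter] at ha; exact ⟨(hS a ha.1).1, ha.2⟩)
  have b3 : (S3.card : ℝ) ≤ C2 * B / Real.sqrt H :=
    hirr H hH S3 (fun a ha => by
      rw [hS3, mem_filter] at ha; exact ⟨(hS a ha.1).1, ha.2⟩)
  have b4 : (S4.card : ℝ) ≤ 8 ^ (3 * n) * B / M ^ 2 :=
    gam_count n hn H (M ^ 2) hM2 hM2H S4 (fun a ha => by
      rw [hS4, mem_filter] at ha; exact ⟨(hS a ha.1).1, ha.2⟩)
  have b5 : (S5.card : ℝ) ≤ 8 ^ (3 * n) * B / M ^ 2 :=
    gam_count_tr n hn H (M ^ 2) hM2 hM2H S5 (fun a ha => by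
      rw [hS5, mem_filter] at ha; exact ⟨(hS a ha.1).1, ha.2⟩)
  have b3' : (S3.card : ℝ) ≤ C2 * B / M ^ 2 := by
    refine b3.trans ?_
    have hs : M ^ 2 ≤ Real.sqrt H := by
      apply Real.le_sqrt_of_sq_le
      have e : (M ^ 2) ^ 2 = M ^ 4 := by ring
      rw [e]
      exact hMH
    exact div_le_div_of_nonneg_left (by positivity) (by positivity) hs
  have hsum : (S.card : ℝ) ≤ S1.card + (S2.card + (S3.card + (S4.card + S5.card))) := by
    have h1 := card_le_card hcover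
    have h2 := card_union_le S1 (S2 ∪ (S3 ∪ (S4 ∪ S5)))
    have h3 := card_union_le S2 (S3 ∪ (S4 ∪ S5))
    have h4 := card_union_le S3 (S4 ∪ S5)
    have h5 := card_union_le S4 S5
    exact_mod_cast (by omega : S.card ≤ S1.card + (S2.card + (S3.card + (S4.card + S5.card))))
  refine hsum.trans ?_
  calc (S1.card : ℝ) + (S2.card + (S3.card + (S4.card + S5.card)))
      ≤ 8 ^ (3 * n + 2) * B / M ^ 2 + (8 ^ (3 * n + 2) * B / M ^ 2 + (C2 * B / M ^ 2 +
        (8 ^ (3 * n) * B / M ^ 2 + 8 ^ (3 * n) * B / M ^ 2))) := by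
        gcongr
    _ = _ := by ring

/-- atypical vectors with prescribed low coordinates `0` (one representative of each top) -/
theorem atyp_tops (n : ℕ) (hn : 4 ≤ n) : ∃ C : ℝ, 0 < C ∧ ∀ H : ℕ, 1 ≤ H → ∀ M : ℝ, 1 ≤ M →
    M ^ 4 ≤ H → ∀ S : Finset (Ix n → ℤ),
    (∀ a ∈ S, (∀ i, |a i| ≤ (H : ℤ)) ∧ (∀ i, Low i → a i = 0) ∧ ¬ Typ n H M (arr a)) →
    (S.card : ℝ) ≤ C * (2 * H + 1 : ℝ) ^
      (Fintype.card (Ix n) - Fintype.card {i : Ix n // Low i}) / M ^ 2 := by
  classical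
  obtain ⟨C, hC, hall⟩ := atyp_all n hn
  refine ⟨C, hC, ?_⟩
  intro H hH M hM hMH S hS
  set D := Fintype.card {i : Ix n // Low i} with hD
  set N := Fintype.card (Ix n) with hN
  have hDN : D ≤ N := Fintype.card_subtype_le _
  set L : Finset ({i : Ix n // Low i} → ℤ) := Fintype.piFinset fun _ => Icc (-(H : ℤ)) H with hL
  have hLcard : L.card = (2 * H + 1) ^ D := by
    rw [hL, Fintype.card_piFinset]
    simp only [Int.card_Icc, prod_const, card_univ]
    congr 1
    omega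
  set g : (Ix n → ℤ) × ({i : Ix n // Low i} → ℤ) → (Ix n → ℤ) := fun p i =>
    if h : Low i then p.2 ⟨i, h⟩ else p.1 i with hg
  have hginj : Set.InjOn g (S ×ˢ L : Finset _) := by
    rintro ⟨a, l⟩ hal ⟨b, m⟩ hbm h
    rw [mem_coe, mem_product] at hal hbm
    simp only [Prod.mk.injEq]
    constructor
    · funext i
      by_cases hi : Low i
      · rw [(hS a hal.1).2.1 i hi, (hS b hbm.1).2.1 i hi]
      · have := congrFun h i
        simp only [hg, dif_neg hi] at this
        exact this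
    · funext i
      have := congrFun h i.1
      simp only [hg, dif_pos i.2] at this
      exact this
  have h1 := hall H hH M hM hMH ((S ×ˢ L).image g) ?_
  · rw [card_image_of_injOn hginj, card_product, hLcard] at h1
    push_cast at h1
    have hK : (0 : ℝ) < (2 * H + 1 : ℝ) ^ D := by positivity
    rw [← mul_le_mul_iff_left₀ hK]
    refine h1.trans (le_of_eq ?_)
    have : (2 * H + 1 : ℝ) ^ N = (2 * H + 1 : ℝ) ^ (N - D) * (2 * H + 1 : ℝ) ^ D := by
      rw [← pow_add]; congr 1; omega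
    rw [this]; ring
  · intro a ha
    rw [mem_image] at ha
    obtain ⟨⟨b, l⟩, hbl, rfl⟩ := ha
    rw [mem_product] at hbl
    constructor
    · intro i
      simp only [hg]
      by_cases hi : Low i
      · rw [dif_pos hi]
        have := hbl.2
        rw [hL, Fintype.mem_piFinset] at this
        have := this ⟨i, hi⟩
        rw [mem_Icc] at this
        exact abs_le.2 this
      · rw [dif_neg hi]
        exact (hS b hbl.1).1 i
    · intro hT
      apply (hS b hbl.1).2.2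
      refine typ_congr hn ?_ hT
      intro i hi
      simp only [hg, dif_neg hi]

/-- the top of a vector -/
def red {n : ℕ} (a : Ix n → ℤ) : Ix n → ℤ := fun i => if Low i then 0 else a i

theorem red_high {n : ℕ} (a : Ix n → ℤ) (i : Ix n) (hi : ¬ Low i) : red a i = a i := by
  unfold red; rw [if_neg hi]

theorem red_low {n : ℕ} (a : Ix n → ℤ) (i : Ix n) (hi : Low i) : red a i = 0 := by
  unfold red; rw [if_pos hi]

theorem red_bdd {n H : ℕ} {a : Ix n → ℤ} (h : ∀ i, |a i| ≤ (H : ℤ)) (i : Ix n) :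
    |red a i| ≤ (H : ℤ) := by
  unfold red
  split_ifs
  · simp
  · exact h i

theorem bdd_arr {n H : ℕ} {a : Ix n → ℤ} (h : ∀ i, |a i| ≤ (H : ℤ)) : Bdd n H (arr a) := by
  intro i j hij
  unfold arr
  rw [dif_pos hij]
  exact h _

/-- one typical class -/
theorem class_count {n H : ℕ} {S : Finset (ℤ × ℤ)} (hS : Star n S) (m : ℝ) (hm : 0 ≤ m)
    (t : Ix n → ℤ)
    (hcand : ∀ U : Finset (ℤ × ℤ), (∀ P ∈ U, Cand n H (arr t) P) → (U.card : ℝ) ≤ m)
    (Z : Finset (Ix n → ℤ))
    (hZ : ∀ a ∈ Z, (∀ i, |a i| ≤ (H : ℤ)) ∧ (∀ i, ¬ Low i → a i = t i) ∧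
      (∀ P ∈ S, ev n (arr a) P.1 P.2 = 0) ∧ ∃ P : ℤ × ℤ, P ∉ S ∧ ev n (arr a) P.1 P.2 = 0) :
    (Z.card : ℝ) ≤ m * (2 * H + 1 : ℝ) ^
      (Fintype.card {i : Ix n // Low i} - (S.card + 1)) := by
  classical
  have hz : ∀ a ∈ Z, ∃ P : ℤ × ℤ, P ∉ S ∧ ev n (arr a) P.1 P.2 = 0 := fun a ha => (hZ a ha).2.2.2
  choose! p hp using hz
  have hU := hcand (Z.image p) (fun P hP => by
    rw [mem_image] at hP
    obtain ⟨a, ha, rfl⟩ := hP
    exact ⟨arr a, bdd_arr (hZ a ha).1, top4_arr (hZ a ha).2.1, (hp a ha).2⟩)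
  have hfib : ∀ P ∈ Z.image p, (Z.filter fun a => p a = P).card ≤
      (2 * H + 1) ^ (Fintype.card {i : Ix n // Low i} - (S.card + 1)) := by
    intro P hP
    rw [mem_image] at hP
    obtain ⟨a0, ha0, rfl⟩ := hP
    have hPS := (hp a0 ha0).1
    have h1 := (fib_sep (H := H) (hS.insert hPS) t (Z.filter fun a => p a = p a0) ?_).2
    · rw [card_insert_of_notMem hPS] at h1
      exact h1
    · intro a ha
      rw [mem_filter] at ha
      refine ⟨(hZ a ha.1).1, (hZ a ha.1).2.1, ?_⟩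
      intro Q hQ
      rw [mem_insert] at hQ
      rcases hQ with rfl | hQ
      · rw [← ha.2]; exact (hp a ha.1).2
      · exact (hZ a ha.1).2.2.1 Q hQ
  have h2 := card_le_mul_card_image Z _ hfib
  have h3 : (Z.card : ℝ) ≤ (2 * H + 1 : ℝ) ^ (Fintype.card {i : Ix n // Low i} - (S.card + 1)) *
      ((Z.image p).card : ℝ) := by exact_mod_cast h2
  refine h3.trans ?_
  rw [mul_comm]
  gcongr

theorem vec_count (n : ℕ) (hn : 4 ≤ n) (S : Finset (ℤ × ℤ)) (hS : Star n S) :
    ∃ C : ℝ, 0 < C ∧ ∀ H : ℕ, 1 ≤ H → ∀ Z : Finset (Ix n → ℤ),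
    (∀ a ∈ Z, (∀ i, |a i| ≤ (H : ℤ)) ∧ (∀ P ∈ S, ev n (arr a) P.1 P.2 = 0) ∧
      ∃ P : ℤ × ℤ, P ∉ S ∧ ev n (arr a) P.1 P.2 = 0) →
    (Z.card : ℝ) ≤ C * (H : ℝ) ^ (-(1 / 8 : ℝ)) *
      (2 * H + 1 : ℝ) ^ (Fintype.card (Ix n) - S.card) := by
  classical
  obtain ⟨C1, hC1, hat⟩ := atyp_tops n hn
  obtain ⟨C2, hC2, hca⟩ := cand_count n hn
  set N := Fintype.card (Ix n) with hN
  set D := Fintype.card {i : Ix n // Low i} with hD
  have hDN : D ≤ N := Fintype.card_subtype_le _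
  -- a point outside `S`
  obtain ⟨P0, hP0⟩ := Infinite.exists_notMem_finset S
  have hsD : S.card + 1 ≤ D := by
    have h1 := (fib_sep (H := 1) (hS.insert hP0) 0 ∅ (by simp)).1
    rwa [card_insert_of_notMem hP0] at h1
  refine ⟨3 ^ N + C1 + 9 * C2, by positivity, ?_⟩
  intro H hH Z hZ
  set s := S.card with hs
  have hH1 : (1 : ℝ) ≤ H := by exact_mod_cast hH
  have hH0 : (0 : ℝ) < H := by linarith
  set K : ℝ := 2 * H + 1 with hK
  have hK1 : 1 ≤ K := by rw [hK]; linarith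
  set q : ℝ := (H : ℝ) ^ (-(1 / 8 : ℝ)) with hq
  have hq0 : 0 < q := by positivity
  rcases Nat.lt_or_ge H 2 with hH2 | hH2
  · have hH1' : H = 1 := by omega
    have hqe : q = 1 := by rw [hq, hH1']; simp
    have h1 : (Z.card : ℝ) ≤ 1 * (2 * H + 1 : ℝ) ^ (Fintype.card {i : Ix n // ¬ False}) := by
      refine fiber_count (fun _ => False) H Z (fun a ha => (hZ a ha).1) 1 zero_le_one ?_
      intro c _ T hT
      have : T ⊆ {c} := by
        intro a ha
        rw [mem_singleton]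
        funext i
        exact (hT a ha).2 i (by simp)
      exact_mod_cast (card_le_card this).trans (card_singleton c).le
    have h2 : Fintype.card {i : Ix n // ¬ False} = N := by
      rw [hN]
      exact Fintype.card_congr (Equiv.subtypeUnivEquiv (by simp))
    rw [h2, one_mul, ← hK] at h1
    have hK3 : K = 3 := by rw [hK, hH1']; norm_num
    have h3 : (1 : ℝ) ≤ K ^ (N - s) := one_le_pow₀ hK1
    rw [hqe, mul_one]
    calc (Z.card : ℝ) ≤ K ^ N := h1
      _ = 3 ^ N * 1 := by rw [hK3, mul_one]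
      _ ≤ (3 ^ N + C1 + 9 * C2) * K ^ (N - s) := by
          gcongr
          linarith
  · set M : ℝ := (H : ℝ) ^ ((1 : ℝ) / 16) with hM
    have hM1 : 1 ≤ M := Real.one_le_rpow hH1 (by norm_num)
    have hMpow : ∀ k : ℕ, M ^ k = (H : ℝ) ^ ((k : ℝ) / 16) := by
      intro k
      rw [hM, ← Real.rpow_natCast, ← Real.rpow_mul hH0.le]
      congr 1; ring
    have hM4 : M ^ 4 ≤ H := by
      rw [hMpow]
      calc (H : ℝ) ^ (((4 : ℕ) : ℝ) / 16) ≤ (H : ℝ) ^ (1 : ℝ) :=
            Real.rpow_le_rpow_of_exponent_le hH1 (by norm_num)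
        _ = H := Real.rpow_one _
    have hqM : q = 1 / M ^ 2 := by
      rw [hMpow, hq, Real.rpow_neg hH0.le, one_div]
      norm_num
    set Z1 := Z.filter fun a => ¬ Typ n H M (arr a) with hZ1
    set Z2 := Z.filter fun a => Typ n H M (arr a) with hZ2
    have hsplit : (Z.card : ℝ) = Z2.card + Z1.card := by
      have := card_filter_add_card_filter_not (s := Z) (fun a => Typ n H M (arr a))
      exact_mod_cast this.symm
    -- atypical
    have b1 : (Z1.card : ℝ) ≤ C1 * q * K ^ (N - s) := by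
      have hfib : ∀ t ∈ Z1.image red, (Z1.filter fun a => red a = t).card ≤
          (2 * H + 1) ^ (D - s) := by
        intro t _
        refine (fib_sep (H := H) hS.sep t _ ?_).2
        intro a ha
        rw [mem_filter, hZ1, mem_filter] at ha
        refine ⟨(hZ a ha.1.1).1, fun i hi => ?_, (hZ a ha.1.1).2.1⟩
        rw [← ha.2, red_high a i hi]
      have h2 := card_le_mul_card_image Z1 _ hfib
      have h3 : (Z1.card : ℝ) ≤ K ^ (D - s) * ((Z1.image red).card : ℝ) := by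
        rw [hK]; exact_mod_cast h2
      have h4 := hat H hH M hM1 hM4 (Z1.image red) ?_
      · refine h3.trans ?_
        calc K ^ (D - s) * ((Z1.image red).card : ℝ)
            ≤ K ^ (D - s) * (C1 * K ^ (N - D) / M ^ 2) := by gcongr
          _ = C1 * (1 / M ^ 2) * (K ^ (D - s) * K ^ (N - D)) := by ring
          _ = C1 * q * K ^ (N - s) := by
              rw [← hqM, ← pow_add]; congr 2; omega
      · intro t ht
        rw [mem_image] at ht
        obtain ⟨a, ha, rfl⟩ := ht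
        rw [hZ1, mem_filter] at ha
        refine ⟨red_bdd (hZ a ha.1).1, red_low a, fun hT => ha.2 ?_⟩
        exact typ_congr hn (red_high a) hT
    -- typical
    have b2 : (Z2.card : ℝ) ≤ 9 * C2 * q * K ^ (N - s) := by
      set m : ℝ := C2 * (M ^ 14 + M ^ 8 * Real.log H) with hm
      have hlog0 : 0 ≤ Real.log H := Real.log_nonneg hH1
      have hm0 : 0 ≤ m := by positivity
      have h1 : ∀ t ∈ Z2.image red, ((Z2.filter fun a => red a = t).card : ℝ) ≤
          m * K ^ (D - (s + 1)) := by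
        intro t ht
        rw [mem_image] at ht
        obtain ⟨a0, ha0, hat0⟩ := ht
        rw [hZ2, mem_filter] at ha0
        refine class_count hS m hm0 t ?_ _ ?_
        · intro U hU
          refine hca H hH2 M hM1 (arr t) ?_ U hU
          refine typ_congr hn ?_ ha0.2
          intro i hi
          rw [← hat0, red_high a0 i hi]
        · intro a ha
          rw [mem_filter, hZ2, mem_filter] at ha
          refine ⟨(hZ a ha.1.1).1, fun i hi => ?_, (hZ a ha.1.1).2.1, (hZ a ha.1.1).2.2⟩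
          rw [← ha.2, red_high a i hi]
      have h2 : (Z2.card : ℝ) ≤ ((Z2.image red).card : ℝ) * (m * K ^ (D - (s + 1))) := by
        rw [card_eq_sum_card_image red Z2, Nat.cast_sum]
        refine (sum_le_sum h1).trans ?_
        rw [sum_const, nsmul_eq_mul]
      have h3 : ((Z2.image red).card : ℝ) ≤ K ^ (N - D) := by
        refine tops_card _ ?_
        intro t ht
        rw [mem_image] at ht
        obtain ⟨a, ha, rfl⟩ := ht
        rw [hZ2, mem_filter] at ha
        exact ⟨red_bdd (hZ a ha.1).1, red_low a⟩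
      have h4 : m ≤ 9 * C2 * q * K := by
        have hl : Real.log H ≤ 8 * (H : ℝ) ^ ((1 : ℝ) / 8) := log_le_rpow H hH1
        have e8 : M ^ 8 * (H : ℝ) ^ ((1 : ℝ) / 8) ≤ (H : ℝ) ^ ((7 : ℝ) / 8) := by
          rw [hMpow, ← Real.rpow_add hH0]
          exact Real.rpow_le_rpow_of_exponent_le hH1 (by norm_num)
        have e14 : M ^ 14 = (H : ℝ) ^ ((7 : ℝ) / 8) := by
          rw [hMpow]; norm_num
        have e1 : q * H = (H : ℝ) ^ ((7 : ℝ) / 8) := by
          rw [hq]
          nth_rewrite 2 [← Real.rpow_one (H : ℝ)]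
          rw [← Real.rpow_add hH0]; norm_num
        have e2 : M ^ 14 + M ^ 8 * Real.log H ≤ 9 * (H : ℝ) ^ ((7 : ℝ) / 8) := by
          calc M ^ 14 + M ^ 8 * Real.log H ≤ M ^ 14 + M ^ 8 * (8 * (H : ℝ) ^ ((1 : ℝ) / 8)) := by
                gcongr
            _ = M ^ 14 + 8 * (M ^ 8 * (H : ℝ) ^ ((1 : ℝ) / 8)) := by ring
            _ ≤ (H : ℝ) ^ ((7 : ℝ) / 8) + 8 * (H : ℝ) ^ ((7 : ℝ) / 8) := by
                rw [e14]; gcongr
            _ = _ := by ring
        calc m = C2 * (M ^ 14 + M ^ 8 * Real.log H) := hm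
          _ ≤ C2 * (9 * (H : ℝ) ^ ((7 : ℝ) / 8)) := by gcongr
          _ = 9 * C2 * (q * H) := by rw [e1]; ring
          _ ≤ 9 * C2 * (q * K) := by
              gcongr
              rw [hK]; linarith
          _ = _ := by ring
      calc (Z2.card : ℝ) ≤ ((Z2.image red).card : ℝ) * (m * K ^ (D - (s + 1))) := h2
        _ ≤ K ^ (N - D) * ((9 * C2 * q * K) * K ^ (D - (s + 1))) := by gcongr
        _ = 9 * C2 * q * (K ^ (N - D) * K ^ 1 * K ^ (D - (s + 1))) := by ring
        _ = 9 * C2 * q * K ^ (N - s) := by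
            rw [← pow_add, ← pow_add]; congr 2; omega
    rw [hsplit]
    have hT : 0 ≤ q * K ^ (N - s) := by positivity
    calc (Z2.card : ℝ) + Z1.card ≤ 9 * C2 * q * K ^ (N - s) + C1 * q * K ^ (N - s) :=
          add_le_add b2 b1
      _ = (C1 + 9 * C2) * (q * K ^ (N - s)) := by ring
      _ ≤ (3 ^ N + C1 + 9 * C2) * (q * K ^ (N - s)) := by
          refine mul_le_mul_of_nonneg_right ?_ hT
          have : (0 : ℝ) ≤ 3 ^ N := by positivity
          linarith
      _ = _ := by ring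

end Pool.Agent.H8.MP
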