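import Pool.Agent.H8.MP.Mid3
import Pool.Agent.H8.NoPt.Count
import Pool.Agent.H8.NoPt.Final
import Pool.Agent.H72.ES.Total

/-! # [MP CAND] Few candidates for a typical class

Same structure as `Pool.Agent.H8.NoPt.typ_points`: small points `|x|, |y| ≤ X0 = 8^(12n) M⁷`
(`small_card`, `(2 X0 + 1)² ≤ 9 * 8^(24n) M^14`), middle points up to `Y = H^E`,
`E = 5300000 n⁵` (`mid3` for `G` and for `tr G`, `Prod.swap`), large points
`H^E < max |P.1| |P.2|`: `main_total` gives at most `39 n³` of them; its hypothesis on real roots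
`θ` of `part n 0 G`: `θ` as a complex number is a root of `hp n G`, `tc n G (θ:ℂ) 0 1 ≠ 0` by
`tc01_ne` (irreducible over `ℚ`, so separable), `Gam` gives `flexv n G (θ:ℂ) ≠ 0`, which is the
cast of `flexv n G θ` (`tc_map`), and `flexP_eval`. -/

namespace Pool.Agent.H8.MP

open Finset Polynomial Pool.Agent.H72.ES Pool.Agent.H8.NoPt

theorem tc01_ne {n : ℕ} (hn : 4 ≤ n) {G : ℕ → ℕ → ℤ} (hI : LeadIrr n G) (θ : ℂ)
    (hθ : (hp n G).IsRoot θ) : tc n G θ 0 1 ≠ 0 := by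
  have _ := hn
  have hcomp : (algebraMap ℚ ℂ).comp (Int.castRingHom ℚ) = Int.castRingHom ℂ :=
    RingHom.ext_int _ _
  have h1 : ((lead n G).map (Int.castRingHom ℚ)).eval₂ (algebraMap ℚ ℂ) θ = 0 := by
    rw [eval₂_map, hcomp, ← eval_map]
    exact hθ
  have h2 := hI.2.separable.eval₂_derivative_ne_zero (algebraMap ℚ ℂ) h1
  rw [tc_eq_eval, hasseDeriv_one, part_zero, aeval_def, algebraMap_int_eq]
  rwa [derivative_map, eval₂_map, hcomp] at h2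

theorem Top4.tr' {n : ℕ} {F G : ℕ → ℕ → ℤ} (h : Top4 n F G) : Top4 n (tr F) (tr G) :=
  fun i j h1 h2 => h j i (by omega) (by omega)

theorem Cand.tr {n H : ℕ} {G : ℕ → ℕ → ℤ} {P : ℤ × ℤ} (h : Cand n H G P) :
    Cand n H (tr G) P.swap := by
  obtain ⟨F, hF, hFG, h0⟩ := h
  refine ⟨NoPt.tr F, hF.tr, Top4.tr' hFG, ?_⟩
  simp only [Prod.fst_swap, Prod.snd_swap]
  rw [ev_tr, h0]

theorem large_cand {n H : ℕ} (hn : 4 ≤ n) (hH : 2 ≤ H) {M : ℝ} {G : ℕ → ℕ → ℤ}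
    (hI : LeadIrr n G) (hG : Gam n M G) (S : Finset (ℤ × ℤ))
    (hS : ∀ P ∈ S, Cand n H G P ∧ (H : ℤ) ^ (5300000 * n ^ 5) < max |P.1| |P.2|) :
    S.card ≤ 39 * n ^ 3 := by
  refine main_total hn G hI.1 (by rw [leadQ_eq]; exact hI.2) ?_ S ?_
  · intro θ hθ
    have hroot : (hp n G).IsRoot (θ : ℂ) := by
      rw [part_zero] at hθ
      unfold hp
      rw [IsRoot.def, eval_map]
      have h1 : (lead n G).eval₂ (Int.castRingHom ℂ) (θ : ℂ) =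
          ((aeval θ (lead n G) : ℝ) : ℂ) := by
        rw [aeval_def, ← Complex.ofRealHom_eq_coe, ← Complex.ofRealHom_eq_coe, hom_eval₂]
        congr 1
      rw [h1, hθ, Complex.ofReal_zero]
    have h2 := (hG (θ : ℂ) hroot (tc01_ne hn hI _ hroot)).1
    have htc : ∀ i j, tc n G (θ : ℂ) i j = ((tc n G θ i j : ℝ) : ℂ) := by
      intro i j
      rw [← Complex.ofRealHom_eq_coe, ← Complex.ofRealHom_eq_coe]
      exact (tc_map Complex.ofRealHom n G θ i j).symm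
    have h3 : flexv n G (θ : ℂ) = ((flexv n G θ : ℝ) : ℂ) := by
      unfold flexv
      simp only [htc]
      push_cast
      ring
    rw [h3] at h2
    have h4 : flexv n G θ ≠ 0 := by
      intro h5
      apply h2
      rw [h5, Complex.ofReal_zero]
    rw [flexP_eval]
    exact mul_ne_zero two_ne_zero h4
  · intro P hP
    obtain ⟨⟨F, hF, hFG, h0⟩, hbig⟩ := hS P hP
    exact ⟨H, hH, hbig, F, hF, hFG, h0⟩

theorem cand_count (n : ℕ) (hn : 4 ≤ n) : ∃ C : ℝ, 0 < C ∧ ∀ H : ℕ, 2 ≤ H → ∀ M : ℝ, 1 ≤ M →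
    ∀ G : ℕ → ℕ → ℤ, Typ n H M G → ∀ S : Finset (ℤ × ℤ), (∀ P ∈ S, Cand n H G P) →
    (S.card : ℝ) ≤ C * (M ^ 14 + M ^ 8 * Real.log H) := by
  classical
  set E : ℕ := 5300000 * n ^ 5 with hE
  refine ⟨39 * n ^ 3 + 9 * 8 ^ (24 * n) + 2 * 8 ^ (17 * n) * (E + 2), by positivity, ?_⟩
  intro H hH M hM G hT S hS
  have hH2 : (2 : ℝ) ≤ H := by exact_mod_cast hH
  have hH1 : (1 : ℝ) ≤ H := by linarith
  have hNZ := hT.irr.nz (by omega)
  set X0 : ℝ := (8 : ℝ) ^ (12 * n) * M ^ 7 with hX0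
  have h8 : (1 : ℝ) ≤ (8 : ℝ) ^ (12 * n) := one_le_pow₀ (by norm_num)
  have hM7 : 1 ≤ M ^ 7 := one_le_pow₀ hM
  have hM8 : 1 ≤ M ^ 8 := one_le_pow₀ hM
  have hM14 : 1 ≤ M ^ 14 := one_le_pow₀ hM
  have hX01 : 1 ≤ X0 := by rw [hX0]; nlinarith
  have hlog : 1 / 2 ≤ Real.log H := by
    have h1 : Real.log 2 ≤ Real.log H := Real.log_le_log (by norm_num) hH2
    have := Real.log_two_gt_d9
    linarith
  -- four parts
  set Sb := S.filter fun P => (H : ℤ) ^ E < max |P.1| |P.2| with hSb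
  set Sx := S.filter fun P => |P.2| ≤ |P.1| ∧ X0 ≤ |(P.1 : ℝ)| ∧ |(P.1 : ℝ)| ≤ (H : ℝ) ^ E with hSx
  set Sy := S.filter fun P => |P.1| ≤ |P.2| ∧ X0 ≤ |(P.2 : ℝ)| ∧ |(P.2 : ℝ)| ≤ (H : ℝ) ^ E with hSy
  set Ss := S.filter fun P => |(P.1 : ℝ)| ≤ X0 ∧ |(P.2 : ℝ)| ≤ X0 with hSs
  have hcover : S ⊆ Sb ∪ (Sx ∪ (Sy ∪ Ss)) := by
    intro P hP
    rw [mem_union, mem_union, mem_union, hSb, hSx, hSy, hSs]
    simp only [mem_filter, hP, true_and]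
    by_cases h1 : (H : ℤ) ^ E < max |P.1| |P.2|
    · exact Or.inl h1
    right
    push Not at h1
    have h1x : |P.1| ≤ (H : ℤ) ^ E := (le_max_left _ _).trans h1
    have h1y : |P.2| ≤ (H : ℤ) ^ E := (le_max_right _ _).trans h1
    have h1x' : |(P.1 : ℝ)| ≤ (H : ℝ) ^ E := by exact_mod_cast h1x
    have h1y' : |(P.2 : ℝ)| ≤ (H : ℝ) ^ E := by exact_mod_cast h1y
    rcases le_total |P.2| |P.1| with h2 | h2
    · have h2' : |(P.2 : ℝ)| ≤ |(P.1 : ℝ)| := by exact_mod_cast h2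
      by_cases h3 : X0 ≤ |(P.1 : ℝ)|
      · exact Or.inl ⟨h2, h3, h1x'⟩
      · push Not at h3
        exact Or.inr (Or.inr ⟨h3.le, h2'.trans h3.le⟩)
    · have h2' : |(P.1 : ℝ)| ≤ |(P.2 : ℝ)| := by exact_mod_cast h2
      by_cases h3 : X0 ≤ |(P.2 : ℝ)|
      · exact Or.inr (Or.inl ⟨h2, h3, h1y'⟩)
      · push Not at h3
        exact Or.inr (Or.inr ⟨h2'.trans h3.le, h3.le⟩)
  have hY1 : (1 : ℝ) ≤ (H : ℝ) ^ E := one_le_pow₀ hH1
  have b1 : (Sb.card : ℝ) ≤ 39 * n ^ 3 := by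
    have h1 := large_cand hn hH hT.irr hT.g1 Sb (fun P hP => by
      rw [hSb, mem_filter] at hP
      exact ⟨hS P hP.1, hP.2⟩)
    exact_mod_cast h1
  have b2 : (Sx.card : ℝ) ≤ 8 ^ (17 * n) * M ^ 8 * (1 + Real.log ((H : ℝ) ^ E)) := by
    refine mid3 hn (by omega) hM hT.s1 hT.g1 hNZ _ hY1 Sx ?_
    intro P hP
    rw [hSx, mem_filter] at hP
    exact ⟨hS P hP.1, hP.2.1, hP.2.2.1, hP.2.2.2⟩
  have b3 : (Sy.card : ℝ) ≤ 8 ^ (17 * n) * M ^ 8 * (1 + Real.log ((H : ℝ) ^ E)) := by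
    have h1 := mid3 hn (by omega) hM hT.s2 hT.g2 hNZ.tr _ hY1 (Sy.image Prod.swap) ?_
    · rwa [card_image_of_injective _ Prod.swap_injective] at h1
    intro P hP
    rw [mem_image] at hP
    obtain ⟨Q, hQ, rfl⟩ := hP
    rw [hSy, mem_filter] at hQ
    exact ⟨(hS Q hQ.1).tr, hQ.2.1, hQ.2.2.1, hQ.2.2.2⟩
  have b4 : (Ss.card : ℝ) ≤ (2 * X0 + 1) ^ 2 := by
    refine small_card X0 (by linarith) Ss ?_
    intro P hP
    rw [hSs, mem_filter] at hP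
    exact hP.2
  have hsum : (S.card : ℝ) ≤ Sb.card + (Sx.card + (Sy.card + Ss.card)) := by
    have h1 := card_le_card hcover
    have h2 := card_union_le Sb (Sx ∪ (Sy ∪ Ss))
    have h3 := card_union_le Sx (Sy ∪ Ss)
    have h4 := card_union_le Sy Ss
    exact_mod_cast (by omega : S.card ≤ Sb.card + (Sx.card + (Sy.card + Ss.card)))
  have hl : 1 + Real.log ((H : ℝ) ^ E) ≤ (E + 2) * Real.log H := by
    rw [Real.log_pow]
    have : (0 : ℝ) ≤ E := Nat.cast_nonneg _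
    nlinarith
  have b2' : (Sx.card : ℝ) ≤ 8 ^ (17 * n) * (E + 2) * (M ^ 8 * Real.log H) := by
    refine b2.trans ?_
    calc (8 : ℝ) ^ (17 * n) * M ^ 8 * (1 + Real.log ((H : ℝ) ^ E))
        ≤ 8 ^ (17 * n) * M ^ 8 * ((E + 2) * Real.log H) := by gcongr
      _ = _ := by ring
  have b3' : (Sy.card : ℝ) ≤ 8 ^ (17 * n) * (E + 2) * (M ^ 8 * Real.log H) := by
    refine b3.trans ?_
    calc (8 : ℝ) ^ (17 * n) * M ^ 8 * (1 + Real.log ((H : ℝ) ^ E))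
        ≤ 8 ^ (17 * n) * M ^ 8 * ((E + 2) * Real.log H) := by gcongr
      _ = _ := by ring
  have b1' : (Sb.card : ℝ) ≤ 39 * n ^ 3 * M ^ 14 := by
    refine b1.trans ?_
    calc 39 * (n : ℝ) ^ 3 = 39 * n ^ 3 * 1 := by ring
      _ ≤ 39 * n ^ 3 * M ^ 14 := by gcongr
  have b4' : (Ss.card : ℝ) ≤ 9 * 8 ^ (24 * n) * M ^ 14 := by
    refine b4.trans ?_
    calc (2 * X0 + 1) ^ 2 ≤ (2 * X0 + X0) ^ 2 := by gcongr
      _ = 9 * 8 ^ (24 * n) * M ^ 14 := by rw [hX0]; ring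
  have hU : 0 ≤ M ^ 8 * Real.log H := by positivity
  have hV : 0 ≤ M ^ 14 := by positivity
  have p1 : (0 : ℝ) ≤ 39 * n ^ 3 + 9 * 8 ^ (24 * n) := by positivity
  have p2 : (0 : ℝ) ≤ 2 * 8 ^ (17 * n) * (E + 2) := by positivity
  set U := M ^ 8 * Real.log H with hUdef
  set V := M ^ 14 with hVdef
  calc (S.card : ℝ) ≤ 39 * n ^ 3 * V + (8 ^ (17 * n) * (E + 2) * U + (8 ^ (17 * n) * (E + 2) * U +
        9 * 8 ^ (24 * n) * V)) := by linarith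
    _ = (39 * n ^ 3 + 9 * 8 ^ (24 * n)) * V + 2 * 8 ^ (17 * n) * (E + 2) * U := by ring
    _ ≤ (39 * n ^ 3 + 9 * 8 ^ (24 * n) + 2 * 8 ^ (17 * n) * (E + 2)) * V +
        (39 * n ^ 3 + 9 * 8 ^ (24 * n) + 2 * 8 ^ (17 * n) * (E + 2)) * U :=
        add_le_add (mul_le_mul_of_nonneg_right (by linarith) hV)
          (mul_le_mul_of_nonneg_right (by linarith) hU)
    _ = _ := by ring

end Pool.Agent.H8.MP
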