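import Mathlib

/-! # [MP ALG] Third order solution of the branch equation

`v + a2 v² + a3 v³ + u (b0 + b1 v + b2 v²) + u² (c0 + c1 v) + u³ d0 = r`, all coefficients of
absolute value `≤ L`, `1 ≤ L`, `2 L |u| ≤ 1`, `|v| ≤ L |u|`, `|r| ≤ L (|u| + |v|)⁴`. Put `β = -b0`,
`γ = -(a2 β² + b1 β + c0)`, `δ = -(2 a2 β γ + a3 β³ + b1 γ + b2 β² + c1 β + d0)`. Then
`|β| ≤ L`, `|γ| ≤ 3 L³`, `|δ| ≤ 13 L⁵` and with `w1 = v - β u`, `w2 = w1 - γ u²`,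
`w3 = w2 - δ u³`:
* `|w1| ≤ 11 L³ |u|²`: `w1 = v + b0 u = -a2 v² - a3 v³ - u (b1 v + b2 v²) - u² (..) - u³ d0 + r`,
  seven terms `≤ L³|u|²` each (use `L|u| ≤ 1/2`, `|v| ≤ 1/2`) and `|r| ≤ L (2L|u|)⁴ ≤ 4 L³ |u|²`.
* `|w2| ≤ 45 L⁵ |u|³`: `w2 = -a2 (v² - β²u²) - a3 v³ - b1 u w1 - b2 u v² - c1 u² v - d0 u³ + r`,
  `v² - β²u² = w1 (v + βu)`.
* `|w3| ≤ 250 L⁷ |u|⁴`: `w3 = -a2 (v² - β²u² - 2βγu³) - a3 (v³ - β³u³) - b1 u w2
  - b2 u (v² - β²u²) - c1 u² w1 + r`, `v² - β²u² - 2βγu³ = w2 (v + βu) + γ u² w1`,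
  `v³ - β³u³ = w1 (v² + v βu + β²u²)`, `|r| ≤ 16 L⁵ |u|⁴`. -/

namespace Pool.Agent.H8.MP

theorem alg3 (L : ℝ) (hL : 1 ≤ L) (a2 a3 b0 b1 b2 c0 c1 d0 r u v β γ δ : ℂ)
    (ha2 : ‖a2‖ ≤ L) (ha3 : ‖a3‖ ≤ L) (hb0 : ‖b0‖ ≤ L) (hb1 : ‖b1‖ ≤ L) (hb2 : ‖b2‖ ≤ L)
    (hc0 : ‖c0‖ ≤ L) (hc1 : ‖c1‖ ≤ L) (hd0 : ‖d0‖ ≤ L) (hr : ‖r‖ ≤ L * (‖u‖ + ‖v‖) ^ 4)
    (hv : ‖v‖ ≤ L * ‖u‖) (hu : 2 * L * ‖u‖ ≤ 1)
    (heq : v + a2 * v ^ 2 + a3 * v ^ 3 + u * (b0 + b1 * v + b2 * v ^ 2) +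
      u ^ 2 * (c0 + c1 * v) + u ^ 3 * d0 = r)
    (hβ : β = -b0) (hγ : γ = -(a2 * β ^ 2 + b1 * β + c0))
    (hδ : δ = -(2 * a2 * β * γ + a3 * β ^ 3 + b1 * γ + b2 * β ^ 2 + c1 * β + d0)) :
    ‖β‖ ≤ L ∧ ‖γ‖ ≤ 3 * L ^ 3 ∧ ‖δ‖ ≤ 13 * L ^ 5 ∧ ‖v - β * u‖ ≤ 11 * L ^ 3 * ‖u‖ ^ 2 ∧
      ‖v - β * u - γ * u ^ 2 - δ * u ^ 3‖ ≤ 250 * L ^ 7 * ‖u‖ ^ 4 := by
  obtain ⟨t, ht⟩ : ∃ t : ℝ, t = ‖u‖ := ⟨_, rfl⟩
  have ht0 : 0 ≤ t := by rw [ht]; exact norm_nonneg u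
  have hL0 : 0 ≤ L := by linarith
  rw [← ht] at hv hr hu ⊢
  have hs : L * t ≤ 1 / 2 := by linarith
  have mono : ∀ i j k : ℕ, i ≤ j → L ^ i * t ^ k ≤ L ^ j * t ^ k := fun i j k h =>
    mul_le_mul_of_nonneg_right (pow_le_pow_right₀ hL h) (pow_nonneg ht0 k)
  have half : ∀ i k : ℕ, L ^ (i + 1) * t ^ (k + 1) ≤ L ^ i * t ^ k / 2 := by
    intro i k
    have h1 : L ^ (i + 1) * t ^ (k + 1) = L ^ i * t ^ k * (L * t) := by ring
    rw [h1]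
    have h2 : 0 ≤ L ^ i * t ^ k := mul_nonneg (pow_nonneg hL0 i) (pow_nonneg ht0 k)
    have h3 := mul_le_mul_of_nonneg_left hs h2
    linarith
  have pos : ∀ i k : ℕ, 0 ≤ L ^ i * t ^ k := fun i k =>
    mul_nonneg (pow_nonneg hL0 i) (pow_nonneg ht0 k)
  have hr' : ‖r‖ ≤ 16 * (L ^ 5 * t ^ 4) := by
    refine hr.trans ?_
    have h1 : t + ‖v‖ ≤ 2 * (L * t) := by nlinarith
    have h2 : (t + ‖v‖) ^ 4 ≤ (2 * (L * t)) ^ 4 :=
      pow_le_pow_left₀ (by positivity) h1 4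
    have h3 := mul_le_mul_of_nonneg_left h2 hL0
    refine h3.trans (le_of_eq ?_)
    ring
  have hut : ‖u‖ ≤ t := by rw [ht]
  have hβL : ‖β‖ ≤ L := by rw [hβ, norm_neg]; exact hb0
  have hγL : ‖γ‖ ≤ 3 * L ^ 3 := by
    rw [hγ, norm_neg]
    have h1 : ‖a2 * β ^ 2‖ ≤ L * L ^ 2 := by
      rw [norm_mul, norm_pow]
      gcongr
    have h2 : ‖b1 * β‖ ≤ L * L := by
      rw [norm_mul]
      gcongr
    refine (norm_add_le_of_le (norm_add_le_of_le h1 h2) hc0).trans ?_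
    have := mono 2 3 0 (by norm_num)
    have := mono 1 3 0 (by norm_num)
    simp only [pow_zero, mul_one, pow_one] at *
    nlinarith
  have hδL : ‖δ‖ ≤ 13 * L ^ 5 := by
    rw [hδ, norm_neg]
    have h1 : ‖2 * a2 * β * γ‖ ≤ 2 * L * L * (3 * L ^ 3) := by
      rw [norm_mul, norm_mul, norm_mul, Complex.norm_ofNat]
      gcongr
    have h2 : ‖a3 * β ^ 3‖ ≤ L * L ^ 3 := by
      rw [norm_mul, norm_pow]
      gcongr
    have h3 : ‖b1 * γ‖ ≤ L * (3 * L ^ 3) := by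
      rw [norm_mul]
      gcongr
    have h4 : ‖b2 * β ^ 2‖ ≤ L * L ^ 2 := by
      rw [norm_mul, norm_pow]
      gcongr
    have h5 : ‖c1 * β‖ ≤ L * L := by
      rw [norm_mul]
      gcongr
    refine (norm_add_le_of_le (norm_add_le_of_le (norm_add_le_of_le (norm_add_le_of_le
      (norm_add_le_of_le h1 h2) h3) h4) h5) hd0).trans ?_
    have e1 := mono 4 5 0 (by norm_num)
    have e2 := mono 3 5 0 (by norm_num)
    have e3 := mono 2 5 0 (by norm_num)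
    have e4 := mono 1 5 0 (by norm_num)
    simp only [pow_zero, mul_one, pow_one] at e1 e2 e3 e4
    linarith
  -- first step
  have hw1 : ‖v - β * u‖ ≤ 11 * (L ^ 3 * t ^ 2) := by
    have e : v - β * u = r - (a2 * v ^ 2 + a3 * v ^ 3 + u * b1 * v + u * b2 * v ^ 2 +
        u ^ 2 * c0 + u ^ 2 * c1 * v + u ^ 3 * d0) := by
      rw [← heq, hβ]
      ring
    rw [e]
    have h1 : ‖a2 * v ^ 2‖ ≤ L * (L * t) ^ 2 := by
      rw [norm_mul, norm_pow]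
      gcongr
    have h2 : ‖a3 * v ^ 3‖ ≤ L * (L * t) ^ 3 := by
      rw [norm_mul, norm_pow]
      gcongr
    have h3 : ‖u * b1 * v‖ ≤ t * L * (L * t) := by
      rw [norm_mul, norm_mul]
      gcongr
    have h4 : ‖u * b2 * v ^ 2‖ ≤ t * L * (L * t) ^ 2 := by
      rw [norm_mul, norm_mul, norm_pow]
      gcongr
    have h5 : ‖u ^ 2 * c0‖ ≤ t ^ 2 * L := by
      rw [norm_mul, norm_pow]
      gcongr
    have h6 : ‖u ^ 2 * c1 * v‖ ≤ t ^ 2 * L * (L * t) := by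
      rw [norm_mul, norm_mul, norm_pow]
      gcongr
    have h7 : ‖u ^ 3 * d0‖ ≤ t ^ 3 * L := by
      rw [norm_mul, norm_pow]
      gcongr
    refine (norm_sub_le_of_le hr' (norm_add_le_of_le (norm_add_le_of_le (norm_add_le_of_le
      (norm_add_le_of_le (norm_add_le_of_le (norm_add_le_of_le h1 h2) h3) h4) h5) h6) h7)).trans ?_
    have m1 := half 4 3
    have m2 := half 3 2
    have m3 := mono 2 3 2 (by norm_num)
    have m4 := half 2 2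
    have m5 := mono 1 3 2 (by norm_num)
    have m6 := half 1 2
    have m7 := half 0 2
    have m8 := mono 0 3 2 (by norm_num)
    norm_num at m1 m2 m3 m4 m5 m6 m7 m8
    have p1 := pos 3 2
    nlinarith [m1, m2, m3, m4, m5, m6, m7, m8, p1]
  have hvs : ‖v + β * u‖ ≤ 2 * (L * t) := by
    have h1 : ‖β * u‖ ≤ L * t := by
      rw [norm_mul]
      gcongr
    exact (norm_add_le_of_le hv h1).trans (by linarith)
  have hq : ‖v ^ 2 - β ^ 2 * u ^ 2‖ ≤ 22 * (L ^ 4 * t ^ 3) := by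
    have e : v ^ 2 - β ^ 2 * u ^ 2 = (v - β * u) * (v + β * u) := by ring
    rw [e, norm_mul]
    refine (mul_le_mul hw1 hvs (norm_nonneg _) (by have := pos 3 2; linarith)).trans (le_of_eq ?_)
    ring
  -- second step
  have hw2 : ‖v - β * u - γ * u ^ 2‖ ≤ 45 * (L ^ 5 * t ^ 3) := by
    have e : v - β * u - γ * u ^ 2 = r - (a2 * (v ^ 2 - β ^ 2 * u ^ 2) + a3 * v ^ 3 +
        b1 * u * (v - β * u) + b2 * u * v ^ 2 + c1 * u ^ 2 * v + d0 * u ^ 3) := by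
      rw [← heq, hγ, hβ]
      ring
    rw [e]
    have h1 : ‖a2 * (v ^ 2 - β ^ 2 * u ^ 2)‖ ≤ L * (22 * (L ^ 4 * t ^ 3)) := by
      rw [norm_mul]
      gcongr
    have h2 : ‖a3 * v ^ 3‖ ≤ L * (L * t) ^ 3 := by
      rw [norm_mul, norm_pow]
      gcongr
    have h3 : ‖b1 * u * (v - β * u)‖ ≤ L * t * (11 * (L ^ 3 * t ^ 2)) := by
      rw [norm_mul, norm_mul]
      gcongr
    have h4 : ‖b2 * u * v ^ 2‖ ≤ L * t * (L * t) ^ 2 := by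
      rw [norm_mul, norm_mul, norm_pow]
      gcongr
    have h5 : ‖c1 * u ^ 2 * v‖ ≤ L * t ^ 2 * (L * t) := by
      rw [norm_mul, norm_mul, norm_pow]
      gcongr
    have h6 : ‖d0 * u ^ 3‖ ≤ L * t ^ 3 := by
      rw [norm_mul, norm_pow]
      gcongr
    refine (norm_sub_le_of_le hr' (norm_add_le_of_le (norm_add_le_of_le (norm_add_le_of_le
      (norm_add_le_of_le (norm_add_le_of_le h1 h2) h3) h4) h5) h6)).trans ?_
    have m1 := half 4 3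
    have m2 := mono 4 5 3 (by norm_num)
    have m3 := mono 3 5 3 (by norm_num)
    have m4 := mono 2 5 3 (by norm_num)
    have m5 := mono 1 5 3 (by norm_num)
    norm_num at m1 m2 m3 m4 m5
    nlinarith [m1, m2, m3, m4, m5]
  -- third step
  have hw3 : ‖v - β * u - γ * u ^ 2 - δ * u ^ 3‖ ≤ 250 * (L ^ 7 * t ^ 4) := by
    have e : v - β * u - γ * u ^ 2 - δ * u ^ 3 = r - (a2 * ((v - β * u - γ * u ^ 2) *
        (v + β * u) + γ * u ^ 2 * (v - β * u)) +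
        a3 * ((v - β * u) * (v ^ 2 + v * (β * u) + (β * u) ^ 2)) +
        b1 * u * (v - β * u - γ * u ^ 2) + b2 * u * (v ^ 2 - β ^ 2 * u ^ 2) +
        c1 * u ^ 2 * (v - β * u)) := by
      rw [← heq, hδ]
      have hγ' : c0 = -γ - a2 * β ^ 2 - b1 * β := by rw [hγ]; ring
      have hb : b0 = -β := by rw [hβ]; ring
      rw [hγ', hb]
      ring
    rw [e]
    have hβu : ‖β * u‖ ≤ L * t := by
      rw [norm_mul]
      gcongr
    have h1a : ‖(v - β * u - γ * u ^ 2) * (v + β * u)‖ ≤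
        45 * (L ^ 5 * t ^ 3) * (2 * (L * t)) := by
      rw [norm_mul]
      gcongr
    have h1b : ‖γ * u ^ 2 * (v - β * u)‖ ≤ 3 * L ^ 3 * t ^ 2 * (11 * (L ^ 3 * t ^ 2)) := by
      rw [norm_mul, norm_mul, norm_pow]
      gcongr
    have h1 : ‖a2 * ((v - β * u - γ * u ^ 2) * (v + β * u) + γ * u ^ 2 * (v - β * u))‖ ≤
        L * (45 * (L ^ 5 * t ^ 3) * (2 * (L * t)) +
          3 * L ^ 3 * t ^ 2 * (11 * (L ^ 3 * t ^ 2))) := by
      rw [norm_mul]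
      exact mul_le_mul ha2 (norm_add_le_of_le h1a h1b) (norm_nonneg _) hL0
    have h2a : ‖v ^ 2 + v * (β * u) + (β * u) ^ 2‖ ≤ 3 * (L * t) ^ 2 := by
      have k1 : ‖v ^ 2‖ ≤ (L * t) ^ 2 := by
        rw [norm_pow]
        gcongr
      have k2 : ‖v * (β * u)‖ ≤ (L * t) * (L * t) := by
        rw [norm_mul]
        gcongr
      have k3 : ‖(β * u) ^ 2‖ ≤ (L * t) ^ 2 := by
        rw [norm_pow]
        gcongr
      refine (norm_add_le_of_le (norm_add_le_of_le k1 k2) k3).trans (le_of_eq ?_)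
      ring
    have h2 : ‖a3 * ((v - β * u) * (v ^ 2 + v * (β * u) + (β * u) ^ 2))‖ ≤
        L * (11 * (L ^ 3 * t ^ 2) * (3 * (L * t) ^ 2)) := by
      rw [norm_mul, norm_mul]
      gcongr
    have h3 : ‖b1 * u * (v - β * u - γ * u ^ 2)‖ ≤ L * t * (45 * (L ^ 5 * t ^ 3)) := by
      rw [norm_mul, norm_mul]
      gcongr
    have h4 : ‖b2 * u * (v ^ 2 - β ^ 2 * u ^ 2)‖ ≤ L * t * (22 * (L ^ 4 * t ^ 3)) := by
      rw [norm_mul, norm_mul]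
      gcongr
    have h5 : ‖c1 * u ^ 2 * (v - β * u)‖ ≤ L * t ^ 2 * (11 * (L ^ 3 * t ^ 2)) := by
      rw [norm_mul, norm_mul, norm_pow]
      gcongr
    refine (norm_sub_le_of_le hr' (norm_add_le_of_le (norm_add_le_of_le (norm_add_le_of_le
      (norm_add_le_of_le h1 h2) h3) h4) h5)).trans ?_
    have m1 := mono 6 7 4 (by norm_num)
    have m2 := mono 5 7 4 (by norm_num)
    have m3 := mono 4 7 4 (by norm_num)
    nlinarith [m1, m2, m3]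
  refine ⟨hβL, hγL, hδL, ?_, ?_⟩
  · refine hw1.trans (le_of_eq ?_)
    ring
  · refine hw3.trans (le_of_eq ?_)
    ring

end Pool.Agent.H8.MP
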