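import Pool.Agent.H8.NoPt.Basic
import Pool.Agent.H72.ES.GaForm
import Pool.Agent.H72.ES.ExpandG

/-! # Curves through given integer points: definitions

Conventions of `Pool.Agent.H8.NoPt.Defs` and `Pool.Agent.H72.ES.Defs`. `tc n F θ i j` are the
Taylor coefficients of `evt n F t (θ + v) = ∑ tc i j t^i v^j` (`t = 1/x`, `θ + v = y/x`), and
`be, ga, de` are the first coefficients of the branch `y = θ x + be + ga/x + de/x² + ...` at a
simple root `θ` of the leading form. -/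

namespace Pool.Agent.H8.MP

open Finset Polynomial Pool.Agent.H72.ES Pool.Agent.H8.NoPt

/-- second coefficient of the branch -/
noncomputable def be (n : ℕ) (F : ℕ → ℕ → ℤ) (θ : ℂ) : ℂ := -(tc n F θ 1 0) / tc n F θ 0 1

/-- third coefficient of the branch -/
noncomputable def ga (n : ℕ) (F : ℕ → ℕ → ℤ) (θ : ℂ) : ℂ :=
  -(tc n F θ 0 2 * be n F θ ^ 2 + tc n F θ 1 1 * be n F θ + tc n F θ 2 0) / tc n F θ 0 1

/-- fourth coefficient of the branch -/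
noncomputable def de (n : ℕ) (F : ℕ → ℕ → ℤ) (θ : ℂ) : ℂ :=
  -(2 * tc n F θ 0 2 * be n F θ * ga n F θ + tc n F θ 0 3 * be n F θ ^ 3 +
    tc n F θ 1 1 * ga n F θ + tc n F θ 1 2 * be n F θ ^ 2 + tc n F θ 2 1 * be n F θ +
    tc n F θ 3 0) / tc n F θ 0 1

/-- no simple point at infinity is a flex, and the third coefficient of the branch is at least
`1/M` for the roots of absolute value at most `2` -/
def Gam (n : ℕ) (M : ℝ) (F : ℕ → ℕ → ℤ) : Prop := ∀ θ : ℂ, (hp n F).IsRoot θ →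
  tc n F θ 0 1 ≠ 0 → flexv n F θ ≠ 0 ∧ (‖θ‖ ≤ 2 → ‖tc n F θ 0 1‖ ^ 3 / M ≤ ‖flexv n F θ‖)

/-- typical arrays (note the two different parameters `M` and `M^2`) -/
structure Typ (n H : ℕ) (M : ℝ) (F : ℕ → ℕ → ℤ) : Prop where
  s1 : Simp n H M F
  s2 : Simp n H M (tr F)
  irr : LeadIrr n F
  g1 : Gam n (M ^ 2) F
  g2 : Gam n (M ^ 2) (tr F)

/-- `P` lies on a curve of height `≤ H` with the same terms of degree `≥ n - 3` as `G` -/
def Cand (n H : ℕ) (G : ℕ → ℕ → ℤ) (P : ℤ × ℤ) : Prop :=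
  ∃ F : ℕ → ℕ → ℤ, Bdd n H F ∧ Top4 n F G ∧ ev n F P.1 P.2 = 0

/-- indices of the monomials of degree `≤ n - 4` -/
abbrev Low {n : ℕ} (i : Ix n) : Prop := (i.1.1 : ℕ) + (i.1.2 : ℕ) + 4 ≤ n

/-- the points of `T` are separated by polynomials of degree `≤ n - 4` -/
def Sep (n : ℕ) (T : Finset (ℤ × ℤ)) : Prop := ∀ P ∈ T, ∃ q : Ix n → ℤ,
  (∀ i, ¬ Low i → q i = 0) ∧ (∀ Q ∈ T, Q ≠ P → ev n (arr q) Q.1 Q.2 = 0) ∧
  ev n (arr q) P.1 P.2 ≠ 0

/-- for every integer point `P` some polynomial of degree `≤ n - 4` vanishes on `S ∖ {P}` and not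
at `P` -/
def Star (n : ℕ) (S : Finset (ℤ × ℤ)) : Prop := ∀ P : ℤ × ℤ, ∃ q : Ix n → ℤ,
  (∀ i, ¬ Low i → q i = 0) ∧ (∀ Q ∈ S, Q ≠ P → ev n (arr q) Q.1 Q.2 = 0) ∧
  ev n (arr q) P.1 P.2 ≠ 0

end Pool.Agent.H8.MP
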