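import Pool.Agent.H8.MP.FibS

/-! # [MP LOWB] Many curves through `S`

Pigeonhole: the `(H+1)^N` vectors with entries in `[0,H]` (`N = card (Ix n)`) have values at the
points of `S` bounded by `B H`, `B = max_{P ∈ S} ∑_i |mon P i|` (at least `1`), so at most
`(2BH+1)^#S` value vectors; some value vector is attained by at least
`(H+1)^N/(2BH+1)^#S` vectors; subtract one of them: these differences have entries in `[-H,H]`,
vanish on `S`. `H+1 ≥ (2H+1)/2`, `2BH+1 ≤ B(2H+1)`; so the number is at least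
`2^(-N) B^(-#S) (2H+1)^(N-#S)` (`#S ≤ N`, given as hypothesis). -/

namespace Pool.Agent.H8.MP

open Finset Pool.Agent.H72.ES Pool.Agent.H8.NoPt

open Classical in
theorem many_curves (n : ℕ) (S : Finset (ℤ × ℤ)) (hS : S.card ≤ Fintype.card (Ix n)) :
    ∃ c : ℝ, 0 < c ∧ ∀ H : ℕ, 1 ≤ H →
      c * (2 * H + 1 : ℝ) ^ (Fintype.card (Ix n) - S.card) ≤
        (((Fintype.piFinset fun _ : Ix n => Icc (-(H : ℤ)) H).filter
          fun a => ∀ P ∈ S, ev n (arr a) P.1 P.2 = 0).card : ℝ) := by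
  set N := Fintype.card (Ix n) with hN
  set B : ℕ := 1 + ∑ P ∈ S, ∑ i : Ix n, (P.1 ^ (i.1.1 : ℕ) * P.2 ^ (i.1.2 : ℕ)).natAbs with hB
  refine ⟨1 / (2 ^ N * (B : ℝ) ^ S.card), by positivity, ?_⟩
  intro H hH
  set T := (Fintype.piFinset fun _ : Ix n => Icc (-(H : ℤ)) H).filter
    fun a => ∀ P ∈ S, ev n (arr a) P.1 P.2 = 0 with hT
  set B0 : Finset (Ix n → ℤ) := Fintype.piFinset fun _ : Ix n => Icc (0 : ℤ) H with hB0
  have hB0c : B0.card = (H + 1) ^ N := by
    rw [hB0, Fintype.card_piFinset]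
    simp only [Int.card_Icc, prod_const, card_univ]
    have : ((H : ℤ) + 1 - 0).toNat = H + 1 := by omega
    rw [this]
  set V : (Ix n → ℤ) → ({P // P ∈ S} → ℤ) := fun a P => ev n (arr a) P.1.1 P.1.2 with hV
  set W : Finset ({P // P ∈ S} → ℤ) :=
    Fintype.piFinset fun _ => Icc (-((B * H : ℕ) : ℤ)) ((B * H : ℕ) : ℤ) with hW
  have hWc : W.card = (2 * (B * H) + 1) ^ S.card := by
    rw [hW, Fintype.card_piFinset]
    simp only [Int.card_Icc, prod_const, card_univ, Fintype.card_coe]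
    congr 1
    omega
  have hmem0 : ∀ a ∈ B0, ∀ i, 0 ≤ a i ∧ a i ≤ (H : ℤ) := by
    intro a ha i
    rw [hB0, Fintype.mem_piFinset] at ha
    exact mem_Icc.1 (ha i)
  have hmaps : ∀ a ∈ B0, V a ∈ W := by
    intro a ha
    rw [hW, Fintype.mem_piFinset]
    intro P
    rw [mem_Icc, ← abs_le]
    simp only [hV]
    rw [ev_arr_sum]
    refine (abs_sum_le_sum_abs _ _).trans ?_
    have h1 : ∀ i ∈ (univ : Finset (Ix n)), |a i * (P.1.1 ^ (i.1.1 : ℕ) * P.1.2 ^ (i.1.2 : ℕ))| ≤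
        (H : ℤ) * ((P.1.1 ^ (i.1.1 : ℕ) * P.1.2 ^ (i.1.2 : ℕ)).natAbs : ℤ) := by
      intro i _
      rw [abs_mul, Int.natCast_natAbs]
      have := hmem0 a ha i
      rw [abs_of_nonneg this.1]
      exact mul_le_mul_of_nonneg_right this.2 (abs_nonneg _)
    refine (sum_le_sum h1).trans ?_
    rw [← mul_sum]
    have h2 : ∑ i : Ix n, (P.1.1 ^ (i.1.1 : ℕ) * P.1.2 ^ (i.1.2 : ℕ)).natAbs ≤ B := by
      rw [hB]
      have := single_le_sum (f := fun P : ℤ × ℤ => ∑ i : Ix n,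
        (P.1 ^ (i.1.1 : ℕ) * P.2 ^ (i.1.2 : ℕ)).natAbs) (fun _ _ => Nat.zero_le _) P.2
      omega
    have h3 : ((∑ i : Ix n, (P.1.1 ^ (i.1.1 : ℕ) * P.1.2 ^ (i.1.2 : ℕ)).natAbs : ℕ) : ℤ) ≤ B := by
      exact_mod_cast h2
    push_cast at h3 ⊢
    have hH0 : (0 : ℤ) ≤ H := Int.natCast_nonneg H
    nlinarith
  have hfib : ∀ v ∈ W, (B0.filter fun a => V a = v).card ≤ T.card := by
    intro v _
    rcases (B0.filter fun a => V a = v).eq_empty_or_nonempty with h0 | ⟨a0, ha0⟩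
    · rw [h0]; simp
    · rw [mem_filter] at ha0
      refine card_le_card_of_injOn (fun a => a - a0) ?_ ?_
      · intro a ha
        rw [mem_coe, mem_filter] at ha
        rw [mem_coe, hT, mem_filter, Fintype.mem_piFinset]
        constructor
        · intro i
          have h1 := hmem0 a ha.1 i
          have h2 := hmem0 a0 ha0.1 i
          rw [mem_Icc]
          change -(H : ℤ) ≤ a i - a0 i ∧ a i - a0 i ≤ (H : ℤ)
          constructor <;> linarith [h1.1, h1.2, h2.1, h2.2]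
        · intro P hP
          have h1 : V a ⟨P, hP⟩ = V a0 ⟨P, hP⟩ := by rw [ha.2, ha0.2]
          simp only [hV] at h1
          rw [ev_arr_sum] at h1 ⊢
          rw [ev_arr_sum] at h1
          simp only [Pi.sub_apply, sub_mul, sum_sub_distrib]
          linarith
      · intro a _ b _ h
        simp only at h
        exact sub_left_injective h
  have hmain : B0.card ≤ T.card * W.card := card_le_mul_card_image_of_maps_to hmaps _ hfib
  rw [hB0c, hWc] at hmain
  have hmainR : ((H : ℝ) + 1) ^ N ≤ (T.card : ℝ) * (2 * (B * H) + 1 : ℝ) ^ S.card := by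
    exact_mod_cast hmain
  have hB1 : (1 : ℝ) ≤ B := by
    have : 1 ≤ B := by rw [hB]; omega
    exact_mod_cast this
  have hH1 : (1 : ℝ) ≤ H := by exact_mod_cast hH
  set K : ℝ := 2 * H + 1 with hK
  have hK0 : 0 < K := by positivity
  have e1 : K ^ N ≤ 2 ^ N * ((H : ℝ) + 1) ^ N := by
    rw [← mul_pow]
    apply pow_le_pow_left₀ hK0.le
    rw [hK]; linarith
  have e2 : (2 * (B * H) + 1 : ℝ) ^ S.card ≤ (B : ℝ) ^ S.card * K ^ S.card := by
    rw [← mul_pow]
    apply pow_le_pow_left₀ (by positivity)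
    rw [hK]; nlinarith
  have e3 : K ^ N = K ^ (N - S.card) * K ^ S.card := by
    rw [← pow_add]; congr 1; omega
  have hKs : 0 < K ^ S.card := by positivity
  have e4 : K ^ (N - S.card) * K ^ S.card ≤
      (2 ^ N * (B : ℝ) ^ S.card * (T.card : ℝ)) * K ^ S.card := by
    rw [← e3]
    calc K ^ N ≤ 2 ^ N * ((H : ℝ) + 1) ^ N := e1
      _ ≤ 2 ^ N * ((T.card : ℝ) * (2 * (B * H) + 1 : ℝ) ^ S.card) := by gcongr
      _ ≤ 2 ^ N * ((T.card : ℝ) * ((B : ℝ) ^ S.card * K ^ S.card)) := by gcongr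
      _ = _ := by ring
  have e5 := le_of_mul_le_mul_right e4 hKs
  rw [div_mul_eq_mul_div, one_mul, div_le_iff₀ (by positivity)]
  linarith

end Pool.Agent.H8.MP
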