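import Pool.Agent.H8.MP.VecC
import Pool.Agent.H8.MP.LowB
import Pool.Agent.H8.NoPt.Mv

/-! # [MP POLY] Translation to polynomials

`toVec n : PolyBox n H → box` is a bijection (`mv_image`, `mv_injOn`) with
`MvPolynomial.eval ![x, y] F = ev n (arr (toVec n F)) x y` (`eval_toVec`). `StarP` gives `Star`
(take `toVec n q`; coefficients of degree `> n - 4` vanish by `mv_coeff_zero`).
Combine `vec_count` and `many_curves` (`#S ≤ card (Ix n)` from `fib_sep`). -/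

namespace Pool.Agent.H8.MP

open Finset Pool.Agent.H72.ES Pool.Agent.H8.NoPt

/-- the condition on `S` in terms of polynomials -/
def StarP (n : ℕ) (S : Finset (ℤ × ℤ)) : Prop := ∀ P : ℤ × ℤ, ∃ q : MvPolynomial (Fin 2) ℤ,
  q.totalDegree + 4 ≤ n ∧ (∀ Q ∈ S, Q ≠ P → MvPolynomial.eval ![Q.1, Q.2] q = 0) ∧
  MvPolynomial.eval ![P.1, P.2] q ≠ 0

theorem StarP.star {n : ℕ} (hn : 4 ≤ n) {S : Finset (ℤ × ℤ)} (h : StarP n S) : Star n S := by
  intro P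
  obtain ⟨q, hq, h0, h1⟩ := h P
  refine ⟨toVec n q, fun i hi => ?_, fun Q hQ hQP => ?_, ?_⟩
  · have hi' : n < (i.1.1 : ℕ) + (i.1.2 : ℕ) + 4 := not_le.1 hi
    unfold toVec
    refine mv_coeff_zero (n := n - 4) (by omega) ?_
    rw [mv_expo_zero, mv_expo_one]
    omega
  · rw [← eval_toVec n (by omega)]
    exact h0 Q hQ hQP
  · rw [← eval_toVec n (by omega)]
    exact h1

theorem marked (n : ℕ) (hn : 4 ≤ n) (S : Finset (ℤ × ℤ)) (hS : StarP n S) :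
    ∃ C : ℝ, ∀ H : ℕ, 1 ≤ H →
    (({F : MvPolynomial (Fin 2) ℤ | F.totalDegree ≤ n ∧ (∀ m, |F.coeff m| ≤ (H : ℤ)) ∧
        (∀ P ∈ S, MvPolynomial.eval ![P.1, P.2] F = 0) ∧
        ∃ P : ℤ × ℤ, P ∉ S ∧ MvPolynomial.eval ![P.1, P.2] F = 0}.ncard : ℕ) : ℝ) ≤
      C * (H : ℝ) ^ (-(1 / 8 : ℝ)) *
        (({F : MvPolynomial (Fin 2) ℤ | F.totalDegree ≤ n ∧ (∀ m, |F.coeff m| ≤ (H : ℤ)) ∧
          ∀ P ∈ S, MvPolynomial.eval ![P.1, P.2] F = 0}.ncard : ℕ) : ℝ) := by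
  classical
  have hst := hS.star hn
  obtain ⟨C1, hC1, h1⟩ := vec_count n hn S hst
  have hcard : S.card ≤ Fintype.card (Ix n) := by
    have h := (fib_sep (H := 1) hst.sep 0 ∅ (by simp)).1
    exact h.trans (Fintype.card_subtype_le _)
  obtain ⟨c, hc, h2⟩ := many_curves n S hcard
  refine ⟨C1 / c, fun H hH => ?_⟩
  set A : Set (MvPolynomial (Fin 2) ℤ) := {F | F.totalDegree ≤ n ∧ (∀ m, |F.coeff m| ≤ (H : ℤ)) ∧
    (∀ P ∈ S, MvPolynomial.eval ![P.1, P.2] F = 0) ∧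
    ∃ P : ℤ × ℤ, P ∉ S ∧ MvPolynomial.eval ![P.1, P.2] F = 0} with hA
  set B : Set (MvPolynomial (Fin 2) ℤ) := {F | F.totalDegree ≤ n ∧ (∀ m, |F.coeff m| ≤ (H : ℤ)) ∧
    ∀ P ∈ S, MvPolynomial.eval ![P.1, P.2] F = 0} with hB
  have hAP : A ⊆ PolyBox n H := fun F hF => ⟨hF.1, hF.2.1⟩
  have hBP : B ⊆ PolyBox n H := fun F hF => ⟨hF.1, hF.2.1⟩
  have hAfin : (toVec n '' A).Finite := ((polyBox_finite n H).subset hAP).image _
  have hBfin : (toVec n '' B).Finite := ((polyBox_finite n H).subset hBP).image _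
  have hAc : (A.ncard : ℝ) ≤ C1 * (H : ℝ) ^ (-(1 / 8 : ℝ)) *
      (2 * H + 1 : ℝ) ^ (Fintype.card (Ix n) - S.card) := by
    rw [← Set.InjOn.ncard_image ((mv_injOn n H).mono hAP), Set.ncard_eq_toFinset_card _ hAfin]
    refine h1 H hH _ ?_
    intro a ha
    rw [Set.Finite.mem_toFinset] at ha
    obtain ⟨F, ⟨hd, hb, hz, P, hP, hPz⟩, rfl⟩ := ha
    refine ⟨fun i => hb _, fun Q hQ => ?_, P, hP, ?_⟩
    · rw [← eval_toVec n hd]
      exact hz Q hQ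
    · rw [← eval_toVec n hd]
      exact hPz
  have hBc : c * (2 * H + 1 : ℝ) ^ (Fintype.card (Ix n) - S.card) ≤ (B.ncard : ℝ) := by
    refine (h2 H hH).trans ?_
    rw [← Set.InjOn.ncard_image ((mv_injOn n H).mono hBP), Set.ncard_eq_toFinset_card _ hBfin]
    refine Nat.cast_le.2 (card_le_card ?_)
    intro a ha
    rw [mem_filter, Fintype.mem_piFinset] at ha
    rw [Set.Finite.mem_toFinset]
    refine ⟨mvPoly n a, ⟨mv_degree_poly n a, fun m => ?_, fun P hP => ?_⟩, mv_toVec_poly n a⟩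
    · rcases mv_coeff_poly n a m with h3 | ⟨k, h3⟩
      · rw [h3, abs_zero]
        exact Int.natCast_nonneg H
      · rw [h3]
        exact abs_le.2 (mem_Icc.1 (ha.1 k))
    · rw [eval_toVec n (mv_degree_poly n a), mv_toVec_poly]
      exact ha.2 P hP
  have hpos : 0 ≤ C1 * (H : ℝ) ^ (-(1 / 8 : ℝ)) := by positivity
  have h5 : (2 * H + 1 : ℝ) ^ (Fintype.card (Ix n) - S.card) ≤ (B.ncard : ℝ) / c := by
    rw [le_div_iff₀ hc, mul_comm]
    exact hBc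
  calc (A.ncard : ℝ) ≤ C1 * (H : ℝ) ^ (-(1 / 8 : ℝ)) *
        (2 * H + 1 : ℝ) ^ (Fintype.card (Ix n) - S.card) := hAc
    _ ≤ C1 * (H : ℝ) ^ (-(1 / 8 : ℝ)) * ((B.ncard : ℝ) / c) := mul_le_mul_of_nonneg_left h5 hpos
    _ = C1 / c * (H : ℝ) ^ (-(1 / 8 : ℝ)) * (B.ncard : ℝ) := by ring

end Pool.Agent.H8.MP
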