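import Mathlib

/-! # [MP STAR] Examples of sets `S` satisfying the condition

* `star_card`: `S` with `#S + 4 ≤ n`. For `P` take the product over `Q ∈ S`, `Q ≠ P`, of
`X 0 - C Q.1` if `Q.1 ≠ P.1` and `X 1 - C Q.2` otherwise; degree `≤ #S`.
* `star_tri`: `T = {(i,j) : i, j ≥ 0, i + j + 5 ≤ n}`, `n ≥ 4`. If `P = (a,b) ∈ T`: product of
`X 0 - k` for `k < a`, `X 1 - k` for `k < b` and `X 0 + X 1 - k` for `a + b < k ≤ n - 5`; degree
`a + b + (n - 5 - a - b) = n - 5`; vanishes at `(i,j) ∈ T` unless `i ≥ a`, `j ≥ b`,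
`i + j ≤ a + b`. If `P = (a,b) ∉ T`: if `a < 0` take `∏_{k ≤ n-5} (X 0 - k)` (degree `n - 4`,
vanishes on `T`, not at `P`), if `b < 0` the same with `X 1`; if `a, b ≥ 0`, `a + b + 5 > n`:
`a' = min a (n-4)`, `∏_{k < a'} (X 0 - k) ∏_{k < n-4-a'} (X 1 - k)`: at `(i,j) ∈ T` either
`i < a'` or `j ≤ n - 5 - a' `; at `P`: `a ≥ a'`, and `b ≥ n - 4 - a'`. -/

namespace Pool.Agent.H8.MP

open Finset MvPolynomial

private lemma starEx_deg1 (i : Fin 2) (c : ℤ) :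
    (X i - C c : MvPolynomial (Fin 2) ℤ).totalDegree ≤ 1 := by
  refine (totalDegree_sub _ _).trans ?_
  rw [totalDegree_C, totalDegree_X]
  simp

private lemma starEx_deg2 (c : ℤ) :
    (X 0 + X 1 - C c : MvPolynomial (Fin 2) ℤ).totalDegree ≤ 1 := by
  refine (totalDegree_sub _ _).trans ?_
  rw [totalDegree_C]
  refine max_le ((totalDegree_add _ _).trans ?_) (by omega)
  rw [totalDegree_X, totalDegree_X]
  simp

private lemma starEx_prod {ι : Type} (s : Finset ι) (f : ι → MvPolynomial (Fin 2) ℤ)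
    (h : ∀ i ∈ s, (f i).totalDegree ≤ 1) : (∏ i ∈ s, f i).totalDegree ≤ s.card := by
  refine (totalDegree_finset_prod s f).trans ?_
  refine (Finset.sum_le_sum h).trans ?_
  simp

theorem star_card (n : ℕ) (S : Finset (ℤ × ℤ)) (hS : S.card + 4 ≤ n) (P : ℤ × ℤ) :
    ∃ q : MvPolynomial (Fin 2) ℤ, q.totalDegree + 4 ≤ n ∧
      (∀ Q ∈ S, Q ≠ P → eval ![Q.1, Q.2] q = 0) ∧ eval ![P.1, P.2] q ≠ 0 := by
  classical
  refine ⟨∏ Q ∈ S.erase P, (if Q.1 ≠ P.1 then X 0 - C Q.1 else X 1 - C Q.2), ?_, ?_, ?_⟩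
  · have h1 : (∏ Q ∈ S.erase P, (if Q.1 ≠ P.1 then X 0 - C Q.1 else X 1 - C Q.2 :
        MvPolynomial (Fin 2) ℤ)).totalDegree ≤ (S.erase P).card := by
      refine starEx_prod _ _ fun Q _ => ?_
      split_ifs
      · exact starEx_deg1 0 _
      · exact starEx_deg1 1 _
    have h2 : (S.erase P).card ≤ S.card := Finset.card_le_card (Finset.erase_subset P S)
    omega
  · intro Q hQ hQP
    rw [map_prod]
    refine Finset.prod_eq_zero (Finset.mem_erase.2 ⟨hQP, hQ⟩) ?_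
    split_ifs
    · simp
    · simp
  · rw [map_prod]
    refine Finset.prod_ne_zero_iff.2 fun Q hQ => ?_
    have hQP := (Finset.mem_erase.1 hQ).1
    split_ifs with h
    · simp only [map_sub, eval_X, eval_C, Matrix.cons_val_zero]
      exact fun h0 => h (by omega)
    · simp only [map_sub, eval_X, eval_C, Matrix.cons_val_one, Matrix.cons_val_fin_one]
      intro h0
      apply hQP
      push Not at h
      exact Prod.ext h (by omega)

private lemma starEx_q (A B D : ℕ) (m : ℤ) : ∃ q : MvPolynomial (Fin 2) ℤ,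
    q.totalDegree ≤ A + B + D ∧ ∀ i j : ℤ, eval ![i, j] q = 0 ↔
      (0 ≤ i ∧ i < A) ∨ (0 ≤ j ∧ j < B) ∨ (m ≤ i + j ∧ i + j < m + D) := by
  classical
  refine ⟨(∏ k ∈ range A, (X 0 - C (k : ℤ))) * (∏ k ∈ range B, (X 1 - C (k : ℤ))) *
    ∏ k ∈ range D, (X 0 + X 1 - C (m + (k : ℤ))), ?_, ?_⟩
  · have h1 := starEx_prod (range A) (fun k => X 0 - C (k : ℤ)) (fun k _ => starEx_deg1 0 _)
    have h2 := starEx_prod (range B) (fun k => X 1 - C (k : ℤ)) (fun k _ => starEx_deg1 1 _)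
    have h3 := starEx_prod (range D) (fun k => X 0 + X 1 - C (m + (k : ℤ)))
      (fun k _ => starEx_deg2 _)
    rw [card_range] at h1 h2 h3
    refine (totalDegree_mul _ _).trans ?_
    refine (Nat.add_le_add_right (totalDegree_mul _ _) _).trans ?_
    omega
  · intro i j
    rw [map_mul, map_mul, mul_eq_zero, mul_eq_zero, map_prod, map_prod, map_prod,
      Finset.prod_eq_zero_iff, Finset.prod_eq_zero_iff, Finset.prod_eq_zero_iff]
    simp only [map_sub, map_add, eval_X, eval_C, Matrix.cons_val_zero, Matrix.cons_val_one,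
      Matrix.cons_val_fin_one, mem_range]
    constructor
    · rintro ((⟨k, hk, h⟩ | ⟨k, hk, h⟩) | ⟨k, hk, h⟩)
      · left; omega
      · right; left; omega
      · right; right; omega
    · rintro (⟨h1, h2⟩ | ⟨h1, h2⟩ | ⟨h1, h2⟩)
      · left; left; exact ⟨i.toNat, by omega, by omega⟩
      · left; right; exact ⟨j.toNat, by omega, by omega⟩
      · right; exact ⟨(i + j - m).toNat, by omega, by omega⟩

theorem star_tri (n : ℕ) (hn : 4 ≤ n) (S : Finset (ℤ × ℤ))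
    (hS : ∀ Q ∈ S, 0 ≤ Q.1 ∧ 0 ≤ Q.2 ∧ Q.1 + Q.2 + 5 ≤ (n : ℤ))
    (hS' : ∀ Q : ℤ × ℤ, 0 ≤ Q.1 → 0 ≤ Q.2 → Q.1 + Q.2 + 5 ≤ (n : ℤ) → Q ∈ S) (P : ℤ × ℤ) :
    ∃ q : MvPolynomial (Fin 2) ℤ, q.totalDegree + 4 ≤ n ∧
      (∀ Q ∈ S, Q ≠ P → eval ![Q.1, Q.2] q = 0) ∧ eval ![P.1, P.2] q ≠ 0 := by
  obtain ⟨a, b⟩ := P
  have key : ∀ (A B D : ℕ) (m : ℤ), A + B + D + 4 ≤ n →
      (∀ i j : ℤ, 0 ≤ i → 0 ≤ j → i + j + 5 ≤ (n : ℤ) → ¬ (i = a ∧ j = b) →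
        (0 ≤ i ∧ i < A) ∨ (0 ≤ j ∧ j < B) ∨ (m ≤ i + j ∧ i + j < m + D)) →
      (¬ ((0 ≤ a ∧ a < A) ∨ (0 ≤ b ∧ b < B) ∨ (m ≤ a + b ∧ a + b < m + D))) →
      ∃ q : MvPolynomial (Fin 2) ℤ, q.totalDegree + 4 ≤ n ∧
      (∀ Q ∈ S, Q ≠ (a, b) → eval ![Q.1, Q.2] q = 0) ∧ eval ![a, b] q ≠ 0 := by
    intro A B D m h1 h2 h3
    obtain ⟨q, hq1, hq2⟩ := starEx_q A B D m
    refine ⟨q, by omega, ?_, ?_⟩
    · intro Q hQ hQP
      obtain ⟨e1, e2, e3⟩ := hS Q hQ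
      refine (hq2 _ _).2 (h2 Q.1 Q.2 e1 e2 e3 ?_)
      rintro ⟨e4, e5⟩
      exact hQP (Prod.ext e4 e5)
    · intro h0
      exact h3 ((hq2 _ _).1 h0)
  show ∃ q : MvPolynomial (Fin 2) ℤ, q.totalDegree + 4 ≤ n ∧
      (∀ Q ∈ S, Q ≠ (a, b) → eval ![Q.1, Q.2] q = 0) ∧ eval ![a, b] q ≠ 0
  rcases lt_or_ge a 0 with ha | ha
  · exact key (n - 4) 0 0 0 (by omega) (fun i j h1 h2 h3 _ => by omega) (by omega)
  rcases lt_or_ge b 0 with hb | hb
  · exact key 0 (n - 4) 0 0 (by omega) (fun i j h1 h2 h3 _ => by omega) (by omega)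
  by_cases hab : a + b + 5 ≤ (n : ℤ)
  · exact key a.toNat b.toNat (n - 5 - a.toNat - b.toNat) (a + b + 1) (by omega)
      (fun i j h1 h2 h3 h4 => by omega) (by omega)
  · exact key (min a.toNat (n - 4)) (n - 4 - min a.toNat (n - 4)) 0 0 (by omega)
      (fun i j h1 h2 h3 h4 => by omega) (by omega)

end Pool.Agent.H8.MP
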