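import Mathlib

/-! # [MP THREE] Three collinear integer points near a curved branch are close together

`e_k = y_k - θ x_k - β = γ/x_k + δ/x_k² + E_k`, `‖E_k‖ ≤ K/X³`. Collinearity gives
`∑_cyc e_k (x_{k+1} - x_{k+2}) = 0`. With `V = (x1-x2)(x2-x3)(x3-x1)`, `Π = x1 x2 x3`:
`∑_cyc (x_{k+1} - x_{k+2})/x_k = -V/Π`,
`∑_cyc (x_{k+1} - x_{k+2})/x_k² = -V (x1x2+x2x3+x3x1)/Π² = -(V/Π)(1/x1+1/x2+1/x3)`.
So `‖V/Π‖ ‖γ + δ (1/x1+1/x2+1/x3)‖ ≤ (K/X³)(|x1-x2|+|x2-x3|+|x3-x1|) ≤ (K/X³) 2 |x1-x3|`, and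
`‖δ (1/x1+1/x2+1/x3)‖ ≤ 3‖δ‖/X ≤ ‖γ‖/2`, `|Π| ≤ 8X³`. Hence `‖γ‖ |V| ≤ 32 K |x1-x3|`. -/

namespace Pool.Agent.H8.MP

/-- the identity -/
private theorem three_id (θ β γ δ a b c u v w : ℂ) (ha : a ≠ 0) (hb : b ≠ 0) (hc : c ≠ 0)
    (hcol : (b - a) * (w - u) = (c - a) * (v - u)) :
    (a - b) * (b - c) * (c - a) * (γ + δ * (1 / a + 1 / b + 1 / c)) =
      a * b * c * ((u - θ * a - β - γ / a - δ / a ^ 2) * (b - c) +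
        (v - θ * b - β - γ / b - δ / b ^ 2) * (c - a) +
        (w - θ * c - β - γ / c - δ / c ^ 2) * (a - b)) := by
  have h0 : u * (b - c) + v * (c - a) + w * (a - b) = 0 := by linear_combination -hcol
  have h1 : (u - θ * a - β - γ / a - δ / a ^ 2) * (b - c) +
        (v - θ * b - β - γ / b - δ / b ^ 2) * (c - a) +
        (w - θ * c - β - γ / c - δ / c ^ 2) * (a - b) =
      -(γ * ((b - c) / a + (c - a) / b + (a - b) / c) +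
        δ * ((b - c) / a ^ 2 + (c - a) / b ^ 2 + (a - b) / c ^ 2)) := by
    linear_combination h0
  rw [h1]
  field_simp
  ring

theorem three_col (θ β γ δ : ℂ) (K X : ℝ) (hX : 0 < X) (hK : 0 ≤ K) (x1 x2 x3 y1 y2 y3 : ℤ)
    (h1 : X ≤ |(x1 : ℝ)| ∧ |(x1 : ℝ)| ≤ 2 * X) (h2 : X ≤ |(x2 : ℝ)| ∧ |(x2 : ℝ)| ≤ 2 * X)
    (h3 : X ≤ |(x3 : ℝ)| ∧ |(x3 : ℝ)| ≤ 2 * X)
    (e1 : ‖(y1 : ℂ) - θ * x1 - β - γ / x1 - δ / x1 ^ 2‖ ≤ K / X ^ 3)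
    (e2 : ‖(y2 : ℂ) - θ * x2 - β - γ / x2 - δ / x2 ^ 2‖ ≤ K / X ^ 3)
    (e3 : ‖(y3 : ℂ) - θ * x3 - β - γ / x3 - δ / x3 ^ 2‖ ≤ K / X ^ 3)
    (hδ : 6 * ‖δ‖ ≤ ‖γ‖ * X)
    (hcol : (x2 - x1) * (y3 - y1) = (x3 - x1) * (y2 - y1))
    (h13 : x1 < x3) (h12 : x1 ≤ x2) (h23 : x2 ≤ x3) :
    ‖γ‖ * ((x2 - x1 : ℝ) * (x3 - x2)) ≤ 32 * K := by
  have ne : ∀ x : ℤ, X ≤ |(x : ℝ)| → (x : ℂ) ≠ 0 := by
    intro x hx h
    have h0 : x = 0 := by exact_mod_cast h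
    rw [h0, Int.cast_zero, abs_zero] at hx
    linarith
  have hn : ∀ x : ℤ, ‖(x : ℂ)‖ = |(x : ℝ)| := fun x => by
    rw [← Complex.ofReal_intCast, Complex.norm_real, Real.norm_eq_abs]
  have hcol' : ((x2 : ℂ) - x1) * (y3 - y1) = (x3 - x1) * (y2 - y1) := by exact_mod_cast hcol
  have key := three_id θ β γ δ (x1 : ℂ) x2 x3 y1 y2 y3 (ne x1 h1.1) (ne x2 h2.1) (ne x3 h3.1) hcol'
  have d12 : (0 : ℝ) ≤ (x2 : ℝ) - x1 := by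
    have : (x1 : ℝ) ≤ x2 := by exact_mod_cast h12
    linarith
  have d23 : (0 : ℝ) ≤ (x3 : ℝ) - x2 := by
    have : (x2 : ℝ) ≤ x3 := by exact_mod_cast h23
    linarith
  have d13 : (0 : ℝ) < (x3 : ℝ) - x1 := by
    have : (x1 : ℝ) < x3 := by exact_mod_cast h13
    linarith
  have n12 : ‖(x1 : ℂ) - x2‖ = (x2 : ℝ) - x1 := by
    rw [norm_sub_rev, ← Int.cast_sub, hn]
    push_cast
    exact abs_of_nonneg d12
  have n23 : ‖(x2 : ℂ) - x3‖ = (x3 : ℝ) - x2 := by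
    rw [norm_sub_rev, ← Int.cast_sub, hn]
    push_cast
    exact abs_of_nonneg d23
  have n31 : ‖(x3 : ℂ) - x1‖ = (x3 : ℝ) - x1 := by
    rw [← Int.cast_sub, hn]
    push_cast
    exact abs_of_pos d13
  have hKX : 0 ≤ K / X ^ 3 := by positivity
  -- upper bound of the right side
  have hR : ‖(x1 : ℂ) * x2 * x3 * (((y1 : ℂ) - θ * x1 - β - γ / x1 - δ / x1 ^ 2) * (x2 - x3) +
        ((y2 : ℂ) - θ * x2 - β - γ / x2 - δ / x2 ^ 2) * (x3 - x1) +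
        ((y3 : ℂ) - θ * x3 - β - γ / x3 - δ / x3 ^ 2) * (x1 - x2))‖ ≤
      16 * K * ((x3 : ℝ) - x1) := by
    rw [norm_mul]
    have a1 : ‖(x1 : ℂ) * x2 * x3‖ ≤ 8 * X ^ 3 := by
      rw [norm_mul, norm_mul, hn, hn, hn]
      have q1 : |(x1 : ℝ)| * |(x2 : ℝ)| ≤ (2 * X) * (2 * X) :=
        mul_le_mul h1.2 h2.2 (abs_nonneg _) (by positivity)
      calc |(x1 : ℝ)| * |(x2 : ℝ)| * |(x3 : ℝ)| ≤ (2 * X) * (2 * X) * (2 * X) :=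
            mul_le_mul q1 h3.2 (abs_nonneg _) (by positivity)
        _ = 8 * X ^ 3 := by ring
    have a2 : ‖((y1 : ℂ) - θ * x1 - β - γ / x1 - δ / x1 ^ 2) * (x2 - x3) +
        ((y2 : ℂ) - θ * x2 - β - γ / x2 - δ / x2 ^ 2) * (x3 - x1) +
        ((y3 : ℂ) - θ * x3 - β - γ / x3 - δ / x3 ^ 2) * (x1 - x2)‖ ≤
        K / X ^ 3 * (2 * ((x3 : ℝ) - x1)) := by
      have b1 : ‖((y1 : ℂ) - θ * x1 - β - γ / x1 - δ / x1 ^ 2) * (x2 - x3)‖ ≤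
          K / X ^ 3 * ((x3 : ℝ) - x2) := by
        rw [norm_mul, n23]
        exact mul_le_mul_of_nonneg_right e1 d23
      have b2 : ‖((y2 : ℂ) - θ * x2 - β - γ / x2 - δ / x2 ^ 2) * (x3 - x1)‖ ≤
          K / X ^ 3 * ((x3 : ℝ) - x1) := by
        rw [norm_mul, n31]
        exact mul_le_mul_of_nonneg_right e2 d13.le
      have b3 : ‖((y3 : ℂ) - θ * x3 - β - γ / x3 - δ / x3 ^ 2) * (x1 - x2)‖ ≤
          K / X ^ 3 * ((x2 : ℝ) - x1) := by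
        rw [norm_mul, n12]
        exact mul_le_mul_of_nonneg_right e3 d12
      refine (norm_add₃_le).trans ?_
      calc _ ≤ K / X ^ 3 * ((x3 : ℝ) - x2) + K / X ^ 3 * ((x3 : ℝ) - x1) +
            K / X ^ 3 * ((x2 : ℝ) - x1) := add_le_add (add_le_add b1 b2) b3
        _ = K / X ^ 3 * (2 * ((x3 : ℝ) - x1)) := by ring
    calc _ ≤ 8 * X ^ 3 * (K / X ^ 3 * (2 * ((x3 : ℝ) - x1))) :=
          mul_le_mul a1 a2 (norm_nonneg _) (by positivity)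
      _ = 16 * K * ((x3 : ℝ) - x1) := by
          field_simp
          ring
  -- lower bound of the left side
  have hinv : ∀ x : ℤ, X ≤ |(x : ℝ)| → ‖1 / (x : ℂ)‖ ≤ 1 / X := by
    intro x hx
    rw [norm_div, norm_one, hn]
    exact one_div_le_one_div_of_le hX hx
  have hs : ‖δ * (1 / (x1 : ℂ) + 1 / x2 + 1 / x3)‖ ≤ ‖γ‖ / 2 := by
    rw [norm_mul]
    have c1 : ‖1 / (x1 : ℂ) + 1 / x2 + 1 / x3‖ ≤ 3 / X := by
      refine (norm_add₃_le).trans ?_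
      calc _ ≤ 1 / X + 1 / X + 1 / X :=
            add_le_add (add_le_add (hinv x1 h1.1) (hinv x2 h2.1)) (hinv x3 h3.1)
        _ = 3 / X := by ring
    calc ‖δ‖ * ‖1 / (x1 : ℂ) + 1 / x2 + 1 / x3‖ ≤ ‖δ‖ * (3 / X) :=
          mul_le_mul_of_nonneg_left c1 (norm_nonneg _)
      _ ≤ ‖γ‖ / 2 := by
          rw [mul_div_assoc', div_le_iff₀ hX]
          linarith
  have hg : ‖γ‖ / 2 ≤ ‖γ + δ * (1 / (x1 : ℂ) + 1 / x2 + 1 / x3)‖ := by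
    have := norm_sub_le_norm_add γ (δ * (1 / (x1 : ℂ) + 1 / x2 + 1 / x3))
    linarith
  have hL : ((x2 : ℝ) - x1) * ((x3 : ℝ) - x2) * ((x3 : ℝ) - x1) * (‖γ‖ / 2) ≤
      ‖((x1 : ℂ) - x2) * (x2 - x3) * (x3 - x1) * (γ + δ * (1 / (x1 : ℂ) + 1 / x2 + 1 / x3))‖ := by
    rw [norm_mul, norm_mul, norm_mul, n12, n23, n31]
    exact mul_le_mul_of_nonneg_left hg (by positivity)
  rw [key] at hL
  have hfin := hL.trans hR
  have hfin2 : (((x2 : ℝ) - x1) * ((x3 : ℝ) - x2) * (‖γ‖ / 2)) * ((x3 : ℝ) - x1) ≤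
      (16 * K) * ((x3 : ℝ) - x1) := by
    calc _ = ((x2 : ℝ) - x1) * ((x3 : ℝ) - x2) * ((x3 : ℝ) - x1) * (‖γ‖ / 2) := by ring
      _ ≤ _ := hfin
  have hfin3 := le_of_mul_le_mul_right hfin2 d13
  linarith

end Pool.Agent.H8.MP
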